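import Pool.Agent.Lib.MP_5ddd96_lc.W5.Basic

/-!
Greedy colouring of a local set.
-/

set_option autoImplicit false

namespace Pool.Agent.Lib.MP_5ddd96_lc.W5

open Pointwise Pool.Agent.Lib.MP_5ddd96_lc.H74

namespace ColourAux

theorem exists_free {Z : Type} (A : Set Z) (hA : A.Finite) (m : ℕ) (h : A.ncard ≤ m) (χ : Z → ℕ) :
    ∃ k, k ≤ m ∧ ∀ z ∈ A, χ z ≠ k := by
  by_contra hc
  push Not at hc
  have hsub : ((Finset.range (m + 1) : Finset ℕ) : Set ℕ) ⊆ χ '' A := by
    intro k hk
    obtain ⟨z, hz, e⟩ := hc k (by simpa [Nat.lt_succ_iff] using hk)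
    exact ⟨z, hz, e⟩
  have h1 := Set.ncard_le_ncard hsub (hA.image χ)
  have h2 : (χ '' A).ncard ≤ A.ncard := Set.ncard_image_le hA
  rw [Set.ncard_coe_finset, Finset.card_range] at h1
  omega

end ColourAux

theorem pfColour : stColour := by
  classical
  intro G _ Z _ F hF M c hM hc Y hY m hm
  have key : ∀ i : ℕ, ∃ χ : Z → ℕ, IsLoc G c χ ∧ (∀ x, χ x ≤ m) ∧
      ∀ y, ∀ f ∈ F, Y y → Y (f • y) → c y < i → c (f • y) < i → χ (f • y) = χ y → f • y = y := by
    intro i
    induction i with
    | zero => exact ⟨fun _ => 0, IsLoc.const 0, fun _ => Nat.zero_le _,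
        fun _ _ _ _ _ h => absurd h (Nat.not_lt_zero _)⟩
    | succ i ih =>
      obtain ⟨χ, h1, h2, h3⟩ := ih
      let S : Z → Set ℕ := fun x => {k | ∀ f ∈ F, Y (f • x) → c (f • x) < i → χ (f • x) ≠ k}
      have hg : IsLoc G c (fun x => (c x, Y x, χ x)) := IsLoc.self.pair (hY.pair h1)
      have hS : IsLoc G c S := by
        refine hg.of_nbhd F fun x y h => ?_
        ext k
        refine forall₂_congr fun f hf => ?_
        have := h f hf
        simp only [Prod.mk.injEq] at this
        rw [this.1, this.2.1, this.2.2]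
      have hex : ∀ x, Y x → ∃ k, k ≤ m ∧ k ∈ S x := by
        intro x hx
        have hfin : {z | Y z ∧ ∃ f ∈ F, z = f • x}.Finite :=
          ((F.finite_toSet.image (fun f => f • x))).subset
            (by rintro z ⟨-, f, hf, rfl⟩; exact ⟨f, hf, rfl⟩)
        obtain ⟨k, hk, hk'⟩ := ColourAux.exists_free _ hfin m (hm x hx) χ
        exact ⟨k, hk, fun f hf hy _ => hk' _ ⟨hy, f, hf, rfl⟩⟩
      have hmem : ∀ x, Y x → sInf (S x) ∈ S x := fun x hx => by
        obtain ⟨k, -, hk⟩ := hex x hx
        exact Nat.sInf_mem ⟨k, hk⟩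
      refine ⟨fun x => if c x = i ∧ Y x then sInf (S x) else χ x, ?_, fun x => ?_, ?_⟩
      · refine (hg.pair hS).of_det fun x y h => ?_
        simp only [Prod.mk.injEq] at h
        obtain ⟨⟨e1, e2, e3⟩, e4⟩ := h
        simp only [e1, e2, e3, e4]
      · dsimp only
        split_ifs with h
        · obtain ⟨k, hk, hk'⟩ := hex x h.2
          exact (Nat.sInf_le hk').trans hk
        · exact h2 x
      · intro y f hf hy hfy l1 l2 e
        dsimp only at e
        by_cases a : c y = i
        · by_cases b : c (f • y) = i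
          · exact hc y f hf (b.trans a.symm)
          · rw [if_neg (fun h => b h.1), if_pos ⟨a, hy⟩] at e
            exact absurd e (hmem y hy f hf hfy (by omega))
        · by_cases b : c (f • y) = i
          · rw [if_pos ⟨b, hfy⟩, if_neg (fun h => a h.1)] at e
            have := hmem (f • y) hfy f⁻¹ (hF f hf) (by rwa [inv_smul_smul])
              (by rw [inv_smul_smul]; omega)
            rw [inv_smul_smul] at this
            exact absurd e.symm this
          · rw [if_neg (fun h => b h.1), if_neg (fun h => a h.1)] at e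
            exact h3 y f hf hy hfy (by omega) (by omega) e
  obtain ⟨χ, h1, h2, h3⟩ := key M
  exact ⟨χ, h1, h2, fun y f hf hy hfy e => h3 y f hf hy hfy (hM _) (hM _) e⟩

end Pool.Agent.Lib.MP_5ddd96_lc.W5
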