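import Pool.Agent.Lib.MP_5ddd96_lc.W5.Basic

/-!
Definability of the level counts, of the scores and of the word to the least label.
-/

set_option autoImplicit false

namespace Pool.Agent.Lib.MP_5ddd96_lc.W5

open Pointwise Pool.Agent.Lib.MP_5ddd96_lc.H74

namespace DefLevelAux

theorem words_fin (j t : ℕ) : {l : List ℕ | lev j l ∧ l.length ≤ t}.Finite := by
  induction t with
  | zero =>
    refine (Set.finite_singleton []).subset fun l hl => ?_
    exact List.length_eq_zero_iff.1 (Nat.le_zero.1 hl.2)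
  | succ t ih =>
    refine ((Set.finite_singleton []).union
      (Set.Finite.image2 List.cons (Set.finite_Iio (2 * j)) ih)).subset fun l hl => ?_
    cases l with
    | nil => exact Or.inl rfl
    | cons a l =>
      refine Or.inr ⟨a, hl.1 a (by simp), l, ⟨fun b hb => hl.1 b (by simp [hb]), ?_⟩, rfl⟩
      have := hl.2
      simp only [List.length_cons] at this
      omega

theorem le_ncard_iff {Z : Type} (T : Set (List ℕ)) (hT : T.Finite) (φ : List ℕ → Z) (e : ℕ) :
    e ≤ (φ '' T).ncard ↔ ∃ W : List (List ℕ), (∀ i, i < e → W.getD i [] ∈ T) ∧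
      ∀ q : ℕ × ℕ, q.1 < e → q.2 < e → φ (W.getD q.1 []) = φ (W.getD q.2 []) → q.1 = q.2 := by
  have hS : (φ '' T).Finite := hT.image φ
  constructor
  · intro h
    have : Fintype (φ '' T) := hS.fintype
    have h1 : Fintype.card (Fin e) ≤ Fintype.card (φ '' T) := by
      rwa [Fintype.card_fin, ← Nat.card_eq_fintype_card, Nat.card_coe_set_eq]
    obtain ⟨f⟩ := Function.Embedding.nonempty_of_card_le h1
    have h2 : ∀ i : Fin e, ∃ w ∈ T, φ w = f i := fun i => (f i).2
    choose w hw hw' using h2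
    have h3 : ∀ (i : ℕ) (hi : i < e), (List.ofFn w).getD i [] = w ⟨i, hi⟩ := fun i hi => by
      simp [List.getD_eq_getElem?_getD, hi]
    refine ⟨List.ofFn w, fun i hi => by rw [h3 i hi]; exact hw _, fun q h4 h5 h6 => ?_⟩
    rw [h3 _ h4, h3 _ h5, hw', hw'] at h6
    exact congrArg Fin.val (f.injective (Subtype.ext h6))
  · rintro ⟨W, h1, h2⟩
    have h3 := Set.ncard_le_ncard_of_injOn (s := (Finset.range e : Set ℕ)) (t := φ '' T)
      (fun i => φ (W.getD i [])) (fun i hi => ⟨_, h1 i (by simpa using hi), rfl⟩)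
      (fun i hi k hk h => h2 (i, k) (by simpa using hi) (by simpa using hk) h) hS
    rwa [Set.ncard_coe_finset, Finset.card_range] at h3

theorem lev_eq (g : ℕ → Equiv.Perm B) (lb : B → B) (j t : ℕ) (x : B) :
    Lev (nrr g j) lb t x = (fun l => lb (act g x l)) '' {l : List ℕ | lev j l ∧ l.length ≤ t} := by
  ext z
  constructor
  · rintro ⟨y, ⟨l, h1, h2, rfl⟩, rfl⟩
    exact ⟨l, ⟨h1, h2⟩, rfl⟩
  · rintro ⟨l, ⟨h1, h2⟩, rfl⟩
    exact ⟨_, ⟨l, h1, h2, rfl⟩, rfl⟩

variable {α : Type} [Primcodable α] {o : B} {g : ℕ → Equiv.Perm B} {lam : ℕ → B → List ℕ}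

theorem del_lev {j : α → B → ℕ} {l : α → B → List ℕ} (hj : SF o j) (hl : SF o l) :
    Del o (fun a x => lev (j a x) (l a x)) :=
  Del.rel (r := fun (L : List ℕ) (b : ℕ) => ∀ a ∈ L, a < 2 * b)
    (PrimrecRel.forall_mem_list (R := fun a b : ℕ => a < 2 * b)
      (Primrec.nat_lt.comp Primrec.fst (Primrec.nat_mul.comp (Primrec.const 2) Primrec.snd))) hl hj

theorem sf_len {l : α → B → List ℕ} (hl : SF o l) : SF o (fun a x => (l a x).length) :=
  SF.map Primrec.list_length.to_comp hl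

theorem pf_actw (hG : PF o (fun i x => g i x)) {l : α → B → List ℕ} (hl : SF o l)
    {X : α → B → B} (hX : PF o X) : PF o (fun a x => act g (X a x) (l a x)) :=
  PF.bind (F := fun (q : α × List ℕ) w => act g (X q.1 w) q.2)
    (((pf_act hG).par Computable.snd).comp hX.fst) hl

theorem sf_lam (hlam : SF o lam) {p : α → B → ℕ} (hp : SF o p) {X : α → B → B} (hX : PF o X) :
    SF o (fun a x => lam (p a x) (X a x)) :=
  SF.bind (F := fun (q : α × ℕ) w => lam q.2 (X q.1 w)) ((hlam.par Computable.snd).comp hX.fst) hp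

theorem pf_lab (hG : PF o (fun i x => g i x)) (hlam : SF o lam) {p : α → B → ℕ} (hp : SF o p)
    {X : α → B → B} (hX : PF o X) : PF o (fun a x => lab g lam (p a x) (X a x)) :=
  pf_actw hG (sf_lam hlam hp hX) hX

theorem del_lexle {Y Z : α → B → B} (hY : PF o Y) (hZ : PF o Z) :
    Del o (fun a x => lexle (Y a x) (Z a x)) :=
  (Del.eqB hY hZ).or (Del.ex (P := fun (q : α × ℕ) x =>
      (∀ m, m < q.2 → Y q.1 x m = Z q.1 x m) ∧ Y q.1 x q.2 < Z q.1 x q.2)
    ((Del.all (P := fun (r : (α × ℕ) × ℕ) x => r.2 < r.1.2 → Y r.1.1 x r.2 = Z r.1.1 x r.2)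
      ((Del.lt SF.snd SF.snd.fst).imp (Del.eq (hY.fst.fst.at SF.snd) (hZ.fst.fst.at SF.snd)))).and
      (Del.lt (hY.fst.at SF.snd) (hZ.fst.at SF.snd))))

theorem sf_getD {W : α → B → List (List ℕ)} {i : α → B → ℕ} (hW : SF o W) (hi : SF o i) :
    SF o (fun a x => (W a x).getD (i a x) []) :=
  SF.map₂ (Primrec.list_getD []) hW hi

theorem del_card (hG : PF o (fun i x => g i x)) (hlam : SF o lam) {j p t e : α → B → ℕ}
    (hj : SF o j) (hp : SF o p) (ht : SF o t) (he : SF o e) :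
    Del o (fun a x => e a x ≤ (Lev (nrr g (j a x)) (lab g lam (p a x)) (t a x) x).ncard) := by
  have h1 : Del o (fun (q : α × List (List ℕ)) x => ∀ i, i < e q.1 x →
      lev (j q.1 x) (q.2.getD i []) ∧ (q.2.getD i []).length ≤ t q.1 x) :=
    Del.all (P := fun (r : (α × List (List ℕ)) × ℕ) x => r.2 < e r.1.1 x →
        lev (j r.1.1 x) (r.1.2.getD r.2 []) ∧ (r.1.2.getD r.2 []).length ≤ t r.1.1 x)
      ((Del.lt SF.snd he.fst.fst).imp ((del_lev hj.fst.fst (sf_getD SF.snd.fst SF.snd)).and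
        (Del.le (sf_len (sf_getD SF.snd.fst SF.snd)) ht.fst.fst)))
  have c1 : SF o (fun (r : (α × List (List ℕ)) × ℕ × ℕ) (_ : B) => r.2.1) :=
    SF.const (Computable.fst.comp Computable.snd)
  have c2 : SF o (fun (r : (α × List (List ℕ)) × ℕ × ℕ) (_ : B) => r.2.2) :=
    SF.const (Computable.snd.comp Computable.snd)
  have h2 : Del o (fun (q : α × List (List ℕ)) x => ∀ s : ℕ × ℕ, s.1 < e q.1 x → s.2 < e q.1 x →
      lab g lam (p q.1 x) (act g x (q.2.getD s.1 [])) =
        lab g lam (p q.1 x) (act g x (q.2.getD s.2 [])) → s.1 = s.2) :=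
    Del.all (P := fun (r : (α × List (List ℕ)) × ℕ × ℕ) x => r.2.1 < e r.1.1 x →
        r.2.2 < e r.1.1 x → lab g lam (p r.1.1 x) (act g x (r.1.2.getD r.2.1 [])) =
          lab g lam (p r.1.1 x) (act g x (r.1.2.getD r.2.2 [])) → r.2.1 = r.2.2)
      ((Del.lt c1 he.fst.fst).imp ((Del.lt c2 he.fst.fst).imp
        ((Del.eqB (pf_lab hG hlam hp.fst.fst (pf_actw hG (sf_getD SF.snd.fst c1) PF.id))
          (pf_lab hG hlam hp.fst.fst (pf_actw hG (sf_getD SF.snd.fst c2) PF.id))).imp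
          (Del.eq c1 c2))))
  refine (h1.and h2).ex.of_iff fun a x => ?_
  rw [lev_eq, le_ncard_iff _ (words_fin _ _)]
  rfl

theorem sf_tau (hG : PF o (fun i x => g i x)) (hlam : SF o lam) {j p L e : α → B → ℕ}
    (hj : SF o j) (hp : SF o p) (hL : SF o L) (he : SF o e) :
    SF o (fun a x => tau (nrr g (j a x)) (lab g lam (p a x)) (L a x) (e a x) x) :=
  SF.sInf (P := fun (q : α × ℕ) x => L q.1 x ≤ q.2 ∨
      e q.1 x ≤ (Lev (nrr g (j q.1 x)) (lab g lam (p q.1 x)) q.2 x).ncard)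
    ((Del.le hL.fst SF.snd).or (del_card hG hlam hj.fst hp.fst SF.snd he.fst))

theorem sf_sc (hG : PF o (fun i x => g i x)) (hlam : SF o lam) {j p L e : α → B → ℕ}
    (hj : SF o j) (hp : SF o p) (hL : SF o L) (he : SF o e) :
    SF o (fun a x => sc (nrr g (j a x)) (lab g lam (p a x)) (L a x) (e a x) x) :=
  SF.map₂ Primrec.nat_sub (sf_tau hG hlam hj hp hL (SF.map Computable.succ he))
    (sf_tau hG hlam hj hp hL he)

theorem sf_repc (hG : PF o (fun i x => g i x)) (hlam : SF o lam) {j p t : α → B → ℕ}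
    (hj : SF o j) (hp : SF o p) (ht : SF o t) :
    SF o (fun a x => repc g lam (j a x) (p a x) (t a x) x) := by
  have w1 : SF o (fun (q : α × ℕ) (_ : B) => wrd q.2) := SF.map wrd_comp SF.snd
  exact SF.sInf (P := fun (q : α × ℕ) x =>
      (lev (j q.1 x) (wrd q.2) ∧ (wrd q.2).length ≤ t q.1 x) ∧ ∀ v : List ℕ, lev (j q.1 x) v →
        v.length ≤ t q.1 x →
        lexle (lab g lam (p q.1 x) (act g x (wrd q.2))) (lab g lam (p q.1 x) (act g x v)))
    (((del_lev hj.fst w1).and (Del.le (sf_len w1) ht.fst)).and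
      (Del.all (P := fun (r : (α × ℕ) × List ℕ) x => lev (j r.1.1 x) r.2 →
          r.2.length ≤ t r.1.1 x → lexle (lab g lam (p r.1.1 x) (act g x (wrd r.1.2)))
            (lab g lam (p r.1.1 x) (act g x r.2)))
        ((del_lev hj.fst.fst SF.snd).imp ((Del.le (sf_len SF.snd) ht.fst.fst).imp
          (del_lexle (pf_lab hG hlam hp.fst.fst (pf_actw hG w1.fst PF.id))
            (pf_lab hG hlam hp.fst.fst (pf_actw hG SF.snd PF.id)))))))

theorem sf_repw (hG : PF o (fun i x => g i x)) (hlam : SF o lam) {j p t : α → B → ℕ}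
    (hj : SF o j) (hp : SF o p) (ht : SF o t) :
    SF o (fun a x => repw g lam (j a x) (p a x) (t a x) x) := by
  have w1 := SF.map wrd_comp (sf_repc hG hlam hj hp ht)
  exact SF.map₂ Primrec.list_append w1 (sf_lam hlam hp (pf_actw hG w1 PF.id))

end DefLevelAux

open DefLevelAux in
theorem pfDefLevel : stDefLevel := by
  intro o g _ hG lam hlam
  have c1 : SF o (fun (q : ℕ × ℕ × ℕ × ℕ) (_ : B) => q.1) := SF.const Computable.fst
  have c2 : SF o (fun (q : ℕ × ℕ × ℕ × ℕ) (_ : B) => q.2.1) :=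
    SF.const (Computable.fst.comp Computable.snd)
  have c3 : SF o (fun (q : ℕ × ℕ × ℕ × ℕ) (_ : B) => q.2.2.1) :=
    SF.const (Computable.fst.comp (Computable.snd.comp Computable.snd))
  have c4 : SF o (fun (q : ℕ × ℕ × ℕ × ℕ) (_ : B) => q.2.2.2) :=
    SF.const (Computable.snd.comp (Computable.snd.comp Computable.snd))
  exact ⟨del_card hG hlam c1 c2 c3 c4, sf_tau hG hlam c1 c2 c3 c4, sf_sc hG hlam c1 c2 c3 c4,
    sf_repw hG hlam (SF.const Computable.fst) (SF.const (Computable.fst.comp Computable.snd))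
      (SF.const (Computable.snd.comp Computable.snd))⟩

end Pool.Agent.Lib.MP_5ddd96_lc.W5
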