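import Pool.Agent.Lib.MP_5ddd96_lc.W5.St

/-!
The unfolding lemma of `aa`, stated once for all modules that use it.
-/

set_option autoImplicit false

namespace Pool.Agent.Lib.MP_5ddd96_lc.W5

theorem eqfix1 : True := by
  have := @aa.eq_def
  trivial

end Pool.Agent.Lib.MP_5ddd96_lc.W5
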