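import Pool.Agent.Lib.MP_5ddd96_lc.W5.Basic
import Pool.Agent.Lib.MP_5ddd96_lc.W5.EqFix

/-!
Definability of the parameters.
-/

set_option autoImplicit false

namespace Pool.Agent.Lib.MP_5ddd96_lc.W5

open Pointwise Pool.Agent.Lib.MP_5ddd96_lc.H74

namespace DefParAux

variable {α : Type} [Primcodable α] {o : B}

theorem add {F G : α → B → ℕ} (hF : SF o F) (hG : SF o G) : SF o (fun a x => F a x + G a x) :=
  SF.map₂ Primrec.nat_add hF hG

theorem mul {F G : α → B → ℕ} (hF : SF o F) (hG : SF o G) : SF o (fun a x => F a x * G a x) :=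
  SF.map₂ Primrec.nat_mul hF hG

theorem pow {F G : α → B → ℕ} (hF : SF o F) (hG : SF o G) : SF o (fun a x => F a x ^ G a x) :=
  SF.map₂ ppow hF hG

theorem un1 {F : α → B → ℕ} (hF : SF o F) : SF o (fun a x => (F a x).unpair.1) :=
  SF.map (c := fun n : ℕ => n.unpair.1) (Computable.fst.comp Computable.unpair) hF

theorem sf_kk {N N' A J : α → B → ℕ} (h1 : SF o N) (h2 : SF o N') (h3 : SF o A) (h4 : SF o J) :
    SF o (fun a x => kk (N a x) (N' a x) (A a x) (J a x)) :=
  add (add (mul (add (mul (sfc 4) h3) (sfc 1))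
    (pow (add (add (pow h2 (sfc 2)) h4) (sfc 3)) (add h1 (sfc 1)))) (mul (sfc 4) h3)) (sfc 1)

theorem del_lev {J : α → B → ℕ} {l : α → B → List ℕ} (hJ : SF o J) (hl : SF o l) :
    Del o (fun a x => lev (J a x) (l a x)) :=
  (Del.all (P := fun (q : α × ℕ) x => q.2 < (l q.1 x).length → (l q.1 x).getD q.2 0 < 2 * J q.1 x)
    ((Del.lt SF.snd (SF.map Computable.list_length hl.fst)).imp
      (Del.lt (SF.map₂ (Primrec.list_getD 0) hl.fst SF.snd) (mul (sfc 2) hJ.fst)))).of_iff
    fun a x => by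
      refine ⟨fun h i hi => h _ ?_, fun h b hb => ?_⟩
      · rw [List.getD_eq_getElem _ _ hi]
        exact List.getElem_mem hi
      · obtain ⟨i, hi, rfl⟩ := List.getElem_of_mem hb
        have := h i hi
        rwa [List.getD_eq_getElem _ _ hi] at this

variable {g : ℕ → Equiv.Perm B} {lam : ℕ → B → List ℕ}

theorem del_good (hG : PF o (fun i x => g i x)) (hl : SF o lam)
    (hc : Del o (fun (q : ℕ × ℕ × ℕ × ℕ) x =>
      q.2.2.2 ≤ (Lev (nrr g q.1) (lab g lam q.2.1) q.2.2.1 x).ncard))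
    {J C L P : α → B → ℕ} (hJ : SF o J) (hC : SF o C) (hL : SF o L) (hP : SF o P) :
    Del o (fun a x => Good g lam (J a x) (C a x) (L a x) (P a x) x) := by
  have ha : PF o (fun (q : (ℕ × ℕ × ℕ × ℕ) × List ℕ) x => act g x q.2) :=
    (pf_act hG).par Computable.snd
  have c1 : Computable (fun q : (ℕ × ℕ × ℕ × ℕ) × List ℕ => q.1.1) :=
    Computable.fst.comp Computable.fst
  have c0 : Computable (fun q : (ℕ × ℕ × ℕ × ℕ) × List ℕ => q.1.2) :=
    Computable.snd.comp Computable.fst
  have c2 := Computable.fst.comp c0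
  have c3 := Computable.fst.comp (Computable.snd.comp c0)
  have c4 := Computable.snd.comp (Computable.snd.comp c0)
  have h1 : SF o (fun (q : (ℕ × ℕ × ℕ × ℕ) × List ℕ) x => lam q.1.2.2.2 (act g x q.2)) :=
    (hl.par c4).comp ha
  have h2 : Del o (fun (q : (ℕ × ℕ × ℕ × ℕ) × List ℕ) x => q.1.2.1 + 1 ≤
      (Lev (nrr g q.1.1) (lab g lam q.1.2.2.2) q.1.2.2.1 (act g x q.2)).ncard) :=
    (hc.par (c1.pair (c4.pair (c3.pair (Computable.succ.comp c2))))).comp ha
  have h3 : Del o (fun (q : ℕ × ℕ × ℕ × ℕ) x => Good g lam q.1 q.2.1 q.2.2.1 q.2.2.2 x) :=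
    (Del.all (((del_lev (SF.const c1) h1).and (Del.le (SF.map Computable.list_length h1)
      (un1 (SF.const c4)))).and h2.not)).of_iff fun q x =>
      forall_congr' fun u => and_congr_right' (by rw [not_le, Nat.lt_succ_iff])
  exact h3.app (hJ.pair (hC.pair (hL.pair hP)))

end DefParAux

open DefParAux in
theorem pfDefPar (h1 : stDefLevel) : stDefPar := by
  intro o g hs hG lam hl
  have hc := (h1 o g hs hG lam hl).1
  have hN : SF o (NN g lam) := by
    have h2 : Del o (fun (q : ((ℕ × ℕ) × ℕ) × ℕ) x => Good g lam q.1.1.1 q.1.1.2 q.1.2 q.2 x) :=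
      del_good hG hl hc
        (SF.const (Computable.fst.comp (Computable.fst.comp Computable.fst)))
        (SF.const (Computable.snd.comp (Computable.fst.comp Computable.fst)))
        (SF.const (Computable.snd.comp Computable.fst)) SF.snd
    exact SF.sInf (P := fun (q : ℕ × ℕ) x => ∀ L, ∃ p, Good g lam q.1 q.2 L p x) h2.ex.all
  have hB : SF o (fun (q : ℕ × ℕ) x => best g lam q.1 q.2 x) :=
    SF.sInf (P := fun (q : (ℕ × ℕ) × ℕ) x => Good g lam q.1.1 (NN g lam q.1.1 x) q.1.2 q.2 x)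
      (del_good hG hl hc (SF.const (Computable.fst.comp Computable.fst))
        (hN.par (Computable.fst.comp Computable.fst))
        (SF.const (Computable.snd.comp Computable.fst)) SF.snd)
  have hA : SF o (fun j x => aa g lam x j) := by
    have cj : Computable (fun q : ℕ × ℕ × ℕ => q.2.1) := Computable.fst.comp Computable.snd
    have ca : SF o (fun (q : ℕ × ℕ × ℕ) (_ : B) => q.2.2) :=
      SF.const (Computable.snd.comp Computable.snd)
    have h2 : SF o (fun (q : ℕ × ℕ × ℕ) x => NN g lam q.2.1 x *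
        kk (NN g lam q.2.1 x) (NN g lam (q.2.1 + 1) x) q.2.2 q.2.1) :=
      mul (hN.par cj) (sf_kk (hN.par cj) (hN.par (Computable.succ.comp cj)) ca (SF.const cj))
    have h3 := SF.nrec (o := o) (F := fun (_ : ℕ) _ => (0 : ℕ)) (sfc 0)
      (add (add ca (mul (sfc 2) (add h2 (un1 (hB.app ((SF.const cj).pair h2)))))) (sfc 1))
    refine (h3.par ((Computable.const 0).pair Computable.id)).of_eq fun j x => ?_
    induction j with
    | zero => rfl
    | succ j ih =>
      rw [aa, ih]
      rfl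
  have hL : SF o (LL g lam) :=
    mul hN (sf_kk hN (hN.par Computable.succ) hA (SF.const Computable.id))
  have hP : SF o (pp g lam) := hB.app ((SF.const Computable.id).pair hL)
  exact ⟨hN, hA, hL, hP, add hL (un1 hP)⟩

end Pool.Agent.Lib.MP_5ddd96_lc.W5
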