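import Pool.Agent.Lib.MP_5ddd96_lc.W5.Basic

/-!
The effective union theorem: assembly.
-/

set_option autoImplicit false

namespace Pool.Agent.Lib.MP_5ddd96_lc.W5

open Pointwise Pool.Agent.Lib.MP_5ddd96_lc.H74

namespace EffAux

theorem near_of_act (g : ℕ → Equiv.Perm B) (x : B) (l : List ℕ) :
    nrr g (l.sum + 1) l.length x (act g x l) := by
  refine ⟨l, fun a ha => ?_, le_rfl, rfl⟩
  have := List.single_le_sum (l := l) (fun _ _ => Nat.zero_le _) a ha
  omega

theorem near_succ (g : ℕ → Equiv.Perm B) (j r : ℕ) (x y : B) (h : nrr g j r x y) :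
    nrr g (j + 1) r x y := by
  obtain ⟨l, h1, h2, h3⟩ := h
  exact ⟨l, fun a ha => by have := h1 a ha; omega, h2, h3⟩

variable (g : ℕ → Equiv.Perm B) (lam : ℕ → B → List ℕ)

/-- The scores. -/
noncomputable def ss (q : ℕ × ℕ) (x : B) : ℕ :=
  sc (nrr g q.1) (lab g lam (pp g lam q.1 x)) (LL g lam q.1 x) q.2 x

/-- The radii. -/
noncomputable def tt (q : ℕ × ℕ) (x : B) : ℕ :=
  tau (nrr g q.1) (lab g lam (pp g lam q.1 x)) (LL g lam q.1 x) q.2 x

/-- The words leading to the representatives. -/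
noncomputable def rr (q : ℕ × ℕ) (x : B) : List ℕ :=
  repw g lam q.1 (pp g lam q.1 x) (tt g lam q x) x

end EffAux

open EffAux

theorem pfEff (hLevel : stLevel) (hUnion : stUnion) (hDefLevel : stDefLevel)
    (hDefPar : stDefPar) (hSpec : stSpec) (hMu : stMu) : stEff := by
  intro o g hS hG lam hl hgood
  obtain ⟨hnear, hinv, hgd, hrepm, hrepe⟩ := hSpec g hS lam
  obtain ⟨dN, da, dL, dp, dD⟩ := hDefPar o g hS hG lam hl
  obtain ⟨-, dtau, dsc, drep⟩ := hDefLevel o g hS hG lam hl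
  have hq : SF o (fun (q : ℕ × ℕ) x => (q.1, pp g lam q.1 x, LL g lam q.1 x, q.2)) :=
    (SF.const Computable.fst).pair ((dp.par Computable.fst).pair
      ((dL.par Computable.fst).pair (SF.const Computable.snd)))
  have ds : SF o (ss g lam) := dsc.app hq
  have dt : SF o (tt g lam) := dtau.app hq
  have dr : SF o (rr g lam) :=
    drep.app ((SF.const Computable.fst).pair ((dp.par Computable.fst).pair dt))
  obtain ⟨μ, dμ, hμ⟩ := hMu o g hG (NN g lam) (fun j x => aa g lam x j) (DD g lam) (ss g lam)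
    (rr g lam) dN da dD ds dr
  have hG0 : ∀ x j, Good g lam j (NN g lam j x) (LL g lam j x) (pp g lam j x) x :=
    fun x j => hgd x j (hgood x j)
  have hN1 : ∀ j x, 1 ≤ NN g lam j x := by
    intro j x
    have h1 := (hG0 x j []).2
    rw [act_nil] at h1
    refine le_trans ?_ h1
    have hf : (Lev (nrr g j) (lab g lam (pp g lam j x)) (LL g lam j x) x).Finite :=
      ((hnear j).fin _ x).image _
    exact (Set.ncard_pos hf).2 ⟨_, x, (hnear j).refl _ x, rfl⟩
  have main : ∀ x0 : B,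
      (∀ n x, (∃ l, act g x0 l = x) → nrr g n (aa g lam x0 n) x (ff μ n 0 x)) ∧
      ∀ j r x y, (∃ l, act g x0 l = x) → nrr g j r x y →
        ∃ n₀, ∀ n, n₀ ≤ n → ff μ n 0 x = ff μ n 0 y := by
    intro x0
    have hO : ∀ j r x y, x ∈ {x | ∃ l, act g x0 l = x} → nrr g j r x y →
        y ∈ {x | ∃ l, act g x0 l = x} := by
      rintro j r _ _ ⟨l, rfl⟩ ⟨l', -, -, rfl⟩
      exact ⟨l ++ l', act_append g x0 l l'⟩
    have cN : ∀ j x, x ∈ {x | ∃ l, act g x0 l = x} → NN g lam j x = NN g lam j x0 := by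
      rintro j _ ⟨l, rfl⟩; exact (hinv x0 l j).1
    have ca : ∀ j x, x ∈ {x | ∃ l, act g x0 l = x} → aa g lam x j = aa g lam x0 j := by
      rintro j _ ⟨l, rfl⟩; exact (hinv x0 l j).2.1
    have cL : ∀ j x, x ∈ {x | ∃ l, act g x0 l = x} → LL g lam j x = LL g lam j x0 := by
      rintro j _ ⟨l, rfl⟩; exact (hinv x0 l j).2.2.1
    have cp : ∀ j x, x ∈ {x | ∃ l, act g x0 l = x} → pp g lam j x = pp g lam j x0 := by
      rintro j _ ⟨l, rfl⟩; exact (hinv x0 l j).2.2.2.1
    have cD : ∀ j x, x ∈ {x | ∃ l, act g x0 l = x} → DD g lam j x = DD g lam j x0 := by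
      rintro j _ ⟨l, rfl⟩; exact (hinv x0 l j).2.2.2.2
    have es : ∀ j e x, x ∈ {x | ∃ l, act g x0 l = x} → ss g lam (j, e) x =
        sc (nrr g j) (lab g lam (pp g lam j x0)) (LL g lam j x0) e x := by
      intro j e x hx
      simp only [ss]; rw [cp j x hx, cL j x hx]
    have et : ∀ j e x, x ∈ {x | ∃ l, act g x0 l = x} → tt g lam (j, e) x =
        tau (nrr g j) (lab g lam (pp g lam j x0)) (LL g lam j x0) e x := by
      intro j e x hx
      simp only [tt]; rw [cp j x hx, cL j x hx]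
    have er : ∀ j e x, x ∈ {x | ∃ l, act g x0 l = x} → rr g lam (j, e) x =
        repw g lam j (pp g lam j x0)
          (tau (nrr g j) (lab g lam (pp g lam j x0)) (LL g lam j x0) e x) x := by
      intro j e x hx
      simp only [rr]; rw [et j e x hx, cp j x hx]
    have hLv := fun j => hLevel B (nrr g j) (hnear j) (lab g lam (pp g lam j x0)) (LL g lam j x0)
    refine hUnion B (nrr g) hnear (near_succ g) {x | ∃ l, act g x0 l = x} hO
      (fun j => NN g lam j x0) (fun j => aa g lam x0 j) (fun j => DD g lam j x0)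
      (fun j e x => ss g lam (j, e) x) (fun j e x => act g x (rr g lam (j, e) x)) μ
      (fun j => rfl) ?_ ?_ ?_ ?_ ?_
    · intro j e r x y hx hxy
      rw [es j e x hx, es j e y (hO j r x y hx hxy)]
      exact (hLv j).2.1 e r x y hxy
    · intro j x hx
      obtain ⟨l, rfl⟩ := id hx
      obtain ⟨e, h1, h2, h3⟩ := (hLv j).2.2.1 (NN g lam j x0)
        (kk (NN g lam j x0) (NN g lam (j + 1) x0) (aa g lam x0 j) j) (act g x0 l)
        (hG0 x0 j l).2 le_rfl
      exact ⟨e, h1, h2, by rw [es j e _ hx]; exact h3⟩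
    · intro j e x hx
      rw [er j e x hx]
      obtain ⟨y, hy, hy'⟩ := hrepm j (pp g lam j x0)
        (tau (nrr g j) (lab g lam (pp g lam j x0)) (LL g lam j x0) e x) x
      rw [← hy']
      obtain ⟨l, rfl⟩ := hO j _ x y hx hy
      have h2 : nrr g j (pp g lam j x0).unpair.1 (act g x0 l)
          (lab g lam (pp g lam j x0) (act g x0 l)) :=
        ⟨_, (hG0 x0 j l).1.1, (hG0 x0 j l).1.2, rfl⟩
      exact (hnear j).trans ((hnear j).mono ((hLv j).1 e x) hy) h2
    · intro j e r x y hx hxy h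
      rw [es j e x hx] at h
      rw [er j e x hx, er j e y (hO j r x y hx hxy)]
      exact hrepe j _ _ _ x y ((hLv j).2.2.2 e r x y hxy h)
    · intro n j x hx
      have := hμ n j x (hN1 j x)
      rw [cN j x hx, cN (j + 1) x hx, ca j x hx, cD j x hx] at this
      exact this
  have hsym : ∀ x y, (∃ l, act g x l = y) → ∃ l, act g y l = x := by
    rintro x _ ⟨l, rfl⟩
    obtain ⟨l', -, -, h⟩ := (hnear _).symm (near_of_act g x l)
    exact ⟨l', h⟩
  refine ⟨fun n x y => (∃ l, act g x l = y) ∧ ∀ k, n ≤ k → ff μ k 0 x = ff μ k 0 y,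
    Del.delta11 (Del.and ?_ ?_), fun n => ⟨fun _ _ _ => ⟨trivial, trivial⟩,
      fun x _ => ⟨⟨[], rfl⟩, fun _ _ => rfl⟩,
      fun x y h => ⟨hsym x y h.1, fun k hk => (h.2 k hk).symm⟩, ?_, ?_⟩,
    fun n x y h => ⟨h.1, fun k hk => h.2 k (by omega)⟩, fun x y => ⟨?_, fun ⟨_, h⟩ => h.1⟩⟩
  · exact Del.ex (P := fun (q : ℕ × List ℕ) w => act g (ev w) q.2 = od w)
      (Del.eqB (((pf_act hG).par Computable.snd).comp PF.ev) PF.od)
  · exact Del.all (P := fun (q : ℕ × ℕ) w => q.1 ≤ q.2 → ff μ q.2 0 (ev w) = ff μ q.2 0 (od w))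
      ((Del.le (SF.const Computable.fst) SF.snd).imp
        (Del.eqB ((dμ.par Computable.snd).comp PF.ev) ((dμ.par Computable.snd).comp PF.od)))
  · rintro x _ _ ⟨⟨l, rfl⟩, h⟩ ⟨⟨l', rfl⟩, h'⟩
    exact ⟨⟨l ++ l', act_append g x l l'⟩, fun k hk => (h k hk).trans (h' k hk)⟩
  · intro x
    refine ((hnear n).fin (aa g lam x n) (ff μ n 0 x)).subset ?_
    rintro y ⟨h1, h2⟩
    have := (main x).1 n y h1
    rw [← h2 n le_rfl] at this
    exact (hnear n).symm this
  · rintro ⟨l, rfl⟩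
    obtain ⟨n₀, h⟩ := (main x).2 _ _ x _ ⟨[], rfl⟩ (near_of_act g x l)
    exact ⟨n₀, ⟨l, rfl⟩, h⟩

end Pool.Agent.Lib.MP_5ddd96_lc.W5
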