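import Pool.Agent.Lib.MP_5ddd96_lc.W5.Basic

/-!
One fine level: local maps along `A` in general position at the scale `V`.
-/

set_option autoImplicit false

namespace Pool.Agent.Lib.MP_5ddd96_lc.W5

open Pointwise Pool.Agent.Lib.MP_5ddd96_lc.H74

namespace FineAux

section near

variable {Q : Type} [Group Q] {Z : Type} [MulAction Q Z]

/-- Distance at most `r` along `V`. -/
def nrV (V : Finset Q) (Z : Type) [MulAction Q Z] (r : ℕ) (x y : Z) : Prop :=
  ∃ u ∈ ball V r, y = u • x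

theorem isNear (V : Finset Q) : IsNear (nrV V Z) where
  refl r x := ⟨1, one_mem_ball V r, (one_smul Q x).symm⟩
  mono h := fun ⟨u, hu, e⟩ => ⟨u, ball_mono V h hu, e⟩
  symm := fun ⟨u, hu, e⟩ => ⟨u⁻¹, inv_mem_ball hu, by rw [e, inv_smul_smul]⟩
  trans := fun {r s _ _ _} ⟨u, hu, e⟩ ⟨w, hw, e'⟩ =>
    ⟨w * u, by rw [Nat.add_comm r s]; exact mul_mem_ball hw hu, by rw [e', e, mul_smul]⟩
  fin r x := ((ball_finite V r).image (fun u => u • x)).subset
    fun _ ⟨u, hu, e⟩ => ⟨u, hu, e.symm⟩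

theorem mem_ball_one {V : Finset Q} {v : Q} (hv : v ∈ V) : v ∈ ball V 1 :=
  ⟨[v], le_rfl, fun a ha => Or.inl (by rw [List.mem_singleton.1 ha]; exact hv), by simp⟩

theorem ball_sub {A : Subgroup Q} {V : Finset Q} (hV : ∀ v ∈ V, v ∈ A) {r : ℕ} {g : Q}
    (hg : g ∈ ball V r) : g ∈ A := by
  obtain ⟨l, -, h2, rfl⟩ := hg
  refine A.list_prod_mem fun a ha => ?_
  rcases h2 a ha with h | h
  · exact hV a h
  · exact A.inv_mem_iff.1 (hV _ h)

/-- The group elements leading to the labels on the ball of radius `t`. -/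
def gs (V : Finset Q) (v : Z → Q) (t : ℕ) (x : Z) : Set Q :=
  {g | ∃ u ∈ ball V t, g = v (u • x) * u}

theorem lev_eq (V : Finset Q) (v : Z → Q) (t : ℕ) (x : Z) :
    Lev (nrV V Z) (fun y => v y • y) t x = (fun g : Q => g • x) '' gs V v t x := by
  ext z
  constructor
  · rintro ⟨y, ⟨u, hu, rfl⟩, rfl⟩
    exact ⟨_, ⟨u, hu, rfl⟩, mul_smul _ _ _⟩
  · rintro ⟨_, ⟨u, hu, rfl⟩, rfl⟩
    exact ⟨u • x, ⟨u, hu, rfl⟩, (mul_smul _ _ _).symm⟩

theorem gs_congr {V : Finset Q} {v : Z → Q} {t : ℕ} {x y : Z}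
    (h : ∀ u ∈ ball V t, v (u • x) = v (u • y)) : gs V v t x = gs V v t y := by
  ext g
  constructor
  · rintro ⟨u, hu, rfl⟩
    exact ⟨u, hu, by rw [h u hu]⟩
  · rintro ⟨u, hu, rfl⟩
    exact ⟨u, hu, by rw [h u hu]⟩

theorem gs_nonempty (V : Finset Q) (v : Z → Q) (t : ℕ) (x : Z) : (gs V v t x).Nonempty :=
  ⟨_, 1, one_mem_ball V t, rfl⟩

theorem gs_loc {c : Z → ℕ} (V : Finset Q) {v : Z → Q} (hv : IsLoc Q c v) (t : ℕ) :
    IsLoc Q c (gs V v t) :=
  hv.of_nbhd (ball_finite V t).toFinset fun _ _ h =>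
    gs_congr fun u hu => h u ((ball_finite V t).mem_toFinset.2 hu)

end near

theorem arith (s s' i j e e' : ℕ) (he : e ≠ e')
    (h1 : s' + 5 * (i * e') ≤ s + 5 * (i * e)) (h2 : s + 5 * (i * e) ≤ s' + 5 * (i * e') + 4 * 1)
    (h3 : s' + 5 * (j * e') ≤ s + 5 * (j * e)) (h4 : s + 5 * (j * e) ≤ s' + 5 * (j * e') + 4 * 1) :
    i = j := by
  have h : i * e + j * e' = j * e + i * e' := by omega
  have h' : ((i : ℤ) - j) * ((e : ℤ) - e') = 0 := by
    have := congrArg (Nat.cast : ℕ → ℤ) h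
    push_cast at this
    linear_combination this
  rcases mul_eq_zero.1 h' with h0 | h0
  · omega
  · exact absurd (by omega) he

/-- The counting step, for abstract scores and representatives. -/
theorem count {Z : Type} (nr : Z → Prop) (x : Z) (N H : ℕ) (s : ℕ → Z → ℕ) (rep : ℕ → Z → Z)
    (win : ℕ → Z → ℕ) (hx : nr x)
    (S1 : ∀ e y, nr y → s e x ≤ s e y + 2 * 1 ∧ s e y ≤ s e x + 2 * 1)
    (S2 : ∀ y, nr y → ∃ e, 1 ≤ e ∧ e ≤ N ∧ 5 * (H * N) + 5 ≤ s e y)
    (S4 : ∀ e y, nr y → 2 * 1 < s e x → rep e y = rep e x)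
    (hwin : ∀ i y, 1 ≤ win i y ∧ win i y ≤ N ∧ ∀ e, 1 ≤ e → e ≤ N →
      s e y + 5 * (i * e) ≤ s (win i y) y + 5 * (i * win i y)) :
    (∀ i, i < H → {z | ∃ y, nr y ∧ z = rep (win i y) y}.ncard ≤ N) ∧
      {i | i < H ∧ ∃ y, nr y ∧ rep (win i y) y ≠ rep (win i x) x}.ncard ≤ N ^ 2 := by
  have T : ∀ i, i < H → ∀ y, nr y → rep (win i y) y = rep (win i y) x ∧
      s (win i y) x + 5 * (i * win i y) ≤ s (win i x) x + 5 * (i * win i x) ∧
      s (win i x) x + 5 * (i * win i x) ≤ s (win i y) x + 5 * (i * win i y) + 4 * 1 := by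
    intro i hi y hy
    refine tie nr x N 1 (5 * (H * N) + 5) s rep (fun e _ => 5 * (i * e)) (win i) hx S1 S2 S4
      (fun e _ _ _ he => ?_) (fun y _ => hwin i y) y hy
    have : i * e ≤ H * N := Nat.mul_le_mul hi.le he
    omega
  refine ⟨fun i hi => ?_, ?_⟩
  · have hsub : {z | ∃ y, nr y ∧ z = rep (win i y) y} ⊆
        (fun e => rep e x) '' (Finset.Icc 1 N : Set ℕ) := by
      rintro _ ⟨y, hy, rfl⟩
      exact ⟨win i y, by simpa using ⟨(hwin i y).1, (hwin i y).2.1⟩, (T i hi y hy).1.symm⟩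
    refine (Set.ncard_le_ncard hsub ((Finset.finite_toSet _).image _)).trans
      ((Set.ncard_image_le (Finset.finite_toSet _)).trans ?_)
    rw [Set.ncard_coe_finset, Nat.card_Icc]
    omega
  · have hex : ∀ i, ∃ y, (i < H ∧ ∃ y, nr y ∧ rep (win i y) y ≠ rep (win i x) x) →
        nr y ∧ rep (win i y) y ≠ rep (win i x) x := by
      intro i
      by_cases h : i < H ∧ ∃ y, nr y ∧ rep (win i y) y ≠ rep (win i x) x
      · obtain ⟨y, hy⟩ := h.2
        exact ⟨y, fun _ => hy⟩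
      · exact ⟨x, fun h' => absurd h' h⟩
    choose f hf using hex
    have hc : ((Finset.Icc 1 N ×ˢ Finset.Icc 1 N : Finset (ℕ × ℕ)) : Set (ℕ × ℕ)).ncard = N ^ 2 := by
      rw [Set.ncard_coe_finset, Finset.card_product, Nat.card_Icc, Nat.add_sub_cancel, sq]
    rw [← hc]
    refine Set.ncard_le_ncard_of_injOn (fun i => (win i x, win i (f i))) (fun i _ => ?_)
      (fun i hi j hj hij => ?_) (Finset.finite_toSet _)
    · simp only [Finset.coe_product, Finset.coe_Icc, Set.mem_prod, Set.mem_Icc]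
      exact ⟨⟨(hwin i x).1, (hwin i x).2.1⟩, (hwin i _).1, (hwin i _).2.1⟩
    · obtain ⟨e1, e2⟩ := Prod.mk.inj hij
      obtain ⟨a1, a2, a3⟩ := T i hi.1 (f i) (hf i hi).1
      obtain ⟨-, b2, b3⟩ := T j hj.1 (f j) (hf j hj).1
      have hne : win i x ≠ win i (f i) := fun h => (hf i hi).2 (by rw [a1, ← h])
      rw [← e1, ← e2] at b2 b3
      exact arith _ _ i j _ _ hne a2 a3 b2 b3

end FineAux

open FineAux in
theorem pfFine (h1 : stNet) (h2 : stPack) (h3 : stLevel) : stFine := by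
  classical
  intro Q _ A m hD H V hV
  set N := m 1 with hN
  set k := 5 * (H * N) + 5 with hk
  set L := N * k with hL
  obtain ⟨W, ⟨W1, Winv, WA⟩, hE, hW⟩ := hD {1} (ball_finite V L).toFinset fun e he =>
    ball_sub hV.2.2 ((ball_finite V L).mem_toFinset.1 he)
  have hW1 := hW 1 (Finset.mem_singleton_self 1)
  have hEW : ∀ t, t ≤ L → ∀ u ∈ ball V t, u ∈ W := fun t ht u hu =>
    hE ((ball_finite V L).mem_toFinset.2 (ball_mono V ht hu))
  have F1 : (1 : Q) ∈ W * W := by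
    simpa using Finset.mul_mem_mul W1 W1
  have Finv : ∀ f ∈ W * W, f⁻¹ ∈ W * W := by
    intro f hf
    obtain ⟨a, ha, b, hb, rfl⟩ := Finset.mem_mul.1 hf
    rw [mul_inv_rev]
    exact Finset.mul_mem_mul (Winv b hb) (Winv a ha)
  have FT : ∀ f ∈ W * W, f ∈ W * W * W := fun f hf => by
    simpa using Finset.mul_mem_mul hf W1
  have WT : ∀ w ∈ W, w ∈ W * W * W := fun w hw => by
    simpa using Finset.mul_mem_mul F1 hw
  refine ⟨Finset.image₂ (fun a b => a * b⁻¹) (W * W * W) (W * W * W), W * W * W, fun d hd => ?_,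
    fun M Z _ c hc hA => ?_⟩
  · obtain ⟨f, hf, b, hb, rfl⟩ := Finset.mem_mul.1 hd
    obtain ⟨a, ha, a', ha', rfl⟩ := Finset.mem_mul.1 hf
    exact A.mul_mem (A.mul_mem (WA a ha) (WA a' ha')) (WA b hb)
  have inj : ∀ x : Z, ∀ t ∈ W * W * W, ∀ t' ∈ W * W * W, c (t • x) = c (t' • x) → t = t' := by
    intro x t ht t' ht' e
    have := hA (t' • x) (t * t'⁻¹) (Finset.mem_image₂_of_mem ht ht')
      (by rw [← mul_smul, inv_mul_cancel_right]; exact e)
    exact mul_inv_eq_one.1 (Subgroup.mem_bot.1 this)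
  obtain ⟨Y, v, -, hv, hvY, hY⟩ := h1 Q Z (W * W) F1 Finv M c hc
  have gsT : ∀ t, t ≤ L → ∀ x, ∀ g ∈ gs V v t x, g ∈ W * W * W := by
    rintro t ht x _ ⟨u, hu, rfl⟩
    exact Finset.mul_mem_mul (hvY _).1 (hEW t ht u hu)
  have levc : ∀ t, t ≤ L → ∀ x,
      (Lev (nrV V Z) (fun y => v y • y) t x).ncard = (gs V v t x).ncard := by
    intro t ht x
    rw [lev_eq]
    exact Set.InjOn.ncard_image fun g hg g' hg' e =>
      inj x g (gsT t ht x g hg) g' (gsT t ht x g' hg') (congrArg c e)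
  have hcard : ∀ x, (Lev (nrV V Z) (fun y => v y • y) L x).ncard ≤ N := by
    intro x
    have hp := h2 Q Z W Winv (fun x a ha b hb e => inj x a (WT a ha) b (WT b hb) (congrArg c e)) Y
      (fun y a ha b hb hy hy' => by
        have hm := Finset.mul_mem_mul ha hb
        have := inj y (a * b) (FT _ hm) 1 (FT _ F1) (by rw [one_smul]; exact hY y _ hm hy hy')
        rw [this, one_smul])
      ((W * W * W : Finset Q) : Set Q) (Finset.finite_toSet _) x
    have hfin5 : ((W : Set Q) ^ 5).Finite := by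
      rw [← Finset.coe_pow]; exact Finset.finite_toSet _
    have hsub : (W : Set Q) * ((W * W * W : Finset Q) : Set Q) ⊆
        (W : Set Q) ^ 5 * {1} * (W : Set Q) ^ 5 := by
      rintro _ ⟨a, ha, d, hd, rfl⟩
      obtain ⟨f, hf, b, hb, rfl⟩ := Finset.mem_mul.1 (Finset.mem_coe.1 hd)
      obtain ⟨a', ha', a'', ha'', rfl⟩ := Finset.mem_mul.1 hf
      have W1' : (1 : Q) ∈ (W : Set Q) := W1
      have h5 : a * (a' * a'' * b) ∈ (W : Set Q) ^ 5 := by
        have : a * a' * a'' * b * 1 ∈ (W : Set Q) * W * W * W * W :=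
          Set.mul_mem_mul (Set.mul_mem_mul (Set.mul_mem_mul (Set.mul_mem_mul ha ha') ha'') hb) W1'
        have e5 : (W : Set Q) ^ 5 = (W : Set Q) * W * W * W * W := by
          simp only [pow_succ, pow_zero, one_mul]
        rw [e5]
        simpa only [mul_assoc, mul_one] using this
      exact ⟨a * (a' * a'' * b) * 1, Set.mul_mem_mul h5 (Set.mem_singleton 1), 1,
        Set.one_mem_pow W1', by simp⟩
    have hle := (hp.trans (Set.ncard_le_ncard hsub
      ((hfin5.mul (Set.finite_singleton 1)).mul hfin5))).trans hW1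
    have hpos : 0 < W.card := Finset.card_pos.2 ⟨1, W1⟩
    refine (Set.ncard_le_ncard ?_ ?_).trans (Nat.le_of_mul_le_mul_right hle hpos)
    · rintro _ ⟨_, ⟨u, hu, rfl⟩, rfl⟩
      exact ⟨(hvY _).2, v (u • x) * u, gsT L le_rfl x _ ⟨u, hu, rfl⟩, (mul_smul _ _ _).symm⟩
    · exact ((Finset.finite_toSet (W * W * W)).image (fun g => g • x)).subset
        fun _ ⟨_, g, hg, e⟩ => ⟨g, hg, e.symm⟩
  obtain ⟨l1, l2, l3, l4⟩ := h3 Z (nrV V Z) (isNear V) (fun y => v y • y) L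
  have tauL : ∀ e, IsLoc Q c (tau (nrV V Z) (fun y => v y • y) L e) := by
    intro e
    refine IsLoc.of_fin (Finset.range L) (f := fun t => gs V v t) (fun t _ => gs_loc V hv t)
      fun x y h => ?_
    unfold tau
    congr 1
    ext t
    simp only [Set.mem_ofPred_eq]
    rcases le_or_gt L t with ht | ht
    · simp only [ht, true_or]
    · rw [levc t ht.le, levc t ht.le, h t (Finset.mem_range.2 ht)]
  have scL : ∀ e, IsLoc Q c (sc (nrV V Z) (fun y => v y • y) L e) := fun e =>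
    (tauL (e + 1)).comp₂ (tauL e) fun a b => a - b
  have KL : ∀ e, IsLoc Q c
      (fun x => gs V v (tau (nrV V Z) (fun y => v y • y) L e x) x) := fun e =>
    IsLoc.dep (Finset.range (L + 1)) (tauL e)
      (fun x => Finset.mem_range.2 (Nat.lt_succ_of_le (l1 e x))) (f := fun t => gs V v t)
      fun t _ => gs_loc V hv t
  have hrep : ∀ e, ∃ r : Z → Q, IsLoc Q c r ∧ ∀ x, r x ∈ W * W * W ∧
      (r x ∈ gs V v (tau (nrV V Z) (fun y => v y • y) L e x) x ∧
        ∀ g ∈ gs V v (tau (nrV V Z) (fun y => v y • y) L e x) x, c (r x • x) ≤ c (g • x)) := by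
    intro e
    refine IsLoc.choice (W * W * W)
      (P := fun g x => g ∈ gs V v (tau (nrV V Z) (fun y => v y • y) L e x) x ∧
        ∀ g' ∈ gs V v (tau (nrV V Z) (fun y => v y • y) L e x) x, c (g • x) ≤ c (g' • x))
      (fun g hg => ?_) fun x => ?_
    · refine IsLoc.of_fin (W * W * W)
        (f := fun g' x => (gs V v (tau (nrV V Z) (fun y => v y • y) L e x) x, c (g' • x)))
        (fun g' _ => (KL e).pair (IsLoc.self.shift g')) fun x y h => ?_
      obtain ⟨e1, e2⟩ := Prod.mk.inj (h g hg)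
      rw [← e1, ← e2]
      refine propext (and_congr_right fun _ => forall₂_congr fun g' hg' => ?_)
      rw [(Prod.mk.inj (h g' (gsT _ (l1 e x) x g' hg'))).2]
    · obtain ⟨g, hg, hmin⟩ := Set.exists_min_image _ (fun g : Q => c (g • x))
        ((Finset.finite_toSet (W * W * W)).subset (gsT _ (l1 e x) x))
        (gs_nonempty V v (tau (nrV V Z) (fun y => v y • y) L e x) x)
      exact ⟨g, gsT _ (l1 e x) x g hg, hg, hmin⟩
  choose r rL hr using hrep
  have S2 : ∀ y, ∃ e, 1 ≤ e ∧ e ≤ N ∧ k ≤ sc (nrV V Z) (fun y => v y • y) L e y := fun y =>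
    l3 N k y (hcard y) le_rfl
  have hwin : ∀ i, ∃ w : Z → ℕ, IsLoc Q c w ∧ ∀ x, w x ∈ Finset.Icc 1 N ∧
      ∀ e, 1 ≤ e → e ≤ N → sc (nrV V Z) (fun y => v y • y) L e x + 5 * (i * e) ≤
        sc (nrV V Z) (fun y => v y • y) L (w x) x + 5 * (i * w x) := by
    intro i
    refine IsLoc.choice (Finset.Icc 1 N)
      (P := fun w x => ∀ e, 1 ≤ e → e ≤ N →
        sc (nrV V Z) (fun y => v y • y) L e x + 5 * (i * e) ≤
          sc (nrV V Z) (fun y => v y • y) L w x + 5 * (i * w)) (fun w hw => ?_) fun x => ?_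
    · refine IsLoc.of_fin (Finset.Icc 1 N) (f := fun e => sc (nrV V Z) (fun y => v y • y) L e)
        (fun e _ => scL e) fun x y h => ?_
      refine propext (forall₃_congr fun e he he' => ?_)
      rw [h w hw, h e (Finset.mem_Icc.2 ⟨he, he'⟩)]
    · obtain ⟨e0, a, b, -⟩ := S2 x
      obtain ⟨e, a', b', h⟩ := exists_win N (a.trans b)
        fun e => sc (nrV V Z) (fun y => v y • y) L e x + 5 * (i * e)
      exact ⟨e, Finset.mem_Icc.2 ⟨a', b'⟩, h⟩
  choose w wL hw using hwin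
  have key : ∀ x : Z,
      (∀ i, i < H → {z | ∃ y, nrV V Z 1 x y ∧ z = r (w i y) y • y}.ncard ≤ N) ∧
      {i | i < H ∧ ∃ y, nrV V Z 1 x y ∧ r (w i y) y • y ≠ r (w i x) x • x}.ncard ≤ N ^ 2 := by
    intro x
    refine count (nrV V Z 1 x) x N H (sc (nrV V Z) (fun y => v y • y) L) (fun e y => r e y • y) w
      ((isNear V).refl 1 x) (fun e y hy => ⟨l2 e 1 x y hy, l2 e 1 y x ((isNear V).symm hy)⟩)
      (fun y _ => S2 y) (fun e y hy hs => ?_)
      fun i y => ⟨(Finset.mem_Icc.1 (hw i y).1).1, (Finset.mem_Icc.1 (hw i y).1).2, (hw i y).2⟩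
    have hl := l4 e 1 x y hy hs
    rw [lev_eq, lev_eq] at hl
    have m1 : r e y • y ∈ (fun g : Q => g • x) ''
        gs V v (tau (nrV V Z) (fun y => v y • y) L e x) x := by
      rw [← hl]; exact ⟨_, (hr e y).2.1, rfl⟩
    have m2 : r e x • x ∈ (fun g : Q => g • y) ''
        gs V v (tau (nrV V Z) (fun y => v y • y) L e y) y := by
      rw [hl]; exact ⟨_, (hr e x).2.1, rfl⟩
    obtain ⟨g, hg, eg⟩ := m1
    obtain ⟨g', hg', eg'⟩ := m2
    have c1 := (hr e x).2.2 g hg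
    have c2 := (hr e y).2.2 g' hg'
    simp only at eg eg'
    rw [eg', ← eg] at c2
    have := inj x g (gsT _ (l1 e x) x g hg) (r e x) (hr e x).1 (le_antisymm c2 c1)
    show r e y • y = r e x • x
    rw [← eg, this]
  refine ⟨fun i x => r (w i x) x, fun i => IsLoc.dep (Finset.Icc 1 N) (wL i) (fun x => (hw i x).1)
    (f := r) fun e _ => rL e, fun i x => (hr _ x).1, fun i hi x => ?_, fun x => ?_⟩
  · refine (Set.ncard_le_ncard ?_ ?_).trans ((key x).1 i hi)
    · rintro _ ⟨u, hu, rfl⟩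
      exact ⟨u • x, ⟨u, mem_ball_one hu, rfl⟩, rfl⟩
    · exact (((isNear V).fin 1 x).image fun y => r (w i y) y • y).subset
        fun _ ⟨y, hy, e⟩ => ⟨y, hy, e.symm⟩
  · refine (Set.ncard_le_ncard ?_ ?_).trans (key x).2
    · rintro i ⟨hi, u, hu, hne⟩
      exact ⟨hi, u • x, ⟨u, mem_ball_one hu, rfl⟩, hne⟩
    · exact (Set.finite_lt_nat H).subset fun i hi => hi.1

end Pool.Agent.Lib.MP_5ddd96_lc.W5
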