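import Pool.Agent.Lib.MP_5ddd96_lc.W5.Basic

/-!
General position: one local map whose transports are constant on small balls almost always.
-/

set_option autoImplicit false

namespace Pool.Agent.Lib.MP_5ddd96_lc.W5

open Pointwise Pool.Agent.Lib.MP_5ddd96_lc.H74

namespace GenAux

theorem mem5 {Q : Type} [Group Q] {V : Finset Q} {a b c d e : Q} (ha : a ∈ V) (hb : b ∈ V)
    (hc : c ∈ V) (hd : d ∈ V) (he : e ∈ V) : a * b * c * d * e ∈ (V : Set Q) ^ 5 := by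
  rw [show (V : Set Q) ^ 5 = (V : Set Q) * V * V * V * V by
    simp only [pow_succ, pow_zero, one_mul]]
  exact Set.mul_mem_mul (Set.mul_mem_mul (Set.mul_mem_mul (Set.mul_mem_mul ha hb) hc) hd) he

theorem mem3 {Q : Type} [Group Q] [DecidableEq Q] {V : Finset Q} {w : Q} :
    w ∈ V * V * V ↔ ∃ a ∈ V, ∃ b ∈ V, ∃ c ∈ V, a * b * c = w := by
  constructor
  · intro h
    obtain ⟨u, hu, c, hc, rfl⟩ := Finset.mem_mul.1 h
    obtain ⟨a, ha, b, hb, rfl⟩ := Finset.mem_mul.1 hu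
    exact ⟨a, ha, b, hb, c, hc, rfl⟩
  · rintro ⟨a, ha, b, hb, c, hc, rfl⟩
    exact Finset.mul_mem_mul (Finset.mul_mem_mul ha hb) hc

theorem adm_mono {Q : Type} [Group Q] {Z : Type} [MulAction Q Z] {c : Z → ℕ} {B B' : Finset Q}
    {N : Subgroup Q} (h : Adm c B N) (hB : B' ⊆ B) : Adm c B' N :=
  fun x b hb => h x b (hB hb)

/-- The coarse scale: territories of the same colour are not joined by `Θ` outside `A`. -/
theorem coarse (hNet : stNet) (hCol : stColour) (hPack : stPack) (Q : Type) [Group Q]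
    (A : Subgroup Q) (m : Q → ℕ) (hD : PropD A m) (Θ : Finset Q) (hΘ : ∀ θ ∈ Θ, θ⁻¹ ∈ Θ)
    (E : Finset Q) (hE : ∀ e ∈ E, e ∈ A) :
    ∃ B : Finset Q, ∀ (M : ℕ) (Z : Type) [MulAction Q Z] (c : Z → ℕ), (∀ x, c x < M) →
      Adm c B ⊥ → ∃ O : ℕ → Z → Prop, (∀ i, IsLoc Q c (O i)) ∧
        (∀ i y, ∀ θ ∈ Θ, O i y → O i (θ • y) → θ ∈ A) ∧
        ∀ x, ∃ i, i ≤ ∑ θ ∈ Θ, m θ ∧ ∀ v ∈ E, O i (v • x) := by
  classical
  obtain ⟨V, ⟨h1, hinv, hA⟩, hEV, hm⟩ := hD Θ E hE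
  obtain ⟨W, hW⟩ : ∃ W : Finset Q, W = V * V * V := ⟨_, rfl⟩
  have hWinv : ∀ w ∈ W, w⁻¹ ∈ W := by
    intro w hw
    rw [hW, mem3] at hw ⊢
    obtain ⟨a, ha, b, hb, c, hc, rfl⟩ := hw
    exact ⟨_, hinv c hc, _, hinv b hb, _, hinv a ha, by group⟩
  have hWA : ∀ w ∈ W, w ∈ A := by
    intro w hw
    rw [hW, mem3] at hw
    obtain ⟨a, ha, b, hb, c, hc, rfl⟩ := hw
    exact A.mul_mem (A.mul_mem (hA a ha) (hA b hb)) (hA c hc)
  have hF : ∀ {T : Finset Q} {f : Q}, f ∈ W * T * W ↔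
      ∃ a ∈ W, ∃ θ ∈ T, ∃ b ∈ W, a * θ * b = f := by
    intro T f
    constructor
    · intro h
      obtain ⟨u, hu, c, hc, rfl⟩ := Finset.mem_mul.1 h
      obtain ⟨a, ha, b, hb, rfl⟩ := Finset.mem_mul.1 hu
      exact ⟨a, ha, b, hb, c, hc, rfl⟩
    · rintro ⟨a, ha, b, hb, c, hc, rfl⟩
      exact Finset.mul_mem_mul (Finset.mul_mem_mul ha hb) hc
  refine ⟨V * V ∪ W * Θ * W, fun M Z _ c hc hadm => ?_⟩
  have a1 : ∀ (x : Z), ∀ f ∈ V * V, c (f • x) = c x → f = 1 := fun x f hf h =>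
    Subgroup.mem_bot.1 (hadm x f (Finset.mem_union_left _ hf) h)
  have a2 : ∀ (x : Z), ∀ f ∈ W * Θ * W, c (f • x) = c x → f = 1 := fun x f hf h =>
    Subgroup.mem_bot.1 (hadm x f (Finset.mem_union_right _ hf) h)
  obtain ⟨Y, v, hY, -, hv, hsep⟩ := hNet Q Z (V * V)
    (by simpa using Finset.mul_mem_mul h1 h1)
    (fun f hf => by
      obtain ⟨a, ha, b, hb, rfl⟩ := Finset.mem_mul.1 hf
      rw [mul_inv_rev]
      exact Finset.mul_mem_mul (hinv b hb) (hinv a ha)) M c hc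
  have hfree : ∀ (x : Z), ∀ a ∈ V, ∀ a' ∈ V, a • x = a' • x → a = a' := by
    intro x a ha a' ha' h
    have := a1 x _ (Finset.mul_mem_mul (hinv a' ha') ha) (by rw [mul_smul, h, inv_smul_smul])
    exact (inv_mul_eq_one.1 this).symm
  have hsep' : ∀ y, ∀ a ∈ V, ∀ a' ∈ V, Y y → Y ((a * a') • y) → (a * a') • y = y := by
    intro y a ha a' ha' hy hy'
    have h := Finset.mul_mem_mul ha ha'
    rw [a1 y _ h (hsep y _ h hy hy'), one_smul]
  have hcount : ∀ y, Y y → {z | Y z ∧ ∃ f ∈ W * Θ * W, z = f • y}.ncard ≤ ∑ θ ∈ Θ, m θ := by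
    intro y _
    have e : {z | Y z ∧ ∃ f ∈ W * Θ * W, z = f • y} = ⋃ θ ∈ Θ,
        {z | Y z ∧ ∃ f ∈ ((W * {θ} * W : Finset Q) : Set Q), z = f • y} := by
      ext z
      simp only [Set.mem_iUnion, Set.mem_ofPred_eq, Finset.mem_coe]
      constructor
      · rintro ⟨hz, f, hf, rfl⟩
        obtain ⟨a, ha, θ, hθ, b, hb, rfl⟩ := hF.1 hf
        exact ⟨θ, hθ, hz, _, hF.2 ⟨a, ha, θ, Finset.mem_singleton_self θ, b, hb, rfl⟩, rfl⟩
      · rintro ⟨θ, hθ, hz, f, hf, rfl⟩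
        obtain ⟨a, ha, θ', hθ', b, hb, rfl⟩ := hF.1 hf
        rw [Finset.mem_singleton] at hθ'
        exact ⟨hz, _, hF.2 ⟨a, ha, θ', hθ' ▸ hθ, b, hb, rfl⟩, rfl⟩
    rw [e]
    refine (Finset.set_ncard_biUnion_le Θ _).trans (Finset.sum_le_sum fun θ hθ => ?_)
    have h2 := hPack Q Z V hinv hfree Y hsep' ((W * {θ} * W : Finset Q) : Set Q)
      (Finset.finite_toSet _) y
    have h3 : ((V : Set Q) * ((W * {θ} * W : Finset Q) : Set Q)).ncard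
        ≤ ((V : Set Q) ^ 5 * {θ} * (V : Set Q) ^ 5).ncard := by
      have h5 : ((V : Set Q) ^ 5).Finite := by
        rw [← Finset.coe_pow]; exact Finset.finite_toSet _
      refine Set.ncard_le_ncard ?_ ((h5.mul (Set.finite_singleton θ)).mul h5)
      rintro _ ⟨u, hu, f, hf, rfl⟩
      obtain ⟨a, ha, θ', hθ', b, hb, rfl⟩ := hF.1 (Finset.mem_coe.1 hf)
      rw [Finset.mem_singleton] at hθ'
      rw [hW, mem3] at ha hb
      obtain ⟨a1, ha1, a2, ha2, a3, ha3, rfl⟩ := ha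
      obtain ⟨b1, hb1, b2, hb2, b3, hb3, rfl⟩ := hb
      have e2 : u * (a1 * a2 * a3 * θ' * (b1 * b2 * b3))
          = u * a1 * a2 * a3 * 1 * θ' * (b1 * b2 * b3 * 1 * 1) := by group
      show u * (a1 * a2 * a3 * θ' * (b1 * b2 * b3)) ∈ _
      rw [e2]
      exact Set.mul_mem_mul (Set.mul_mem_mul (mem5 hu ha1 ha2 ha3 h1) hθ')
        (mem5 hb1 hb2 hb3 h1 h1)
    exact Nat.le_of_mul_le_mul_right (h2.trans (h3.trans (hm θ hθ)))
      (Finset.card_pos.2 ⟨1, h1⟩)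
  obtain ⟨χ, hχ, hχm, hχp⟩ := hCol Q Z (W * Θ * W)
    (fun f hf => by
      obtain ⟨a, ha, θ, hθ, b, hb, rfl⟩ := hF.1 hf
      exact hF.2 ⟨_, hWinv b hb, _, hΘ θ hθ, _, hWinv a ha, by group⟩)
    M c hc (fun x f hf h => by rw [a2 x f hf h, one_smul]) Y hY _ hcount
  refine ⟨fun i y => ∃ a ∈ W, Y (a • y) ∧ χ (a • y) = i, fun i => ?_, ?_, fun x => ?_⟩
  · refine (hY.pair hχ).of_nbhd W fun x y h => propext (exists_congr fun a =>
      and_congr_right fun ha => ?_)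
    have := h a ha
    simp only [Prod.mk.injEq] at this
    rw [this.1, this.2]
  · rintro i y θ hθ ⟨a, ha, hy, hi⟩ ⟨a', ha', hy', hi'⟩
    have hf : a' * θ * a⁻¹ ∈ W * Θ * W := hF.2 ⟨a', ha', θ, hθ, _, hWinv a ha, rfl⟩
    have e : (a' * θ * a⁻¹) • a • y = a' • θ • y := by
      rw [mul_smul, mul_smul, inv_smul_smul]
    have h2 := hχp (a • y) _ hf hy (by rwa [e]) (by rw [e, hi, hi'])
    have h3 := a2 (a • y) _ hf (by rw [h2])
    have h4 : θ = a'⁻¹ * a := by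
      rw [eq_inv_mul_iff_mul_eq, ← mul_inv_eq_one]; exact h3
    rw [h4]
    exact A.mul_mem (A.inv_mem (hWA a' ha')) (hWA a ha)
  · refine ⟨χ (v x • x), hχm _, fun u hu => ⟨v x * u⁻¹, ?_, ?_, ?_⟩⟩
    · rw [hW]; exact Finset.mul_mem_mul (hv x).1 (hinv u (hEV hu))
    · rw [mul_smul, inv_smul_smul]; exact (hv x).2
    · rw [mul_smul, inv_smul_smul]

/-- The composite of the first `k` maps. -/
def cmpo {Q : Type} [Group Q] {Z : Type} [MulAction Q Z] (ψ : ℕ → Z → Q) : ℕ → Z → Q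
  | 0, _ => 1
  | k + 1, u => ψ k (cmpo ψ k u • u) * cmpo ψ k u

theorem cmp_tail {Q : Type} [Group Q] {Z : Type} [MulAction Q Z] (ψ : ℕ → Z → Q) {i k : ℕ}
    (h : i ≤ k) : ∃ G : Z → Z, ∀ u, cmpo ψ k u • u = G (cmpo ψ i u • u) := by
  induction k, h using Nat.le_induction with
  | base => exact ⟨id, fun _ => rfl⟩
  | succ k _ ih =>
    obtain ⟨G, hG⟩ := ih
    exact ⟨fun z => ψ k (G z) • G z, fun u => by rw [cmpo, mul_smul, hG]⟩

/-- The ranges of the composites. -/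
def rng {Q : Type} [Group Q] [DecidableEq Q] (I : ℕ → Finset Q) : ℕ → Finset Q
  | 0 => {1}
  | k + 1 => I k * rng I k

theorem rng_mem {Q : Type} [Group Q] [DecidableEq Q] {I : ℕ → Finset Q} {A : Subgroup Q}
    (hI : ∀ k, ∀ g ∈ I k, g ∈ A) (k : ℕ) : ∀ g ∈ rng I k, g ∈ A := by
  induction k with
  | zero => intro g hg; rw [Finset.mem_singleton.1 hg]; exact A.one_mem
  | succ k ih =>
    intro g hg
    obtain ⟨a, ha, b, hb, rfl⟩ := Finset.mem_mul.1 hg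
    exact A.mul_mem (hI k a ha) (ih b hb)

theorem cmp_loc {Q : Type} [Group Q] [DecidableEq Q] {Z : Type} [MulAction Q Z] {c : Z → ℕ}
    {ψ : ℕ → Z → Q} {I : ℕ → Finset Q} {n : ℕ} (h1 : ∀ k, k < n → IsLoc Q c (ψ k))
    (h2 : ∀ k, k < n → ∀ u, ψ k u ∈ I k) (k : ℕ) (hk : k ≤ n) :
    IsLoc Q c (cmpo ψ k) ∧ ∀ u, cmpo ψ k u ∈ rng I k := by
  induction k with
  | zero => exact ⟨IsLoc.const 1, fun _ => Finset.mem_singleton_self 1⟩
  | succ k ih =>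
    obtain ⟨a, b⟩ := ih (by omega)
    exact ⟨((h1 k hk).dshift _ a b).comp₂ a (· * ·),
      fun u => Finset.mul_mem_mul (h2 k hk _) (b u)⟩

end GenAux

open GenAux in
theorem pfGen (hNet : stNet) (hCol : stColour) (hPack : stPack) (hFine : stFine) : stGen := by
  intro Q _ A hN m hD P E hP h1 hE
  classical
  obtain ⟨ι, hι, hinj⟩ : ∃ ι : Q → ℕ, (∀ p ∈ P, ι p < P.card) ∧ Set.InjOn ι P := by
    refine ⟨fun p => if h : p ∈ P then (P.equivFin ⟨p, h⟩ : ℕ) else 0, fun p hp => ?_,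
      fun p hp p' hp' h => ?_⟩
    · simp only [dif_pos hp]; exact (P.equivFin ⟨p, hp⟩).2
    · have hp1 : p ∈ P := hp
      have hp2 : p' ∈ P := hp'
      simp only [dif_pos hp1, dif_pos hp2] at h
      exact congrArg Subtype.val (P.equivFin.injective (Fin.ext h))
  obtain ⟨Θ, hΘ⟩ : ∃ Θ : Finset Q, ∀ θ, θ ∈ Θ ↔ ∃ p ∈ P, ∃ p' ∈ P, p⁻¹ * p' = θ :=
    ⟨Finset.image₂ (fun p p' => p⁻¹ * p') P P, fun θ => Finset.mem_image₂⟩
  choose! Bf Df hDf hf using hFine Q A m hD P.card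
  have hs0 : ∀ F : Finset Q, (∀ e ∈ F, e ∈ A) → ∃ V, SymIn A V ∧ F ⊆ V := fun F h =>
    (hD ∅ F h).imp fun V hV => ⟨hV.1, hV.2.1⟩
  choose! sy hsy1 hsy2 using hs0
  obtain ⟨T, hT⟩ : ∃ T : Finset Q → Finset Q, ∀ V g, g ∈ T V ↔
      g ∈ V ∨ ∃ θ ∈ Θ, ∃ d ∈ Df V, ∃ v ∈ V, θ * d * θ⁻¹ * v = g := by
    refine ⟨fun V => V ∪ (Finset.image₂ (fun θ d => θ * d * θ⁻¹) Θ (Df V)) * V, fun V g => ?_⟩
    rw [Finset.mem_union, Finset.mem_mul]
    refine or_congr_right ⟨?_, ?_⟩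
    · rintro ⟨a, ha, v, hv, rfl⟩
      obtain ⟨θ, hθ, d, hd, rfl⟩ := Finset.mem_image₂.1 ha
      exact ⟨θ, hθ, d, hd, v, hv, rfl⟩
    · rintro ⟨θ, hθ, d, hd, v, hv, rfl⟩
      exact ⟨_, Finset.mem_image₂.2 ⟨θ, hθ, d, hd, rfl⟩, v, hv, rfl⟩
  have hTA : ∀ V, SymIn A V → ∀ g ∈ T V, g ∈ A := by
    intro V hV g hg
    rcases (hT V g).1 hg with h | ⟨θ, -, d, hd, v, hv, rfl⟩
    · exact hV.2.2 g h
    · exact A.mul_mem (hN.conj_mem d (hDf V hV d hd) θ) (hV.2.2 v hv)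
  obtain ⟨V, hV0, hVs⟩ : ∃ V : ℕ → Finset Q, V 0 = sy E ∧ ∀ i, V (i + 1) = sy (T (V i)) :=
    ⟨fun i => Nat.rec (sy E) (fun _ V => sy (T V)) i, rfl, fun _ => rfl⟩
  have hV : ∀ i, SymIn A (V i) := by
    intro i
    induction i with
    | zero => rw [hV0]; exact hsy1 E hE
    | succ i ih => rw [hVs]; exact hsy1 _ (hTA _ ih)
  have hVT : ∀ i, T (V i) ⊆ V (i + 1) := fun i => by rw [hVs]; exact hsy2 _ (hTA _ (hV i))
  have hmono : Monotone V := monotone_nat_of_le_succ fun i g hg => hVT i ((hT _ g).2 (Or.inl hg))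
  obtain ⟨n, hn⟩ : ∃ n, n = ∑ θ ∈ Θ, m θ + 1 := ⟨_, rfl⟩
  obtain ⟨B2, hB2⟩ := coarse hNet hCol hPack Q A m hD Θ
    (fun θ hθ => by
      obtain ⟨p, hp, p', hp', rfl⟩ := (hΘ θ).1 hθ
      exact (hΘ _).2 ⟨p', hp', p, hp, by group⟩) (V n) (hV n).2.2
  obtain ⟨I, hI⟩ : ∃ I : ℕ → Finset Q, ∀ k g, g ∈ I k ↔
      g = 1 ∨ ∃ p ∈ P, ∃ d ∈ Df (V k), p * d * p⁻¹ = g :=
    ⟨fun k => insert 1 (Finset.image₂ (fun p d => p * d * p⁻¹) P (Df (V k))), fun k g => by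
      rw [Finset.mem_insert, Finset.mem_image₂]⟩
  refine ⟨B2 ∪ (Finset.range n).biUnion fun i => Bf (V i), rng I n, rng_mem (fun k g hg => ?_) n,
    fun M Z _ c hc hadm => ?_⟩
  · rcases (hI k g).1 hg with rfl | ⟨p, -, d, hd, rfl⟩
    · exact A.one_mem
    · exact hN.conj_mem d (hDf _ (hV k) d hd) p
  obtain ⟨O, hO1, hO2, hO3⟩ := hB2 M Z c hc (adm_mono hadm Finset.subset_union_left)
  have hμ0 := fun i (hi : i < n) => hf (V i) (hV i) M Z c hc (adm_mono hadm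
    ((Finset.subset_biUnion_of_mem (fun i => Bf (V i)) (Finset.mem_range.2 hi)).trans
      Finset.subset_union_right))
  choose! μ hμ1 hμ2 hμ3 hμ4 using hμ0
  have hψ0 : ∀ k, k < n → ∃ ψ : Z → Q, IsLoc Q c ψ ∧ ∀ u, ψ u ∈ I k ∧
      ∀ p ∈ P, O k (p⁻¹ • u) → ψ u = p * μ k (ι p) (p⁻¹ • u) * p⁻¹ := by
    intro k hk
    refine IsLoc.choice (I k)
      (P := fun g u => ∀ p ∈ P, O k (p⁻¹ • u) → g = p * μ k (ι p) (p⁻¹ • u) * p⁻¹)
      (fun g _ => ?_) fun u => ?_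
    · refine IsLoc.of_fin P (f := fun p u => (O k (p⁻¹ • u), μ k (ι p) (p⁻¹ • u)))
        (fun p _ => ((hO1 k).pair (hμ1 k hk _)).shift p⁻¹) fun x y h =>
          propext (forall_congr' fun p => forall_congr' fun hp => ?_)
      have := h p hp
      simp only [Prod.mk.injEq] at this
      rw [this.1, this.2]
    · by_cases h : ∃ p ∈ P, O k (p⁻¹ • u)
      · obtain ⟨p, hp, ho⟩ := h
        refine ⟨_, (hI k _).2 (Or.inr ⟨p, hp, _, hμ2 k hk (ι p) (p⁻¹ • u), rfl⟩),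
          fun p' hp' ho' => ?_⟩
        have := hO2 k _ (p'⁻¹ * p) ((hΘ _).2 ⟨p', hp', p, hp, rfl⟩) ho
          (by rwa [mul_smul, smul_inv_smul])
        rw [hP p' hp' p hp this]
      · exact ⟨1, (hI k 1).2 (Or.inl rfl), fun p hp ho => absurd ⟨p, hp, ho⟩ h⟩
  choose! ψ hψ1 hψ2 using hψ0
  obtain ⟨hl, hr⟩ := cmp_loc hψ1 (fun k hk u => (hψ2 k hk u).1) n le_rfl
  have hstep : ∀ (x : Z), ∀ p ∈ P, ∀ e ∈ E, ∀ i, i ≤ n →
      ∃ v ∈ V i, cmpo ψ i (p • e • x) • p • e • x = p • v • x := by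
    intro x p hp e he i
    induction i with
    | zero => exact fun _ => ⟨e, hV0 ▸ hsy2 E hE he, one_smul _ _⟩
    | succ i ih =>
      intro hi
      obtain ⟨v, hv, h⟩ := ih (by omega)
      rw [cmpo, mul_smul, h]
      rcases (hI i _).1 (hψ2 i hi (p • v • x)).1 with h2 | ⟨p', hp', d, hd, h2⟩
      · exact ⟨v, hmono (Nat.le_succ i) hv, by rw [h2, one_smul]⟩
      · refine ⟨_, hVT i ((hT _ _).2 (Or.inr
          ⟨p⁻¹ * p', (hΘ _).2 ⟨p, hp, p', hp', rfl⟩, d, hd, v, hv, rfl⟩)), ?_⟩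
        rw [← h2]
        simp only [← mul_smul]
        congr 1
        group
  have key : ∀ x : Z, ∃ i, i < n ∧ ∃ G : Z → Z, ∀ p ∈ P, ∀ e ∈ E, ∃ v ∈ V i,
      cmpo ψ n (p • e • x) • p • e • x = G (p • μ i (ι p) (v • x) • v • x) := by
    intro x
    obtain ⟨i, hi, ho⟩ := hO3 x
    have hi' : i < n := by omega
    obtain ⟨G, hG⟩ := cmp_tail ψ (show i + 1 ≤ n from hi')
    refine ⟨i, hi', G, fun p hp e he => ?_⟩
    obtain ⟨v, hv, h⟩ := hstep x p hp e he i hi'.le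
    refine ⟨v, hv, ?_⟩
    rw [hG, cmpo, mul_smul, h, (hψ2 i hi' (p • v • x)).2 p hp
      (by rw [inv_smul_smul]; exact ho v (hmono hi'.le hv)), inv_smul_smul, mul_smul, mul_smul,
      inv_smul_smul]
  refine ⟨cmpo ψ n, hl, hr, fun x p hp => ?_, fun x => ?_⟩
  · obtain ⟨i, hi, G, hG⟩ := key x
    have hfin : {z | ∃ v ∈ V i, z = μ i (ι p) (v • x) • v • x}.Finite :=
      ((V i).finite_toSet.image fun v => μ i (ι p) (v • x) • v • x).subset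
        fun z ⟨v, hv, h⟩ => ⟨v, hv, h.symm⟩
    refine le_trans ?_ (hμ3 i hi (ι p) (hι p hp) x)
    refine le_trans (Set.ncard_le_ncard ?_ (hfin.image fun z => G (p • z)))
      (Set.ncard_image_le hfin)
    rintro z ⟨e, he, rfl⟩
    obtain ⟨v, hv, h⟩ := hG p hp e he
    exact ⟨_, ⟨v, hv, rfl⟩, h.symm⟩
  · obtain ⟨i, hi, G, hG⟩ := key x
    refine le_trans ?_ (hμ4 i hi x)
    refine Set.ncard_le_ncard_of_injOn ι ?_ (hinj.mono fun p hp => hp.1)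
      ((Set.finite_lt_nat P.card).subset fun j hj => hj.1)
    rintro p ⟨hp, e, he, hne⟩
    refine ⟨hι p hp, ?_⟩
    by_contra hcon
    push Not at hcon
    obtain ⟨v, hv, h⟩ := hG p hp e he
    obtain ⟨v', hv', h'⟩ := hG p hp 1 h1
    rw [one_smul] at h'
    exact hne (by rw [h, h', hcon v hv, hcon v' hv'])

end Pool.Agent.Lib.MP_5ddd96_lc.W5
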