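import Pool.Agent.Lib.MP_5ddd96_lc.W5.Basic

/-!
The level lemma.
-/

set_option autoImplicit false

namespace Pool.Agent.Lib.MP_5ddd96_lc.W5

open Pointwise Pool.Agent.Lib.MP_5ddd96_lc.H74

namespace LevelAux

variable {Z : Type} {nr : ℕ → Z → Z → Prop} (h : IsNear nr) (lab : Z → Z) (L : ℕ)

theorem tau_le (e : ℕ) (x : Z) : tau nr lab L e x ≤ L := Nat.sInf_le (Or.inl le_rfl)

theorem tau_mem (e : ℕ) (x : Z) :
    L ≤ tau nr lab L e x ∨ e ≤ (Lev nr lab (tau nr lab L e x) x).ncard :=
  Nat.sInf_mem (s := {t | L ≤ t ∨ e ≤ (Lev nr lab t x).ncard}) ⟨L, Or.inl le_rfl⟩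

theorem tau_le_of {e t : ℕ} {x : Z} (ht : e ≤ (Lev nr lab t x).ncard) : tau nr lab L e x ≤ t :=
  Nat.sInf_le (Or.inr ht)

include h

theorem fin (t : ℕ) (x : Z) : (Lev nr lab t x).Finite := (h.fin t x).image lab

theorem sub {r t s : ℕ} {x y : Z} (hxy : nr r x y) (hs : r + t ≤ s) :
    Lev nr lab t y ⊆ Lev nr lab s x :=
  Set.image_mono fun _ hz => h.mono hs (h.trans hxy hz)

theorem card_le {r t s : ℕ} {x y : Z} (hxy : nr r x y) (hs : r + t ≤ s) :
    (Lev nr lab t y).ncard ≤ (Lev nr lab s x).ncard :=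
  Set.ncard_le_ncard (sub h lab hxy hs) (fin h lab s x)

theorem one_le (t : ℕ) (x : Z) : 1 ≤ (Lev nr lab t x).ncard :=
  (Set.ncard_pos (fin h lab t x)).2 ⟨lab x, x, h.refl t x, rfl⟩

theorem lip (e : ℕ) {r : ℕ} {x y : Z} (hxy : nr r x y) :
    tau nr lab L e x ≤ tau nr lab L e y + r := by
  rcases tau_mem (nr := nr) lab L e y with h1 | h1
  · exact (tau_le lab L e x).trans (h1.trans (Nat.le_add_right _ _))
  · exact tau_le_of lab L (h1.trans (card_le h lab hxy (Nat.add_comm _ _).le))

end LevelAux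

open LevelAux in
theorem pfLevel : stLevel := by
  intro Z nr h lab L
  refine ⟨tau_le lab L, fun e r x y hxy => ?_, fun N k x hN hk => ?_, fun e r x y hxy hr => ?_⟩
  · have h1 := lip h lab L (e + 1) hxy
    have h2 := lip h lab L e (h.symm hxy)
    unfold sc
    omega
  · by_contra hc
    have key : ∀ j, j ≤ N → tau nr lab L (j + 1) x + j ≤ j * k := by
      intro j
      induction j with
      | zero =>
        intro _
        have := tau_le_of lab L (one_le h lab 0 x)
        simpa using this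
      | succ j ih =>
        intro hj
        have h1 := ih (by omega)
        have h2 : ¬ k ≤ sc nr lab L (j + 1) x := fun h2 => hc ⟨j + 1, by omega, hj, h2⟩
        unfold sc at h2
        rw [Nat.succ_mul]
        omega
    have h1 := key N le_rfl
    have h2 := one_le h lab L x
    have h3 := tau_le (nr := nr) lab L (N + 1) x
    have h4 := card_le h lab (h.refl 0 x) (t := tau nr lab L (N + 1) x) (s := L) (by omega)
    rcases tau_mem (nr := nr) lab L (N + 1) x with h5 | h5 <;> omega
  · unfold sc at hr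
    have h1 := tau_le (nr := nr) lab L (e + 1) x
    have h2 := lip h lab L e (h.symm hxy)
    have h3 : (Lev nr lab (tau nr lab L e x + 2 * r) x).ncard ≤ e := by
      by_contra hc
      have := tau_le_of lab L (e := e + 1) (not_le.1 hc)
      omega
    have h4 := (tau_mem (nr := nr) lab L e x).resolve_left (by omega)
    have h5 := (tau_mem (nr := nr) lab L e y).resolve_left (by omega)
    rw [Set.eq_of_subset_of_ncard_le (sub h lab hxy (by omega)) (h3.trans h5) (fin h lab _ x),
      Set.eq_of_subset_of_ncard_le (sub h lab (h.refl 0 x) (by omega)) (h3.trans h4)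
        (fin h lab _ x)]

end Pool.Agent.Lib.MP_5ddd96_lc.W5
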