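import Pool.Agent.Lib.MP_5ddd96_lc.W5.Basic

/-!
One colour reduction step.
-/

set_option autoImplicit false

namespace Pool.Agent.Lib.MP_5ddd96_lc.W5

open Pointwise Pool.Agent.Lib.MP_5ddd96_lc.H74

namespace LinialAux

open Classical in
/-- a bit position where the two numbers differ, with the bit of the first number -/
noncomputable def dif (L a b : ℕ) : Option (Fin L × Bool) :=
  if h : ∃ i : Fin L, a.testBit i ≠ b.testBit i then some (h.choose, a.testBit h.choose) else none

theorem dif_snd {L a b : ℕ} {x : Fin L × Bool} (h : dif L a b = some x) :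
    x.2 = a.testBit x.1 := by
  unfold dif at h
  split_ifs at h with h1
  obtain rfl := Option.some.inj h
  rfl

theorem dif_ne {L a b : ℕ} (ha : a < 2 ^ L) (hb : b < 2 ^ L) (hne : a ≠ b) :
    ∃ x, dif L a b = some x ∧ x.2 ≠ b.testBit x.1 := by
  have h : ∃ i : Fin L, a.testBit i ≠ b.testBit i := by
    by_contra h
    push Not at h
    refine hne (Nat.eq_of_testBit_eq fun i => ?_)
    by_cases hi : i < L
    · exact h ⟨i, hi⟩
    · have h2 : 2 ^ L ≤ 2 ^ i := Nat.pow_le_pow_right (by norm_num) (by omega)
      rw [Nat.testBit_lt_two_pow (ha.trans_le h2), Nat.testBit_lt_two_pow (hb.trans_le h2)]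
  exact ⟨_, dif_pos h, h.choose_spec⟩

/-- a finite set listed as a function -/
noncomputable def code {X : Type} (d : ℕ) (T : Finset (Option X)) (j : Fin d) : Option X :=
  T.toList.getD j none

theorem code_mem {X : Type} {d : ℕ} {T : Finset (Option X)} {j : Fin d} {x : X}
    (h : code d T j = some x) : some x ∈ T := by
  unfold code at h
  by_cases hj : (j : ℕ) < T.toList.length
  · rw [List.getD_eq_getElem _ _ hj] at h
    rw [← Finset.mem_toList, ← h]
    exact List.getElem_mem hj
  · rw [List.getD_eq_default _ _ (not_lt.1 hj)] at h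
    exact absurd h (by simp)

theorem code_ex {X : Type} {d : ℕ} {T : Finset (Option X)} (hT : T.card ≤ d) {x : Option X}
    (h : x ∈ T) : ∃ j, code d T j = x := by
  obtain ⟨j, hj, e⟩ := List.getElem_of_mem (Finset.mem_toList.2 h)
  refine ⟨⟨j, hj.trans_le (by rwa [Finset.length_toList])⟩, ?_⟩
  rw [code, List.getD_eq_getElem _ _ hj, e]

end LinialAux

open LinialAux in
theorem pfLinial : stLinial := by
  intro L d
  refine ⟨fun a A => Fintype.equivFin (Fin d → Option (Fin L × Bool))
    (code d (A.image (dif L a))), fun a A => ?_, fun a b A A' ha hb hA _ h hbA => ?_⟩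
  · refine (Fin.is_lt _).trans_eq ?_
    simp [mul_comm]
  · by_contra hne
    obtain ⟨x, hx, hx'⟩ := dif_ne ha hb hne
    have e := (Fintype.equivFin _).injective (Fin.ext h)
    obtain ⟨j, hj⟩ := code_ex (Finset.card_image_le.trans hA)
      (Finset.mem_image_of_mem (dif L a) hbA)
    rw [e, hx] at hj
    obtain ⟨b', -, hb'⟩ := Finset.mem_image.1 (code_mem hj)
    exact hx' (dif_snd hb')

end Pool.Agent.Lib.MP_5ddd96_lc.W5
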