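import Pool.Agent.Lib.MP_5ddd96_lc.W5.Basic

/-!
The family of maps of the union theorem exists and is definable.
-/

set_option autoImplicit false

namespace Pool.Agent.Lib.MP_5ddd96_lc.W5

open Pointwise Pool.Agent.Lib.MP_5ddd96_lc.H74

namespace MuAux

/-- The word reached after `k` steps read from the table `t`. -/
def ww (t : B) (n j : ℕ) (l : List ℕ) : ℕ → List ℕ
  | 0 => l
  | k + 1 => ww t n j l k ++ wrd (t (pos n (j + k) (ww t n j l k)))

/-- The word reached after all steps. -/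
def fw (t : B) (n j : ℕ) (l : List ℕ) : List ℕ := ww t n j l (n - j)

theorem ww_congr {t t' : B} {n : ℕ} (h : ∀ i l, t (pos n i l) = t' (pos n i l)) (j : ℕ)
    (l : List ℕ) (k : ℕ) : ww t n j l k = ww t' n j l k := by
  induction k with
  | zero => rfl
  | succ k ih => simp only [ww, ih, h]

variable (g : ℕ → Equiv.Perm B)

/-- The maps read from a family of codes. -/
def mu (F : ℕ × ℕ → B → ℕ) (n j : ℕ) (x : B) : B := act g x (wrd (F (n, j) x))

theorem act_ww (F : ℕ × ℕ → B → ℕ) (x : B) (n j : ℕ) (l : List ℕ) (k : ℕ) :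
    act g x (ww (tab g F x) n j l k) = it (mu g F) n j k (act g x l) := by
  induction k with
  | zero => rfl
  | succ k ih => simp only [ww, it, act_append, tab_pos, ih, mu]

theorem act_fw (F : ℕ × ℕ → B → ℕ) (x : B) (n j : ℕ) (l : List ℕ) :
    act g x (fw (tab g F x) n j l) = ff (mu g F) n j (act g x l) := act_ww g F x n j l _

/-- The stage `m` is active at the point reached by the word `l`. -/
def actv (x t : B) (j D : ℕ) (l : List ℕ) (m : ℕ) : Prop :=
  ∃ v : List ℕ, (lev j v ∧ v.length ≤ 2 * D) ∧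
    ¬ act g x (fw t m (j + 1) (l ++ v)) = act g x (fw t m (j + 1) l)

open Classical in
/-- The number of active stages, read from the table. -/
noncomputable def iot (x t : B) (n j D : ℕ) (l : List ℕ) : ℕ :=
  ((Finset.range n).filter (fun m => actv g x t j D l m)).card

open Classical in
theorem iot_congr {t t' : B} {n : ℕ} (h : ∀ m i l, m < n → t (pos m i l) = t' (pos m i l))
    (x : B) (j D : ℕ) (l : List ℕ) : iot g x t n j D l = iot g x t' n j D l := by
  unfold iot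
  refine congrArg Finset.card (Finset.filter_congr fun m hm => ?_)
  have e : ∀ u, fw t m (j + 1) u = fw t' m (j + 1) u := fun u =>
    ww_congr (fun i l => h m i l (Finset.mem_range.1 hm)) _ _ _
  simp only [actv, e]

open Classical in
theorem iot_tab (F : ℕ × ℕ → B → ℕ) (x : B) (n j D : ℕ) (l : List ℕ) :
    iot g x (tab g F x) n j D l = io (nrr g j) D (mu g F) n j (act g x l) := by
  unfold iot io
  refine congrArg Finset.card (Finset.filter_congr fun m _ => ?_)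
  simp only [actv, act_fw, act_append]
  constructor
  · rintro ⟨v, ⟨h1, h2⟩, h3⟩
    exact ⟨_, ⟨v, h1, h2, rfl⟩, h3⟩
  · rintro ⟨y, ⟨v, h1, h2, rfl⟩, h3⟩
    exact ⟨v, ⟨h1, h2⟩, h3⟩

variable (N a D : ℕ → B → ℕ) (s : ℕ × ℕ → B → ℕ) (rw : ℕ × ℕ → B → List ℕ)

/-- The score of the colour `e`. -/
noncomputable def scr (x t : B) (n j e : ℕ) : ℕ :=
  s (j, e) x + wt (N (j + 1) x) (a j x) j (iot g x t n j (D j x) (rw (j, e) x)) e

/-- The colour `e` has the largest score. -/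
def isw (x t : B) (n j e : ℕ) : Prop :=
  (1 ≤ e ∧ e ≤ N j x) ∧ ∀ e', (1 ≤ e' ∧ e' ≤ N j x) →
    scr g N a D s rw x t n j e' ≤ scr g N a D s rw x t n j e

/-- The least colour with the largest score. -/
noncomputable def win (x t : B) (n j : ℕ) : ℕ := sInf {e | isw g N a D s rw x t n j e}

/-- The step of the recursion. -/
noncomputable def stp (q : ℕ × ℕ) (x t : B) : ℕ :=
  Encodable.encode (rw (q.2, win g N a D s rw x t q.1 q.2) x)

theorem stp_congr (n j : ℕ) (x t t' : B)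
    (h : ∀ m i l, m < n → t (pos m i l) = t' (pos m i l)) :
    stp g N a D s rw (n, j) x t = stp g N a D s rw (n, j) x t' := by
  have e : ∀ e, scr g N a D s rw x t n j e = scr g N a D s rw x t' n j e := fun e => by
    unfold scr; rw [iot_congr g h]
  simp only [stp, win, isw, e]

theorem win_spec (x t : B) (n j : ℕ) (h : 1 ≤ N j x) :
    isw g N a D s rw x t n j (win g N a D s rw x t n j) := by
  obtain ⟨e, h1, h2, h3⟩ := exists_win (N j x) h (scr g N a D s rw x t n j)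
  exact Nat.sInf_mem (s := {e | isw g N a D s rw x t n j e})
    ⟨e, ⟨h1, h2⟩, fun e' he => h3 e' he.1 he.2⟩

variable {g N a D s rw} {o : B}

theorem pos_prim : Primrec (fun p : ℕ × ℕ × List ℕ => pos p.1 p.2.1 p.2.2) :=
  Primrec₂.natPair.comp (Primrec₂.natPair.comp Primrec.fst (Primrec.fst.comp Primrec.snd))
    (Primrec.encode.comp (Primrec.snd.comp Primrec.snd))

theorem sf_ww :
    SF o (fun (p : (ℕ × ℕ × List ℕ) × ℕ) t => ww t p.1.1 p.1.2.1 p.1.2.2 p.2) := by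
  have hp : Computable (fun q : (ℕ × ℕ × List ℕ) × ℕ × List ℕ =>
      pos q.1.1 (q.1.2.1 + q.2.1) q.2.2) :=
    (pos_prim.comp ((Primrec.fst.comp Primrec.fst).pair
      ((Primrec.nat_add.comp (Primrec.fst.comp (Primrec.snd.comp Primrec.fst))
        (Primrec.fst.comp Primrec.snd)).pair (Primrec.snd.comp Primrec.snd)))).to_comp
  have hS : SF o (fun (q : (ℕ × ℕ × List ℕ) × ℕ × List ℕ) (t : B) =>
      q.2.2 ++ wrd (t (pos q.1.1 (q.1.2.1 + q.2.1) q.2.2))) :=
    SF.map₂ Primrec.list_append (SF.const (Computable.snd.comp Computable.snd))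
      (SF.map wrd_comp (SF.coord (SF.const hp)))
  have h := SF.nrec (o := o) (F := fun (p : ℕ × ℕ × List ℕ) _ => p.2.2)
    (SF.const (Computable.snd.comp Computable.snd)) hS
  refine h.of_eq fun p t => ?_
  induction p.2 with
  | zero => rfl
  | succ k ih => simp only [ww, ih]

theorem sf_fw : SF o (fun (p : ℕ × ℕ × List ℕ) t => fw t p.1 p.2.1 p.2.2) :=
  sf_ww.par (b := fun p : ℕ × ℕ × List ℕ => (p, p.1 - p.2.1))
    (Computable.id.pair (Primrec.nat_sub.comp Primrec.fst (Primrec.fst.comp Primrec.snd)).to_comp)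

theorem pf_fw (hG : PF o (fun i x => g i x)) :
    PF o (fun (p : ℕ × ℕ × List ℕ) w => act g (ev w) (fw (od w) p.1 p.2.1 p.2.2)) :=
  PF.app (F := fun (l : List ℕ) w => act g (ev w) l) ((pf_act hG).comp PF.ev)
    (sf_fw.comp PF.od)

theorem del_lev : Del o (fun (p : ℕ × List ℕ) _ => lev p.1 p.2) := by
  have h : Del o (fun (q : (ℕ × List ℕ) × ℕ) _ =>
      q.2 < q.1.2.length → q.1.2.getD q.2 0 < 2 * q.1.1) :=
    (Del.const (Primrec.nat_lt.comp Primrec.snd
      (Primrec.list_length.comp (Primrec.snd.comp Primrec.fst)))).imp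
    (Del.const (Primrec.nat_lt.comp
      ((Primrec.list_getD 0).comp (Primrec.snd.comp Primrec.fst) Primrec.snd)
      (pmul2.comp (Primrec.fst.comp Primrec.fst))))
  refine h.all.of_iff fun p _ => ⟨fun H i hi => H _ ?_, fun H b hb => ?_⟩
  · rw [List.getD_eq_getElem _ _ hi]; exact List.getElem_mem hi
  · obtain ⟨i, hi, rfl⟩ := List.getElem_of_mem hb
    have := H i hi
    rwa [List.getD_eq_getElem _ _ hi] at this

theorem del_actv (hG : PF o (fun i x => g i x)) :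
    Del o (fun (p : (ℕ × ℕ × List ℕ) × ℕ) w =>
      actv g (ev w) (od w) p.1.1 p.1.2.1 p.1.2.2 p.2) := by
  have j0 : Primrec (fun q : ((ℕ × ℕ × List ℕ) × ℕ) × List ℕ => q.1.1.1) :=
    Primrec.fst.comp (Primrec.fst.comp Primrec.fst)
  have d0 : Primrec (fun q : ((ℕ × ℕ × List ℕ) × ℕ) × List ℕ => q.1.1.2.1) :=
    Primrec.fst.comp (Primrec.snd.comp (Primrec.fst.comp Primrec.fst))
  have l0 : Primrec (fun q : ((ℕ × ℕ × List ℕ) × ℕ) × List ℕ => q.1.1.2.2) :=
    Primrec.snd.comp (Primrec.snd.comp (Primrec.fst.comp Primrec.fst))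
  have m0 : Primrec (fun q : ((ℕ × ℕ × List ℕ) × ℕ) × List ℕ => q.1.2) :=
    Primrec.snd.comp Primrec.fst
  have h1 : Del o (fun (q : ((ℕ × ℕ × List ℕ) × ℕ) × List ℕ) _ => lev q.1.1.1 q.2) :=
    del_lev.par (b := fun q : ((ℕ × ℕ × List ℕ) × ℕ) × List ℕ => (q.1.1.1, q.2))
      (j0.pair Primrec.snd).to_comp
  have h2 : Del o (fun (q : ((ℕ × ℕ × List ℕ) × ℕ) × List ℕ) _ =>
      q.2.length ≤ 2 * q.1.1.2.1) :=
    Del.const (Primrec.nat_le.comp (Primrec.list_length.comp Primrec.snd) (pmul2.comp d0))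
  have h3 : PF o (fun (q : ((ℕ × ℕ × List ℕ) × ℕ) × List ℕ) w =>
      act g (ev w) (fw (od w) q.1.2 (q.1.1.1 + 1) (q.1.1.2.2 ++ q.2))) :=
    (pf_fw hG).par (b := fun q : ((ℕ × ℕ × List ℕ) × ℕ) × List ℕ =>
      (q.1.2, q.1.1.1 + 1, q.1.1.2.2 ++ q.2))
      (m0.pair ((Primrec.succ.comp j0).pair (Primrec.list_append.comp l0 Primrec.snd))).to_comp
  have h4 : PF o (fun (q : ((ℕ × ℕ × List ℕ) × ℕ) × List ℕ) w =>
      act g (ev w) (fw (od w) q.1.2 (q.1.1.1 + 1) q.1.1.2.2)) :=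
    (pf_fw hG).par (b := fun q : ((ℕ × ℕ × List ℕ) × ℕ) × List ℕ =>
      (q.1.2, q.1.1.1 + 1, q.1.1.2.2))
      (m0.pair ((Primrec.succ.comp j0).pair l0)).to_comp
  exact ((h1.and h2).and (Del.eqB h3 h4).not).ex

theorem sf_iot (hG : PF o (fun i x => g i x)) :
    SF o (fun (p : ℕ × ℕ × ℕ × List ℕ) w => iot g (ev w) (od w) p.1 p.2.1 p.2.2.1 p.2.2.2) := by
  have h1 : Del o (fun (q : (ℕ × ℕ × ℕ × List ℕ) × ℕ) w =>
      actv g (ev w) (od w) q.1.2.1 q.1.2.2.1 q.1.2.2.2 q.2) :=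
    (del_actv hG).par (b := fun q : (ℕ × ℕ × ℕ × List ℕ) × ℕ => (q.1.2, q.2))
      ((Computable.snd.comp Computable.fst).pair Computable.snd)
  exact (SF.count h1 (SF.const Computable.fst)).of_eq fun p w => rfl

theorem sf_scr (hG : PF o (fun i x => g i x)) (hN : SF o N) (ha : SF o a) (hD : SF o D)
    (hs : SF o s) (hrw : SF o rw) :
    SF o (fun (p : (ℕ × ℕ) × ℕ) w => scr g N a D s rw (ev w) (od w) p.1.1 p.1.2 p.2) := by
  have j0 : Computable (fun p : (ℕ × ℕ) × ℕ => p.1.2) := Computable.snd.comp Computable.fst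
  have n0 : Computable (fun p : (ℕ × ℕ) × ℕ => p.1.1) := Computable.fst.comp Computable.fst
  have je : Computable (fun p : (ℕ × ℕ) × ℕ => (p.1.2, p.2)) := j0.pair Computable.snd
  have s1 : SF o (fun (p : (ℕ × ℕ) × ℕ) w => s (p.1.2, p.2) (ev w)) := (hs.par je).ev
  have r1 : SF o (fun (p : (ℕ × ℕ) × ℕ) w => rw (p.1.2, p.2) (ev w)) := (hrw.par je).ev
  have n1 : SF o (fun (p : (ℕ × ℕ) × ℕ) w => N (p.1.2 + 1) (ev w)) :=
    (hN.par (Computable.succ.comp j0)).ev
  have a1 : SF o (fun (p : (ℕ × ℕ) × ℕ) w => a p.1.2 (ev w)) := (ha.par j0).ev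
  have d1 : SF o (fun (p : (ℕ × ℕ) × ℕ) w => D p.1.2 (ev w)) := (hD.par j0).ev
  have i1 : SF o (fun (p : (ℕ × ℕ) × ℕ) w =>
      iot g (ev w) (od w) p.1.1 p.1.2 (D p.1.2 (ev w)) (rw (p.1.2, p.2) (ev w))) :=
    (sf_iot hG).app (G := fun (p : (ℕ × ℕ) × ℕ) w =>
      (p.1.1, p.1.2, D p.1.2 (ev w), rw (p.1.2, p.2) (ev w)))
      ((SF.const n0).pair ((SF.const j0).pair (d1.pair r1)))
  have w1 := SF.map₂ Primrec.nat_add (SF.map₂ Primrec.nat_mul (sfc 4) a1) (sfc 1)
  have w2 := SF.map₂ Primrec.nat_add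
    (SF.map₂ Primrec.nat_add (SF.map₂ ppow n1 (sfc 2)) (SF.const j0)) (sfc 3)
  exact SF.map₂ Primrec.nat_add s1 (SF.map₂ Primrec.nat_mul (SF.map₂ Primrec.nat_mul w1 i1)
    (SF.map₂ ppow w2 SF.snd))

theorem del_isw (hG : PF o (fun i x => g i x)) (hN : SF o N) (ha : SF o a) (hD : SF o D)
    (hs : SF o s) (hrw : SF o rw) :
    Del o (fun (p : (ℕ × ℕ) × ℕ) w => isw g N a D s rw (ev w) (od w) p.1.1 p.1.2 p.2) := by
  have h0 := sf_scr hG hN ha hD hs hrw
  have h1 : Del o (fun (p : (ℕ × ℕ) × ℕ) w => 1 ≤ p.2 ∧ p.2 ≤ N p.1.2 (ev w)) :=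
    (Del.le (sfc 1) SF.snd).and
      (Del.le SF.snd (hN.par (Computable.snd.comp Computable.fst)).ev)
  have b0 : Computable (fun q : ((ℕ × ℕ) × ℕ) × ℕ => (q.1.1, q.2)) :=
    (Computable.fst.comp Computable.fst).pair Computable.snd
  have h2 : Del o (fun (q : ((ℕ × ℕ) × ℕ) × ℕ) w => (1 ≤ q.2 ∧ q.2 ≤ N q.1.1.2 (ev w)) →
      scr g N a D s rw (ev w) (od w) q.1.1.1 q.1.1.2 q.2 ≤
        scr g N a D s rw (ev w) (od w) q.1.1.1 q.1.1.2 q.1.2) :=
    (h1.par b0).imp (Del.le (h0.par b0) h0.fst)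
  exact h1.and h2.all

theorem sf_stp (hG : PF o (fun i x => g i x)) (hN : SF o N) (ha : SF o a) (hD : SF o D)
    (hs : SF o s) (hrw : SF o rw) :
    SF o (fun q w => stp g N a D s rw q (ev w) (od w)) := by
  have h1 : SF o (fun (q : ℕ × ℕ) w => win g N a D s rw (ev w) (od w) q.1 q.2) :=
    SF.sInf (del_isw hG hN ha hD hs hrw)
  exact SF.map Computable.encode (SF.app hrw.ev ((SF.const Computable.snd).pair h1))

theorem pf_tab (hG : PF o (fun i x => g i x)) {F : ℕ × ℕ → B → ℕ} (hF : SF o F) :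
    PF o (fun (_ : ℕ) x => tab g F x) := by
  have u : Computable (fun p : ℕ × ℕ => p.2.unpair) := Computable.unpair.comp Computable.snd
  exact SF.comp (hF.par (Computable.unpair.comp (Computable.fst.comp u)))
    ((pf_act hG).par (wrd_comp.comp (Computable.snd.comp u)))

theorem pf_ff (hG : PF o (fun i x => g i x)) {F : ℕ × ℕ → B → ℕ} (hF : SF o F) :
    PF o (fun (n : ℕ) x => ff (mu g F) n 0 x) := by
  have h1 : SF o (fun (n : ℕ) t => fw t n 0 []) :=
    sf_fw.par (b := fun n : ℕ => (n, 0, []))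
      (Computable.id.pair (Computable.const _))
  have h2 : PF o (fun (n : ℕ) x => act g x (fw (tab g F x) n 0 [])) :=
    PF.app (pf_act hG) (h1.comp (pf_tab hG hF))
  refine SF.of_eq h2 fun p x => ?_
  simp only [act_fw, act_nil]

end MuAux

open MuAux in
theorem pfMu (h1 : stOrbRec) : stMu := by
  intro o g hG N a D s rw hN ha hD hs hrw
  obtain ⟨F, hF, hFe⟩ := h1 o g hG (stp g N a D s rw) (sf_stp hG hN ha hD hs hrw)
    (stp_congr g N a D s rw)
  refine ⟨mu g F, pf_ff hG hF, fun n j x hx => ?_⟩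
  obtain ⟨⟨w1, w2⟩, w3⟩ := win_spec g N a D s rw x (tab g F x) n j hx
  refine ⟨_, w1, w2, ?_, fun e' h1 h2 => ?_⟩
  · simp only [mu, hFe, stp, wrd_encode]
  · have := w3 e' ⟨h1, h2⟩
    simpa only [scr, iot_tab] using this

end Pool.Agent.Lib.MP_5ddd96_lc.W5
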