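import Pool.Agent.Lib.MP_5ddd96_lc.W5.Basic

/-!
Greedy nets: a local maximal set of points that are `F`-separated up to colour.
-/

set_option autoImplicit false

namespace Pool.Agent.Lib.MP_5ddd96_lc.W5

open Pointwise Pool.Agent.Lib.MP_5ddd96_lc.H74

namespace NetAux

variable {G : Type} [Group G] {Z : Type} [MulAction G Z]

/-- The points chosen among the colours `< i`. -/
def YY (F : Finset G) (c : Z → ℕ) : ℕ → Z → Prop
  | 0 => fun _ => False
  | i + 1 => fun x => YY F c i x ∨ (c x = i ∧ ∀ f ∈ F, ¬ YY F c i (f • x))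

variable {F : Finset G} {c : Z → ℕ}

theorem loc (i : ℕ) : IsLoc G c (YY F c i) := by
  induction i with
  | zero => exact IsLoc.const False
  | succ i ih =>
    have h1 : IsLoc G c (fun x => ∀ f ∈ F, ¬ YY F c i (f • x)) :=
      ih.of_nbhd F fun x y h =>
        propext (forall_congr' fun f => forall_congr' fun hf => by rw [h f hf])
    exact ih.comp₂ ((IsLoc.self (G := G) (c := c)).comp₂ h1 fun a p => a = i ∧ p)
      fun p q => p ∨ q

theorem mono {i j : ℕ} (h : i ≤ j) {x : Z} (hx : YY F c i x) : YY F c j x := by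
  induction j, h using Nat.le_induction with
  | base => exact hx
  | succ j _ ih => exact Or.inl ih

theorem spec {j : ℕ} {x : Z} (hx : YY F c j x) :
    YY F c (c x + 1) x ∧ ∀ f ∈ F, ¬ YY F c (c x) (f • x) := by
  induction j with
  | zero => exact hx.elim
  | succ j ih =>
    rcases hx with hx | ⟨rfl, hx⟩
    · exact ih hx
    · exact ⟨Or.inr ⟨rfl, hx⟩, hx⟩

end NetAux

open NetAux in
theorem pfNet : stNet := by
  intro G _ Z _ F h1 hF M c hc
  have hex : ∀ x : Z, ∃ f ∈ F, YY F c M (f • x) := by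
    intro x
    by_cases h : ∀ f ∈ F, ¬ YY F c (c x) (f • x)
    · refine ⟨1, h1, ?_⟩
      rw [one_smul]
      exact mono (i := c x + 1) (hc x) (Or.inr ⟨rfl, h⟩)
    · by_contra hn
      exact h fun f hf hy => hn ⟨f, hf, mono (hc x).le hy⟩
  obtain ⟨v, hv, hv'⟩ := IsLoc.choice (G := G) (c := c) F (P := fun f x => YY F c M (f • x))
    (fun f _ => (loc M).shift f) hex
  refine ⟨YY F c M, v, loc M, hv, hv', fun y f hf hy hfy => ?_⟩
  rcases lt_trichotomy (c (f • y)) (c y) with h | h | h
  · exact ((spec hy).2 f hf (mono h (spec hfy).1)).elim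
  · exact h
  · refine ((spec hfy).2 f⁻¹ (hF f hf) ?_).elim
    rw [inv_smul_smul]
    exact mono h (spec hy).1

end Pool.Agent.Lib.MP_5ddd96_lc.W5
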