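import Pool.Agent.Lib.MP_5ddd96_lc.W5.Basic

/-!
Recursion over the orbit.
-/

set_option autoImplicit false

namespace Pool.Agent.Lib.MP_5ddd96_lc.W5

open Pointwise Pool.Agent.Lib.MP_5ddd96_lc.H74

namespace OrbRecAux

theorem exists_fix (g : ℕ → Equiv.Perm B) (St : ℕ × ℕ → B → B → ℕ)
    (hS : ∀ n j x t t', (∀ m i l, m < n → t (pos m i l) = t' (pos m i l)) →
      St (n, j) x t = St (n, j) x t') :
    ∃ F : ℕ × ℕ → B → ℕ, ∀ n j x, F (n, j) x = St (n, j) x (tab g F x) := by
  let H : (n : ℕ) → ((m : ℕ) → m < n → ℕ → B → ℕ) → ℕ → B → ℕ := fun n ih j x =>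
    St (n, j) x (fun k => if h : k.unpair.1.unpair.1 < n then
      ih _ h k.unpair.1.unpair.2 (act g x (wrd k.unpair.2)) else 0)
  let F : ℕ → ℕ → B → ℕ := fun n => Nat.lt_wfRel.wf.fix (C := fun _ => ℕ → B → ℕ) H n
  have hF : ∀ n, F n = H n (fun m _ => F m) := fun n => Nat.lt_wfRel.wf.fix_eq H n
  refine ⟨fun q => F q.1 q.2, fun n j x => ?_⟩
  show F n j x = _
  rw [hF n]
  refine hS n j x _ _ fun m i l hm => ?_
  rw [tab_pos]
  simp only [pos, Nat.unpair_pair, wrd_encode, hm, dif_pos]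

theorem pos_comp {γ : Type} [Primcodable γ] {a b : γ → ℕ} {l : γ → List ℕ} (ha : Computable a)
    (hb : Computable b) (hl : Computable l) : Computable (fun c => pos (a c) (b c) (l c)) :=
  Primrec₂.natPair.to_comp.comp (Primrec₂.natPair.to_comp.comp ha hb) (Computable.encode.comp hl)

end OrbRecAux

open OrbRecAux in
theorem pfOrbRec : stOrbRec := by
  intro o g hg St hSt hS
  obtain ⟨F, hF⟩ := exists_fix g St hS
  refine ⟨F, ?_, hF⟩
  refine SF.of_code (R := fun _ x t => ∀ r : (ℕ × ℕ) × List ℕ, t (pos r.1.1 r.1.2 r.2) =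
      St r.1 (act g x r.2)
        (fun k => t (pos k.unpair.1.unpair.1 k.unpair.1.unpair.2 (r.2 ++ wrd k.unpair.2))))
    ?_ (ι := fun q => pos q.1 q.2 [])
    (pos_comp Computable.fst Computable.snd (Computable.const _)) ?_ ?_
  · have c1 : Computable (fun p : (ℕ × ℕ) × (ℕ × ℕ) × List ℕ => p.2.1) :=
      Computable.fst.comp Computable.snd
    have c2 : Computable (fun p : (ℕ × ℕ) × (ℕ × ℕ) × List ℕ => p.2.2) :=
      Computable.snd.comp Computable.snd
    have hA : PF o (fun (p : (ℕ × ℕ) × (ℕ × ℕ) × List ℕ) w => act g (ev w) p.2.2) :=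
      ((pf_act hg).par c2).comp PF.ev
    have u1 : Computable (fun p : ((ℕ × ℕ) × (ℕ × ℕ) × List ℕ) × ℕ => p.2.unpair) :=
      Computable.unpair.comp Computable.snd
    have u2 : Computable (fun p : ((ℕ × ℕ) × (ℕ × ℕ) × List ℕ) × ℕ => p.2.unpair.1.unpair) :=
      Computable.unpair.comp (Computable.fst.comp u1)
    have hT : PF o (fun (p : (ℕ × ℕ) × (ℕ × ℕ) × List ℕ) w => fun k =>
        od w (pos k.unpair.1.unpair.1 k.unpair.1.unpair.2 (p.2.2 ++ wrd k.unpair.2))) :=
      SF.of_eq ((PF.od (α := ((ℕ × ℕ) × (ℕ × ℕ) × List ℕ) × ℕ)).at (SF.const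
        (pos_comp (Computable.fst.comp u2) (Computable.snd.comp u2)
          (Primrec.list_append.to_comp.comp (c2.comp Computable.fst)
            (wrd_comp.comp (Computable.snd.comp u1)))))) fun _ _ => rfl
    have h1 := (hSt.par c1).comp (hA.mg hT)
    simp only [ev_mg, od_mg] at h1
    have h2 : SF o (fun (p : (ℕ × ℕ) × (ℕ × ℕ) × List ℕ) w =>
        od w (pos p.2.1.1 p.2.1.2 p.2.2)) :=
      PF.od.at (SF.const (pos_comp (Computable.fst.comp c1) (Computable.snd.comp c1) c2))
    exact (Del.eq h2 h1).all.1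
  · intro _ x
    refine ⟨tab g F x, fun r => ?_⟩
    rw [tab_pos, hF]
    congr 1
    funext k
    rw [tab_pos, act_append]
    rfl
  · intro q x t ht
    have key : ∀ n j l, t (pos n j l) = F (n, j) (act g x l) := by
      intro n
      induction n using Nat.strong_induction_on with
      | _ n ih =>
        intro j l
        rw [ht ((n, j), l), hF]
        refine hS n j _ _ _ fun m i l' hm => ?_
        rw [tab_pos]
        have e : (pos m i l').unpair = (Nat.pair m i, Encodable.encode l') := by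
          simp only [pos, Nat.unpair_pair]
        simp only [e, Nat.unpair_pair, wrd_encode]
        rw [ih m hm, act_append]
    exact key q.1 q.2 []

end Pool.Agent.Lib.MP_5ddd96_lc.W5
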