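import Pool.Agent.Lib.MP_5ddd96_lc.W5.Basic

/-!
The packing bound for separated sets.
-/

set_option autoImplicit false

namespace Pool.Agent.Lib.MP_5ddd96_lc.W5

open Pointwise Pool.Agent.Lib.MP_5ddd96_lc.H74

theorem pfPack : stPack := by
  intro G _ Z _ V hs hf Y hY F hF x
  have hex : ∀ z : Z, ∃ f : G, (∃ f ∈ F, z = f • x) → f ∈ F ∧ z = f • x := by
    intro z
    by_cases h : ∃ f ∈ F, z = f • x
    · obtain ⟨f, h1, h2⟩ := h
      exact ⟨f, fun _ => ⟨h1, h2⟩⟩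
    · exact ⟨1, fun h' => absurd h' h⟩
  choose φ hφ using hex
  rw [← Set.ncard_coe_finset V, ← Set.ncard_prod]
  refine Set.ncard_le_ncard_of_injOn (fun p : Z × G => p.2 * φ p.1) ?_ ?_
    (V.finite_toSet.mul hF)
  · rintro ⟨z, v⟩ ⟨⟨_, hz⟩, hv⟩
    exact Set.mul_mem_mul hv (hφ z hz).1
  · rintro ⟨z, v⟩ ⟨⟨hy, hz⟩, hv⟩ ⟨z', v'⟩ ⟨⟨hy', hz'⟩, hv'⟩ h
    have h0 : v * φ z = v' * φ z' := h
    have h1 : v • z = v' • z' := by
      conv_lhs => rw [(hφ z hz).2]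
      conv_rhs => rw [(hφ z' hz').2]
      rw [← mul_smul, ← mul_smul, h0]
    have h2 : (v'⁻¹ * v) • z = z' := by
      rw [mul_smul, h1, inv_smul_smul]
    have h3 : z' = z := by
      rw [← h2]
      exact hY z _ (hs _ hv') _ hv hy (by rw [h2]; exact hy')
    subst h3
    have h4 : v = v' := hf _ _ hv _ hv' h1
    rw [h4]

end Pool.Agent.Lib.MP_5ddd96_lc.W5
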