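import Pool.Agent.Lib.MP_5ddd96_lc.W5.Basic

/-!
Groups of polynomial growth have local labellings: a doubling scale and a packing bound.
-/

set_option autoImplicit false

namespace Pool.Agent.Lib.MP_5ddd96_lc.W5

open Pointwise Pool.Agent.Lib.MP_5ddd96_lc.H74

namespace PolyAux

/-- A positive sequence of polynomial growth has arbitrarily large doubling scales. -/
theorem doubling (b : ℕ → ℕ) (hb : ∀ r, 1 ≤ b r) (C d : ℕ) (h : ∀ r, b r ≤ C * (r + 1) ^ d)
    (r₀ : ℕ) : ∃ r, r₀ ≤ r ∧ b (4 * r) ≤ 2 * 4 ^ d * b r := by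
  by_contra hcon
  have hlt : ∀ r, r₀ ≤ r → 2 * 4 ^ d * b r < b (4 * r) := fun r hr =>
    lt_of_not_ge fun hle => hcon ⟨r, hr, hle⟩
  have hlow : ∀ n : ℕ, (2 * 4 ^ d) ^ n ≤ b (4 ^ n * r₀) := by
    intro n
    induction n with
    | zero => simpa using hb r₀
    | succ n ih =>
      have h1 : r₀ ≤ 4 ^ n * r₀ := Nat.le_mul_of_pos_left _ (by positivity)
      have h2 := hlt _ h1
      have h3 : 4 ^ (n + 1) * r₀ = 4 * (4 ^ n * r₀) := by ring
      rw [h3, pow_succ, mul_comm ((2 * 4 ^ d) ^ n)]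
      exact (Nat.mul_le_mul_left _ ih).trans h2.le
  have hup : ∀ n : ℕ, b (4 ^ n * r₀) ≤ C * (r₀ + 1) ^ d * (4 ^ d) ^ n := by
    intro n
    refine (h _).trans ?_
    have h1 : 4 ^ n * r₀ + 1 ≤ 4 ^ n * (r₀ + 1) := by
      have : 1 ≤ 4 ^ n := Nat.one_le_pow _ _ (by norm_num)
      rw [mul_add, mul_one]
      omega
    have h2 : (4 ^ n * (r₀ + 1)) ^ d = (r₀ + 1) ^ d * (4 ^ d) ^ n := by
      rw [mul_pow, ← pow_mul, ← pow_mul, mul_comm n d, mul_comm]
    rw [mul_assoc, ← h2]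
    exact Nat.mul_le_mul_left _ (Nat.pow_le_pow_left h1 d)
  have h1 := (hlow (C * (r₀ + 1) ^ d)).trans (hup _)
  rw [mul_pow] at h1
  have h2 := Nat.le_of_mul_le_mul_right h1 (by positivity)
  exact absurd h2 (not_le.2 Nat.lt_two_pow_self)

/-- The packing bound: elements of `ball S (3 * r)` whose quotients avoid `ball S (2 * r)`. -/
theorem pack {G : Type} [Group G] (S : Finset G) (r : ℕ) (I : Finset ℕ) (g : ℕ → G)
    (hg : ∀ a ∈ I, g a ∈ ball S (3 * r))
    (hsep : ∀ a ∈ I, ∀ a' ∈ I, ∀ f ∈ ball S (2 * r), g a = f * g a' → a = a') :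
    I.card * (ball S r).ncard ≤ (ball S (4 * r)).ncard := by
  classical
  rw [Set.ncard_eq_toFinset_card _ (ball_finite S r),
    Set.ncard_eq_toFinset_card _ (ball_finite S (4 * r)), ← Finset.card_product]
  refine Finset.card_le_card_of_injOn (fun p => p.2 * g p.1) ?_ ?_
  · intro p hp
    have hp' := Finset.mem_product.1 (Finset.mem_coe.1 hp)
    have h1 := mul_mem_ball ((Set.Finite.mem_toFinset _).1 hp'.2) (hg _ hp'.1)
    have e : r + 3 * r = 4 * r := by ring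
    rw [e] at h1
    exact Finset.mem_coe.2 ((Set.Finite.mem_toFinset _).2 h1)
  · intro p hp q hq hpq
    have hp' := Finset.mem_product.1 (Finset.mem_coe.1 hp)
    have hq' := Finset.mem_product.1 (Finset.mem_coe.1 hq)
    have hpq' : p.2 * g p.1 = q.2 * g q.1 := hpq
    have h1 := mul_mem_ball (inv_mem_ball ((Set.Finite.mem_toFinset _).1 hp'.2))
      ((Set.Finite.mem_toFinset _).1 hq'.2)
    have e : r + r = 2 * r := by ring
    rw [e] at h1
    have h2 : p.1 = q.1 := hsep _ hp'.1 _ hq'.1 _ h1 (by rw [mul_assoc, ← hpq']; simp)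
    rw [h2] at hpq'
    exact Prod.ext h2 (mul_right_cancel hpq')

end PolyAux

theorem pfPoly (h1 : stNet) : stPoly := by
  classical
  rintro G _ ⟨S, hS, C, d, hC⟩
  have hpos : ∀ r, 1 ≤ (ball S r).ncard := fun r =>
    (Set.ncard_pos (ball_finite S r)).2 ⟨1, one_mem_ball S r⟩
  refine ⟨2 * 4 ^ d, fun W => ?_⟩
  obtain ⟨r₀, hr₀⟩ := exists_subset_ball S hS W.finite_toSet
  obtain ⟨r, hr, hdbl⟩ := PolyAux.doubling (fun r => (ball S r).ncard) hpos C d hC r₀
  have hW : ∀ w ∈ W, w ∈ ball S r := fun w hw => ball_mono S hr (hr₀ (Finset.mem_coe.2 hw))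
  have hF : ∀ f, f ∈ (ball_finite S (2 * r)).toFinset ↔ f ∈ ball S (2 * r) := fun f =>
    Set.Finite.mem_toFinset _
  refine ⟨∅, (ball_finite S (2 * r)).toFinset, fun M Z _ c hc _ => ?_⟩
  obtain ⟨Y, v, -, hv, hY, hsep⟩ := h1 G Z (ball_finite S (2 * r)).toFinset
    ((hF 1).2 (one_mem_ball S _)) (fun f hf => (hF _).2 (inv_mem_ball ((hF f).1 hf))) M c hc
  refine ⟨v, fun x => (hY x).1, hv, fun x => ?_⟩
  have hex : ∀ a ∈ W.image (fun w => c (v (w • x) • w • x)),
      ∃ g : G, g ∈ ball S (3 * r) ∧ Y (g • x) ∧ c (g • x) = a := by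
    intro a ha
    obtain ⟨w, hw, rfl⟩ := Finset.mem_image.1 ha
    refine ⟨v (w • x) * w, ?_, ?_, ?_⟩
    · have h2 := mul_mem_ball ((hF _).1 (hY (w • x)).1) (hW w hw)
      have e : 2 * r + r = 3 * r := by ring
      rwa [e] at h2
    · rw [mul_smul]
      exact (hY (w • x)).2
    · rw [mul_smul]
  choose! g hg using hex
  have hpack := PolyAux.pack S r _ g (fun a ha => (hg a ha).1) (fun a ha a' ha' f hf e => by
    have h2 := hsep (g a' • x) f ((hF f).2 hf) (hg a' ha').2.1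
      (by rw [← mul_smul, ← e]; exact (hg a ha).2.1)
    rw [← mul_smul, ← e, (hg a ha).2.2, (hg a' ha').2.2] at h2
    exact h2)
  exact Nat.le_of_mul_le_mul_right (hpack.trans hdbl) (hpos r)

end Pool.Agent.Lib.MP_5ddd96_lc.W5
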