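import Pool.Agent.Lib.MP_5ddd96_lc.W5.Basic

/-!
Property (D) for torsion-free abelian normal subgroups of finite rank.
-/

set_option autoImplicit false

namespace Pool.Agent.Lib.MP_5ddd96_lc.W5

open Pointwise Pool.Agent.Lib.MP_5ddd96_lc.H74

namespace PropDAux

open Multiplicative Finset

/-- A second homomorphism is a rational linear function of an injective one. -/
theorem exists_lin {H W : Type} [Group H] [AddCommGroup W] [Module ℚ W]
    (φ ψ : H →* Multiplicative W) (hφ : Function.Injective φ) :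
    ∃ T : W →ₗ[ℚ] W, ∀ a, T (φ a).toAdd = (ψ a).toAdd := by
  let R : Submodule ℚ (W × W) :=
    Submodule.span ℚ (Set.range fun a => ((φ a).toAdd, (ψ a).toAdd))
  have h1 : ∀ p ∈ R, ∃ N : ℤ, N ≠ 0 ∧ ∃ a, ((φ a).toAdd, (ψ a).toAdd) = N • p := fun p hp => by
    induction hp using Submodule.span_induction with
    | mem x hx =>
      obtain ⟨a, rfl⟩ := hx
      exact ⟨1, one_ne_zero, a, (one_smul _ _).symm⟩
    | zero => exact ⟨1, one_ne_zero, 1, by simp⟩
    | add x y _ _ ih ih' =>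
      obtain ⟨N, hN, a, ha⟩ := ih
      obtain ⟨M, hM, b, hb⟩ := ih'
      refine ⟨N * M, mul_ne_zero hN hM, a ^ M * b ^ N, ?_⟩
      rw [smul_add, mul_smul N M y, smul_comm N M y, mul_smul N M x, smul_comm N M x, ← ha,
        smul_comm M N y, smul_comm N M y, smul_comm M N y, ← hb]
      simp
    | smul c x _ ih =>
      obtain ⟨N, hN, a, ha⟩ := ih
      refine ⟨N * c.den, mul_ne_zero hN (by exact_mod_cast c.den_ne_zero), a ^ c.num, ?_⟩
      have e : ((N * c.den : ℤ)) • c • x = c.num • N • x := by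
        rw [← Int.cast_smul_eq_zsmul ℚ, ← Int.cast_smul_eq_zsmul ℚ c.num,
          ← Int.cast_smul_eq_zsmul ℚ N, smul_smul, smul_smul]
        congr 1
        push_cast
        rw [mul_assoc, Rat.den_mul_eq_num, mul_comm]
      rw [e, ← ha]
      simp
  have h2 : LinearMap.ker (LinearMap.fst ℚ W W ∘ₗ R.subtype) = ⊥ := by
    refine LinearMap.ker_eq_bot'.2 fun p hp => ?_
    obtain ⟨N, hN, a, ha⟩ := h1 p.1 p.2
    have h3 : p.1.1 = 0 := hp
    have h4 : (φ a).toAdd = 0 := by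
      rw [show (φ a).toAdd = N • p.1.1 from congrArg Prod.fst ha, h3, smul_zero]
    have h5 : a = 1 := hφ (by rw [map_one]; exact toAdd_eq_zero.1 h4)
    have h6 : (N : ℚ) • p.1 = 0 := by
      rw [Int.cast_smul_eq_zsmul, ← ha, h5]
      simp
    exact Subtype.ext ((smul_eq_zero.1 h6).resolve_left (Int.cast_ne_zero.2 hN))
  obtain ⟨g, hg⟩ := LinearMap.exists_leftInverse_of_injective _ h2
  refine ⟨LinearMap.snd ℚ W W ∘ₗ R.subtype ∘ₗ g, fun a => ?_⟩
  exact congrArg (fun p : R => p.1.2)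
    (LinearMap.congr_fun hg ⟨_, Submodule.subset_span ⟨a, rfl⟩⟩)

/-- A common denominator and a common bound. -/
theorem common {ι : Type} (s : Finset ι) (u : ι → ℚ) :
    ∃ k l : ℕ, 0 < k ∧ 0 < l ∧ ∀ i ∈ s, ∃ z : ℤ, |z| ≤ l ∧ (k : ℚ) * u i = z := by
  classical
  induction s using Finset.induction_on with
  | empty => exact ⟨1, 1, one_pos, one_pos, fun _ h => absurd h (notMem_empty _)⟩
  | insert j s _ ih =>
    obtain ⟨k, l, hk, hl, h⟩ := ih
    have hd := (u j).den_pos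
    refine ⟨k * (u j).den, l * (u j).den + k * (u j).num.natAbs, by positivity, by positivity,
      fun i hi => ?_⟩
    rcases mem_insert.1 hi with rfl | hi
    · refine ⟨k * (u i).num, ?_, ?_⟩
      · push_cast
        rw [abs_mul, Nat.abs_cast]
        have : (0 : ℤ) ≤ l * (u i).den := by positivity
        linarith
      · push_cast
        rw [mul_assoc, Rat.den_mul_eq_num]
    · obtain ⟨z, h1, h2⟩ := h i hi
      refine ⟨z * (u j).den, ?_, ?_⟩
      · push_cast
        rw [abs_mul, Nat.abs_cast]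
        have h3 : (0 : ℤ) ≤ k * |(u j).num| := by positivity
        have h4 := mul_le_mul_of_nonneg_right h1 (Int.natCast_nonneg (u j).den)
        linarith
      · push_cast
        rw [← h2]
        ring

variable {H : Type} [Group H] {n : ℕ} (φ : H →* Multiplicative (Fin n → ℚ))

/-- After scaling by `s` the coordinates are integers of size at most `r`. -/
def Bx (r s : ℕ) (a : H) : Prop := ∀ i, ∃ z : ℤ, |z| ≤ r ∧ (s : ℚ) * (φ a).toAdd i = z

variable {φ}

theorem Bx.one (r s : ℕ) : Bx φ r s 1 := fun _ => ⟨0, by simp, by simp⟩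

theorem Bx.mul {r r' s : ℕ} {a b : H} (h : Bx φ r s a) (h' : Bx φ r' s b) :
    Bx φ (r + r') s (a * b) := fun i => by
  obtain ⟨z, h1, h2⟩ := h i
  obtain ⟨y, h3, h4⟩ := h' i
  refine ⟨z + y, (abs_add_le _ _).trans (by push_cast; linarith), ?_⟩
  rw [map_mul, toAdd_mul, Pi.add_apply, mul_add, h2, h4, Int.cast_add]

theorem Bx.inv {r s : ℕ} {a : H} (h : Bx φ r s a) : Bx φ r s a⁻¹ := fun i => by
  obtain ⟨z, h1, h2⟩ := h i
  refine ⟨-z, by rwa [abs_neg], ?_⟩
  rw [map_inv, toAdd_inv, Pi.neg_apply, mul_neg, h2, Int.cast_neg]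

theorem Bx.scale {r s : ℕ} {a : H} (k : ℕ) (h : Bx φ r s a) : Bx φ (k * r) (k * s) a :=
  fun i => by
  obtain ⟨z, h1, h2⟩ := h i
  refine ⟨k * z, ?_, ?_⟩
  · push_cast
    rw [abs_mul, Nat.abs_cast]
    exact mul_le_mul_of_nonneg_left h1 (Int.natCast_nonneg k)
  · push_cast
    rw [mul_assoc, h2]

theorem exists_conj (hφ : Function.Injective φ) (c : H →* H) : ∃ k l : ℕ, 0 < k ∧
    ∀ r s a, Bx φ r s a → Bx φ (l * r) (k * s) (c a) := by
  obtain ⟨T, hT⟩ := exists_lin φ (φ.comp c) hφ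
  obtain ⟨k, l, hk, -, h⟩ := common (univ : Finset (Fin n × Fin n))
    fun p => T (fun j => if p.1 = j then 1 else 0) p.2
  refine ⟨k, n * l, hk, fun r s a ha j => ?_⟩
  choose z hz hz' using ha
  choose N hN hN' using fun i => h (i, j) (mem_univ _)
  refine ⟨∑ i, z i * N i, (abs_sum_le_sum_abs _ _).trans ?_, ?_⟩
  · refine (sum_le_card_nsmul _ _ ((r : ℤ) * l) fun i _ => ?_).trans (le_of_eq ?_)
    · rw [abs_mul]
      exact mul_le_mul (hz i) (hN i) (abs_nonneg _) (Int.natCast_nonneg r)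
    · rw [card_univ, Fintype.card_fin, nsmul_eq_mul]
      push_cast
      ring
  · rw [show φ (c a) = φ.comp c a from rfl, ← hT, LinearMap.pi_apply_eq_sum_univ,
      Finset.sum_apply, mul_sum]
    push_cast
    refine sum_congr rfl fun i _ => ?_
    rw [← hz' i, ← hN' i, Pi.smul_apply, smul_eq_mul]
    ring

theorem finite_bx (hφ : Function.Injective φ) (r : ℕ) {s : ℕ} (hs : 0 < s) :
    {a | Bx φ r s a}.Finite := by
  refine Set.Finite.of_finite_image (f := fun a i => ⌊(s : ℚ) * (φ a).toAdd i⌋)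
    ((Fintype.piFinset fun _ : Fin n => Icc (-(r : ℤ)) r).finite_toSet.subset ?_) ?_
  · rintro _ ⟨a, ha, rfl⟩
    refine mem_coe.2 (Fintype.mem_piFinset.2 fun i => ?_)
    obtain ⟨z, h1, h2⟩ := ha i
    simp only [h2, Int.floor_intCast]
    exact mem_Icc.2 (abs_le.1 h1)
  · intro a ha b hb e
    refine hφ (toAdd.injective (funext fun i => ?_))
    obtain ⟨z, -, h1⟩ := ha i
    obtain ⟨y, -, h2⟩ := hb i
    have h3 := congrFun e i
    simp only [h1, h2, Int.floor_intCast] at h3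
    exact mul_left_cancel₀ (Nat.cast_ne_zero.2 hs.ne') (by rw [h1, h2, h3])

theorem count (hφ : Function.Injective φ) {k w q : ℕ} (t : ℕ) (hk : 0 < k) (hw : 0 < w)
    (hq : 0 < q) : {a | Bx φ (t * w) (k * q) a}.ncard ≤
      (k * (2 * t + 1)) ^ n * {a | Bx φ w q a}.ncard := by
  classical
  have hY := finite_bx hφ (t * w) (Nat.mul_pos hk hq)
  have hV := finite_bx hφ w hq
  have hkw : (0 : ℤ) < k * w := by positivity
  have hk' : (0 : ℤ) < k := by positivity
  rw [Set.ncard_eq_toFinset_card _ hY, Set.ncard_eq_toFinset_card _ hV,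
    mul_comm (_ ^ n)]
  refine (card_le_mul_card_image_of_maps_to
    (f := fun a i => (⌊((k * q : ℕ) : ℚ) * (φ a).toAdd i⌋ % k,
      ⌊((k * q : ℕ) : ℚ) * (φ a).toAdd i⌋ / (k * w)))
    (t := Fintype.piFinset fun _ : Fin n => Ico (0 : ℤ) k ×ˢ Icc (-(t : ℤ)) t)
    (fun a ha => Fintype.mem_piFinset.2 fun i => ?_) hV.toFinset.card fun b _ => ?_).trans
    (le_of_eq ?_)
  · obtain ⟨z, h1, h2⟩ := hY.mem_toFinset.1 ha i
    rw [h2, Int.floor_intCast]
    obtain ⟨h3, h4⟩ := abs_le.1 h1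
    push_cast at h3 h4
    have h5 : (t : ℤ) * w ≤ t * (k * w) := by
      have : (w : ℤ) ≤ k * w := le_mul_of_one_le_left (Int.natCast_nonneg w) hk'
      exact mul_le_mul_of_nonneg_left this (Int.natCast_nonneg t)
    refine mem_product.2 ⟨mem_Ico.2 ⟨Int.emod_nonneg _ hk'.ne', Int.emod_lt_of_pos _ hk'⟩,
      mem_Icc.2 ⟨(Int.le_ediv_iff_mul_le hkw).2 (by linarith),
        Int.ediv_le_of_le_mul hkw (by linarith)⟩⟩
  · rcases (filter (fun a => (fun i => (⌊((k * q : ℕ) : ℚ) * (φ a).toAdd i⌋ % k,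
      ⌊((k * q : ℕ) : ℚ) * (φ a).toAdd i⌋ / (k * w))) = b) hY.toFinset).eq_empty_or_nonempty
      with h | ⟨a₀, h₀⟩
    · rw [h, card_empty]
      exact Nat.zero_le _
    refine card_le_card_of_injOn (· * a₀⁻¹) (fun a ha => ?_) (mul_left_injective _).injOn
    obtain ⟨a1, a2⟩ := mem_filter.1 (mem_coe.1 ha)
    obtain ⟨b1, b2⟩ := mem_filter.1 h₀
    refine mem_coe.2 (hV.mem_toFinset.2 fun i => ?_)
    obtain ⟨z, -, h1⟩ := hY.mem_toFinset.1 a1 i
    obtain ⟨y, -, h2⟩ := hY.mem_toFinset.1 b1 i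
    have h3 := congrFun (a2.trans b2.symm) i
    simp only [h1, h2, Int.floor_intCast, Prod.mk.injEq] at h3
    obtain ⟨d, hd⟩ := Int.ModEq.dvd h3.1.symm
    have z1 := Int.emod_add_mul_ediv z (k * w)
    have z2 := Int.emod_nonneg z hkw.ne'
    have z3 := Int.emod_lt_of_pos z hkw
    have y1 := Int.emod_add_mul_ediv y (k * w)
    have y2 := Int.emod_nonneg y hkw.ne'
    have y3 := Int.emod_lt_of_pos y hkw
    rw [h3.2] at z1
    refine ⟨d, abs_le.2 ⟨?_, ?_⟩, ?_⟩
    · exact le_of_mul_le_mul_left (by linarith) hk'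
    · exact le_of_mul_le_mul_left (by linarith) hk'
    · refine mul_left_cancel₀ (Nat.cast_ne_zero.2 hk.ne' : (k : ℚ) ≠ 0) ?_
      have hd' : (z : ℚ) - y = k * d := by exact_mod_cast hd
      push_cast at h1 h2
      rw [map_mul, map_inv, toAdd_mul, toAdd_inv, Pi.add_apply, Pi.neg_apply]
      linear_combination h1 - h2 + hd'
  · rw [Fintype.card_piFinset, prod_const, card_univ, Fintype.card_fin, card_product, Int.card_Ico,
      Int.card_Icc]
    congr 3
    omega

end PropDAux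

open PropDAux in
theorem pfPropD : stPropD := by
  intro Q _ A _ ⟨n, φ, hφ⟩
  choose k l hk hc using fun g : Q => exists_conj hφ (MulAut.conjNormal (H := A) g).toMonoidHom
  refine ⟨fun g => (k g * (2 * (5 * (k g + l g)) + 1)) ^ n, fun Θ E hE => ?_⟩
  obtain ⟨q, w, hq, hw, h⟩ := common (E.attach ×ˢ (Finset.univ : Finset (Fin n)))
    fun p => (φ ⟨p.1.1, hE _ p.1.2⟩).toAdd p.2
  have hV := finite_bx hφ w hq
  have hm : ∀ x : Q, x ∈ hV.toFinset.map (Function.Embedding.subtype _) ↔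
      ∃ a : A, Bx φ w q a ∧ (a : Q) = x := fun x => by
    simp only [Finset.mem_map, Set.Finite.mem_toFinset, Function.Embedding.coe_subtype]
    rfl
  have hp : ∀ (j : ℕ) (x : Q),
      x ∈ ((hV.toFinset.map (Function.Embedding.subtype _) : Finset Q) : Set Q) ^ j →
      ∃ a : A, Bx φ (j * w) q a ∧ (a : Q) = x := fun j => by
    induction j with
    | zero => exact fun x hx => ⟨1, Bx.one _ _, (Set.mem_one.1 hx).symm⟩
    | succ j ih =>
      intro x hx
      rw [pow_succ] at hx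
      obtain ⟨y, hy, z, hz, rfl⟩ := hx
      obtain ⟨a, ha, rfl⟩ := ih y hy
      obtain ⟨b, hb, rfl⟩ := (hm z).1 hz
      exact ⟨a * b, by rw [Nat.succ_mul]; exact ha.mul hb, rfl⟩
  refine ⟨hV.toFinset.map (Function.Embedding.subtype _), ⟨(hm _).2 ⟨1, Bx.one _ _, rfl⟩,
    fun v hv => ?_, fun v hv => ?_⟩, fun e he => (hm _).2 ⟨⟨e, hE e he⟩, fun i => ?_, rfl⟩,
    fun g _ => ?_⟩
  · obtain ⟨a, ha, rfl⟩ := (hm v).1 hv
    exact (hm _).2 ⟨a⁻¹, ha.inv, rfl⟩
  · obtain ⟨a, -, rfl⟩ := (hm v).1 hv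
    exact a.2
  · exact h (⟨e, he⟩, i) (Finset.mem_product.2 ⟨Finset.mem_attach _ _, Finset.mem_univ _⟩)
  · have hY := finite_bx hφ (5 * (k g + l g) * w) (Nat.mul_pos (hk g) hq)
    rw [Finset.card_map, ← Set.ncard_eq_toFinset_card _ hV]
    refine le_trans ?_ (count hφ (5 * (k g + l g)) (hk g) hw hq)
    refine (Set.ncard_le_ncard ?_ (hY.image fun a : A => (a : Q) * g)).trans
      (Set.ncard_image_le hY)
    rintro _ ⟨_, ⟨x, hx, g', hg, rfl⟩, y, hy, rfl⟩
    rw [Set.mem_singleton_iff.1 hg]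
    obtain ⟨a, ha, rfl⟩ := hp 5 x hx
    obtain ⟨b, hb, rfl⟩ := hp 5 y hy
    have h1 := (ha.scale (k g)).mul (hc g _ _ _ hb)
    rw [show k g * (5 * w) + l g * (5 * w) = 5 * (k g + l g) * w by ring] at h1
    exact ⟨_, h1, by simp [mul_assoc]⟩

end Pool.Agent.Lib.MP_5ddd96_lc.W5
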