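import Pool.Agent.Lib.MP_5ddd96_lc.W5.Basic

/-!
Extension by a kernel with property (D): simulation of the quotient rule.
-/

set_option autoImplicit false

namespace Pool.Agent.Lib.MP_5ddd96_lc.W5

open Pointwise Pool.Agent.Lib.MP_5ddd96_lc.H74

namespace RankAux

theorem pw_inv {Q : Type} [Group Q] [DecidableEq Q] {V : Finset Q} (hV : ∀ v ∈ V, v⁻¹ ∈ V) (k : ℕ)
    {a : Q} (ha : a ∈ V ^ k) : a⁻¹ ∈ V ^ k := by
  have e : V⁻¹ = V := by
    ext v
    rw [Finset.mem_inv']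
    exact ⟨fun h => by simpa using hV _ h, hV v⟩
  rw [← e, inv_pow]
  exact Finset.inv_mem_inv ha

theorem pw_mem {Q : Type} [Group Q] [DecidableEq Q] {V : Finset Q} {A : Subgroup Q}
    (hV : ∀ v ∈ V, v ∈ A) (k : ℕ) : ∀ a ∈ V ^ k, a ∈ A := by
  induction k with
  | zero =>
    intro a ha
    rw [pow_zero, Finset.mem_one] at ha
    exact ha ▸ A.one_mem
  | succ k ih =>
    intro a ha
    rw [pow_succ] at ha
    obtain ⟨b, hb, d, hd, rfl⟩ := Finset.mem_mul.1 ha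
    exact A.mul_mem (ih b hb) (hV d hd)

theorem ncard_bU {ι Z : Type} (I : Finset ι) (s : ι → Set Z) (m : ι → ℕ)
    (h : ∀ i ∈ I, (s i).ncard ≤ m i) : {z | ∃ i ∈ I, z ∈ s i}.ncard ≤ ∑ i ∈ I, m i := by
  classical
  induction I using Finset.induction_on with
  | empty => simp
  | insert a I ha ih =>
    have e : {z | ∃ i ∈ insert a I, z ∈ s i} = s a ∪ {z | ∃ i ∈ I, z ∈ s i} := by
      ext z
      simp
    rw [e, Finset.sum_insert ha]
    exact (Set.ncard_union_le _ _).trans (add_le_add (h a (Finset.mem_insert_self _ _))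
      (ih fun i hi => h i (Finset.mem_insert_of_mem hi)))

theorem card_image_le_of {α : Type} (s : Finset α) (f g : α → ℕ)
    (h : ∀ a ∈ s, ∀ b ∈ s, f a = f b → g a = g b) : (s.image g).card ≤ (s.image f).card := by
  classical
  refine le_trans (Finset.card_le_card ?_) (Finset.card_image_le
    (f := fun k => if hk : ∃ a ∈ s, f a = k then g hk.choose else 0))
  intro k hk
  obtain ⟨a, ha, rfl⟩ := Finset.mem_image.1 hk
  have hk : ∃ b ∈ s, f b = f a := ⟨a, ha, rfl⟩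
  refine Finset.mem_image.2 ⟨f a, Finset.mem_image_of_mem _ ha, ?_⟩
  rw [dif_pos hk]
  exact h _ hk.choose_spec.1 a ha hk.choose_spec.2

/-- Functions that agree with `η₀` off `Bad` and take values in small sets on `Bad`. -/
theorem card_sel {P Z : Type} (H : Finset (P → Z)) (Bad : Finset P) (S : P → Set Z) (η₀ : P → Z)
    (n k : ℕ) (hB : Bad.card ≤ k) (hf : ∀ p ∈ Bad, (S p).Finite) (hS : ∀ p ∈ Bad, (S p).ncard ≤ n)
    (h1 : ∀ η ∈ H, ∀ p ∈ Bad, η p ∈ S p) (h2 : ∀ η ∈ H, ∀ p, p ∉ Bad → η p = η₀ p) :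
    H.card ≤ (n + 1) ^ k := by
  classical
  let T : P → Finset Z := fun p => if hp : p ∈ Bad then (hf p hp).toFinset else ∅
  have e : H.card ≤ (Bad.pi T).card := by
    refine Finset.card_le_card_of_injOn (fun η p _ => η p) (fun η hη => ?_) fun η hη η' hη' e => ?_
    · refine Finset.mem_coe.2 (Finset.mem_pi.2 fun p hp => ?_)
      simp only [T, dif_pos hp, Set.Finite.mem_toFinset]
      exact h1 η hη p hp
    · funext p
      by_cases hp : p ∈ Bad
      · exact congrFun (congrFun e p) hp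
      · rw [h2 η hη p hp, h2 η' hη' p hp]
  rw [Finset.card_pi] at e
  refine e.trans ((Finset.prod_le_pow_card _ _ (n + 1) fun p hp => ?_).trans
    (Nat.pow_le_pow_right n.succ_pos hB))
  simp only [T, dif_pos hp]
  rw [← Set.ncard_eq_toFinset_card _ (hf p hp)]
  exact (hS p hp).trans n.le_succ

/-- A net along `A` and a colouring of it that is proper along the double cosets of `Θ`. -/
theorem coarse (h1 : stNet) (h2 : stColour) (h3 : stPack) {Q : Type} [Group Q] [DecidableEq Q]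
    {A : Subgroup Q} {m : Q → ℕ} (hD : PropD A m) (Θ E : Finset Q) (hΘ : ∀ g ∈ Θ, g⁻¹ ∈ Θ)
    (hE : ∀ e ∈ E, e ∈ A) :
    ∃ Bs D : Finset Q, (∀ d ∈ D, d ∈ A) ∧ ∀ (M : ℕ) (Z : Type) [MulAction Q Z] (c : Z → ℕ),
      (∀ x, c x < M) → Adm c Bs ⊥ →
      ∃ (v : Z → Q) (χ : Z → ℕ), IsLoc Q c v ∧ IsLoc Q c χ ∧ (∀ x, v x ∈ D) ∧
        (∀ x, χ x ≤ ∑ g ∈ Θ, m g) ∧
        ∀ z : Z, ∀ g ∈ Θ, ∀ a ∈ E, ∀ b ∈ E, ∀ d ∈ E,
          χ (v ((a * b * g * d⁻¹) • z) • (a * b * g * d⁻¹) • z) = χ (v z • z) → g ∈ A := by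
  obtain ⟨V, ⟨hV1, hVi, hVA⟩, hEV, hVm⟩ := hD Θ E hE
  let F : Finset Q := Θ.biUnion fun g => V ^ 4 * {g} * V ^ 4
  have hF : ∀ f, f ∈ F ↔ ∃ g ∈ Θ, ∃ a ∈ V ^ 4, ∃ b ∈ V ^ 4, a * g * b = f := fun f => by
    simp only [F, Finset.mem_biUnion, Finset.mem_mul, Finset.mem_singleton]
    constructor
    · rintro ⟨g, hg, _, ⟨a, ha, _, rfl, rfl⟩, b, hb, rfl⟩
      exact ⟨_, hg, a, ha, b, hb, rfl⟩
    · rintro ⟨g, hg, a, ha, b, hb, rfl⟩
      exact ⟨g, hg, _, ⟨a, ha, g, rfl, rfl⟩, b, hb, rfl⟩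
  have h2m : ∀ v ∈ V, ∀ v' ∈ V, v * v' ∈ V ^ 2 := fun v hv v' hv' => by
    rw [pow_two]
    exact Finset.mul_mem_mul hv hv'
  refine ⟨V ^ 2 ∪ F, V ^ 2, pw_mem hVA 2, fun M Z _ c hc hA => ?_⟩
  have fr : ∀ (x : Z), ∀ f ∈ V ^ 2 ∪ F, c (f • x) = c x → f = 1 := fun x f hf e =>
    Subgroup.mem_bot.1 (hA x f hf e)
  obtain ⟨Y, v, lY, lv, hv, hY⟩ := h1 Q Z (V ^ 2) (by simpa using h2m 1 hV1 1 hV1)
    (fun f hf => pw_inv hVi 2 hf) M c hc
  have pk := h3 Q Z V hVi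
    (fun x a ha b hb e => by
      have := fr x (b⁻¹ * a) (Finset.mem_union_left _ (h2m _ (hVi b hb) a ha))
        (by rw [mul_smul, e, inv_smul_smul])
      exact (inv_mul_eq_one.1 this).symm) Y
    (fun y a ha b hb hy hy' => by
      rw [fr y (a * b) (Finset.mem_union_left _ (h2m a ha b hb)) (hY y _ (h2m a ha b hb) hy hy'),
        one_smul])
  obtain ⟨χ, lχ, hχ, hχ'⟩ := h2 Q Z F
    (fun f hf => by
      obtain ⟨g, hg, a, ha, b, hb, rfl⟩ := (hF f).1 hf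
      exact (hF _).2 ⟨g⁻¹, hΘ g hg, b⁻¹, pw_inv hVi 4 hb, a⁻¹, pw_inv hVi 4 ha, by group⟩)
    M c hc (fun x f hf e => by rw [fr x f (Finset.mem_union_right _ hf) e, one_smul]) Y lY
    (∑ g ∈ Θ, m g) (fun y _ => by
      have e : {z | Y z ∧ ∃ f ∈ F, z = f • y} = {z | ∃ g ∈ Θ,
          z ∈ {z | Y z ∧ ∃ f ∈ ((V ^ 4 * {g} * V ^ 4 : Finset Q) : Set Q), z = f • y}} := by
        ext z
        simp only [F, Finset.mem_biUnion, Set.mem_ofPred_eq, Finset.mem_coe]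
        constructor
        · rintro ⟨hz, f, ⟨g, hg, hf⟩, rfl⟩
          exact ⟨g, hg, hz, f, hf, rfl⟩
        · rintro ⟨g, hg, hz, f, hf, rfl⟩
          exact ⟨hz, f, ⟨g, hg, hf⟩, rfl⟩
      rw [e]
      refine ncard_bU Θ _ m fun g hg => ?_
      refine Nat.le_of_mul_le_mul_right ((pk _ (Finset.finite_toSet _) y).trans
        (le_trans (Set.ncard_le_ncard ?_ ?_) (hVm g hg))) (Finset.card_pos.2 ⟨1, hV1⟩)
      · rw [Finset.coe_mul, Finset.coe_mul, Finset.coe_pow, Finset.coe_singleton, ← mul_assoc,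
          ← mul_assoc, ← pow_succ']
        exact Set.mul_subset_mul_left (Set.pow_subset_pow_right hV1 (by norm_num))
      · have := (V ^ 5 * {g} * V ^ 5).finite_toSet
        rwa [Finset.coe_mul, Finset.coe_mul, Finset.coe_pow, Finset.coe_singleton] at this)
  refine ⟨v, χ, lv, lχ, fun x => (hv x).1, hχ, fun z g hg a ha b hb d hd e => ?_⟩
  have m1 : v ((a * b * g * d⁻¹) • z) * a * b ∈ V ^ 4 := by
    rw [pow_succ, pow_succ]
    exact Finset.mul_mem_mul (Finset.mul_mem_mul (hv _).1 (hEV ha)) (hEV hb)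
  have m2 : 1 * d⁻¹ * (v z)⁻¹ ∈ V ^ 4 := by
    rw [show (4 : ℕ) = 2 + 2 from rfl, pow_add]
    exact Finset.mul_mem_mul (h2m 1 hV1 _ (hVi d (hEV hd))) (pw_inv hVi 2 (hv z).1)
  have hf := (hF _).2 ⟨g, hg, _, m1, _, m2, rfl⟩
  have e1 : (v ((a * b * g * d⁻¹) • z) * a * b * g * (1 * d⁻¹ * (v z)⁻¹)) • v z • z =
      v ((a * b * g * d⁻¹) • z) • (a * b * g * d⁻¹) • z := by
    rw [← mul_smul, ← mul_smul]
    congr 1
    group
  have e2 := hχ' (v z • z) _ hf (hv z).2 (by rw [e1]; exact (hv _).2) (by rw [e1]; exact e)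
  have e3 := fr (v z • z) _ (Finset.mem_union_right _ hf) (by rw [e2])
  have e4 : ∀ p q : Q, p * g * q = 1 → g = p⁻¹ * q⁻¹ := fun p q h =>
    calc g = p⁻¹ * (p * g * q) * q⁻¹ := by group
      _ = _ := by rw [h, mul_one]
  rw [e4 _ _ e3]
  exact A.mul_mem (A.inv_mem (pw_mem hVA 4 _ m1)) (A.inv_mem (pw_mem hVA 4 _ m2))

end RankAux

open RankAux in
theorem pfRank (h1 : stNet) (h2 : stColour) (h3 : stPack) (h4 : stGen) : stRank := by
  intro Q _ A _ N C m hD hW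
  classical
  refine ⟨(m 1 + 1) ^ (m 1 ^ 2) * C, fun W => ?_⟩
  let π : Q →* Q ⧸ A := QuotientGroup.mk' A
  let σ : Q ⧸ A → Q := Quotient.out
  have hσ : ∀ p, π (σ p) = p := fun p => QuotientGroup.out_eq' p
  have hπ : ∀ g : Q, π g = 1 ↔ g ∈ A := fun g => QuotientGroup.eq_one_iff g
  obtain ⟨BP, DP, hP⟩ := hW (W.image π)
  let B' : Finset (Q ⧸ A) := BP ∪ (DP * W.image π) * (DP * W.image π)⁻¹
  let Θ : Finset Q := B'.image σ ∪ B'.image fun b => (σ b)⁻¹
  obtain ⟨U, τP, hDU, hτD, hτl, hτ⟩ := hP (∑ g ∈ Θ, m g + 1)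
  let Pi : Finset (Q ⧸ A) := U * W.image π
  let E : Finset Q := insert 1 ((U ×ˢ W).image fun x => (σ (x.1 * π x.2))⁻¹ * σ x.1 * x.2)
  have hEA : ∀ e ∈ E, e ∈ A := fun e he => by
    rcases Finset.mem_insert.1 he with rfl | he
    · exact A.one_mem
    · obtain ⟨x, -, rfl⟩ := Finset.mem_image.1 he
      rw [← hπ]
      simp only [map_mul, map_inv, hσ]
      group
  obtain ⟨BG, DG, hDGA, hG⟩ := h4 Q A m hD (Pi.image σ) E
    (fun a ha b hb e => by
      obtain ⟨p, -, rfl⟩ := Finset.mem_image.1 ha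
      obtain ⟨p', -, rfl⟩ := Finset.mem_image.1 hb
      rw [← hπ, map_mul, map_inv, hσ, hσ, inv_mul_eq_one] at e
      rw [e])
    (Finset.mem_insert_self _ _) hEA
  let E' : Finset Q := ((Pi ×ˢ Pi) ×ˢ (E ×ˢ E)).image fun x =>
    σ x.1.2 * x.2.2 * x.2.1⁻¹ * (σ x.1.1)⁻¹ * (σ (x.1.2 * x.1.1⁻¹))⁻¹
  obtain ⟨BC, DC, -, hC⟩ := coarse h1 h2 h3 hD Θ (DG ∪ E')
    (fun g hg => by
      rcases Finset.mem_union.1 hg with hg | hg <;> obtain ⟨b, hb, rfl⟩ := Finset.mem_image.1 hg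
      · exact Finset.mem_union_right _ (Finset.mem_image_of_mem (fun b => (σ b)⁻¹) hb)
      · rw [inv_inv]
        exact Finset.mem_union_left _ (Finset.mem_image_of_mem _ hb))
    (fun e he => by
      rcases Finset.mem_union.1 he with he | he
      · exact hDGA e he
      · obtain ⟨x, hx, rfl⟩ := Finset.mem_image.1 he
        have hx2 := Finset.mem_product.1 (Finset.mem_product.1 hx).2
        rw [← hπ]
        simp only [map_mul, map_inv, hσ, (hπ _).2 (hEA _ hx2.1), (hπ _).2 (hEA _ hx2.2)]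
        group)
  refine ⟨BG ∪ BC, DC * DG * DP.image σ, fun M Z _ c hc hA => ?_⟩
  obtain ⟨ψ, lψ, hψ, hψ1, hψ2⟩ := hG M Z c hc fun x b hb => hA x b (Finset.mem_union_left _ hb)
  obtain ⟨v, χ, lv, lχ, hv, hχ, hχ'⟩ :=
    hC M Z c hc fun x b hb => hA x b (Finset.mem_union_right _ hb)
  let pt : Z → Z := fun y => ψ y • y
  let col : Z → ℕ := fun z => χ (v z • z)
  let pp : Z → Q ⧸ A := fun x => τP fun q => col (pt (σ q • x))
  have lcol : IsLoc Q c fun y => col (pt y) := (lχ.dshift DC lv hv).dshift DG lψ hψ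
  have lpp : IsLoc Q c pp := lcol.of_nbhd (U.image σ) fun x y h =>
    hτl _ _ fun u hu => h _ (Finset.mem_image_of_mem _ hu)
  have lσ : IsLoc Q c fun x => σ (pp x) := lpp.comp σ
  have hσD : ∀ x, σ (pp x) ∈ DP.image σ := fun x => Finset.mem_image_of_mem _ (hτD _)
  have lΦ : IsLoc Q c fun y => v (pt y) * ψ y := (lv.dshift DG lψ hψ).comp₂ lψ fun a b => a * b
  refine ⟨fun x => v (pt (σ (pp x) • x)) * ψ (σ (pp x) • x) * σ (pp x),
    fun x => Finset.mul_mem_mul (Finset.mul_mem_mul (hv _) (hψ _)) (hσD x),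
    (lΦ.dshift _ lσ hσD).comp₂ lσ fun a b => a * b, fun x => ?_⟩
  let η : Q → Q ⧸ A → Z := fun w p =>
    if p * (π w)⁻¹ ∈ U then pt (σ (p * (π w)⁻¹) • w • x) else pt (σ p • x)
  have hη : ∀ w, ∀ u ∈ U, η w (u * π w) = pt (σ u • w • x) := fun w u hu => by
    simp only [η, mul_inv_cancel_right, if_pos hu]
  have hηS : ∀ w ∈ W, ∀ p, ∃ e ∈ E, η w p = pt (σ p • e • x) ∧ (p ∉ Pi → e = 1) := fun w hw p => by
    by_cases hp : p * (π w)⁻¹ ∈ U
    · obtain ⟨u, rfl⟩ : ∃ u, p = u * π w := ⟨p * (π w)⁻¹, by group⟩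
      rw [mul_inv_cancel_right] at hp
      refine ⟨(σ (u * π w))⁻¹ * σ u * w, Finset.mem_insert_of_mem (Finset.mem_image.2
        ⟨(u, w), Finset.mem_product.2 ⟨hp, hw⟩, rfl⟩), ?_, fun h => absurd
          (Finset.mul_mem_mul hp (Finset.mem_image_of_mem _ hw)) h⟩
      rw [hη w u hp, mul_smul, mul_smul, smul_inv_smul]
    · exact ⟨1, Finset.mem_insert_self _ _, by simp only [η, if_neg hp, one_smul], fun _ => rfl⟩
  have hinj : ∀ w ∈ W, ∀ p ∈ Pi, ∀ p' ∈ Pi, p' * p⁻¹ ∈ B' → col (η w p') = col (η w p) →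
      p' * p⁻¹ = 1 := fun w hw p hp p' hp' hb e => by
    obtain ⟨a, ha, ea, -⟩ := hηS w hw p
    obtain ⟨a', ha', ea', -⟩ := hηS w hw p'
    have e1 : η w p' = (ψ (σ p' • a' • x) * (σ p' * a' * a⁻¹ * (σ p)⁻¹ * (σ (p' * p⁻¹))⁻¹) *
        σ (p' * p⁻¹) * (ψ (σ p • a • x))⁻¹) • η w p := by
      rw [ea, ea']
      simp only [pt, mul_smul, inv_smul_smul]
    rw [← hσ (p' * p⁻¹), hπ]
    refine hχ' (η w p) _ (Finset.mem_union_left _ (Finset.mem_image_of_mem _ hb))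
      _ (Finset.mem_union_left _ (hψ (σ p' • a' • x))) _ (Finset.mem_union_right _
        (Finset.mem_image.2 ⟨((p, p'), (a, a')), Finset.mem_product.2
          ⟨Finset.mem_product.2 ⟨hp, hp'⟩, Finset.mem_product.2 ⟨ha, ha'⟩⟩, rfl⟩))
      _ (Finset.mem_union_left _ (hψ (σ p • a • x))) ?_
    rw [← e1]
    exact e
  let Bad : Finset (Q ⧸ A) := Pi.filter fun p => ∃ e ∈ E, pt (σ p • e • x) ≠ pt (σ p • x)
  have hH : (W.image η).card ≤ (m 1 + 1) ^ (m 1 ^ 2) := by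
    refine card_sel _ Bad (fun p => {z | ∃ e ∈ E, z = pt (σ p • e • x)}) (fun p => pt (σ p • x))
      _ _ ?_ (fun p _ => (E.finite_toSet.image fun e => pt (σ p • e • x)).subset ?_)
      (fun p hp => hψ1 x _ (Finset.mem_image_of_mem _ (Finset.mem_filter.1 hp).1))
      (fun f hf p _ => ?_) fun f hf p hp => ?_
    · refine le_trans ?_ (hψ2 x)
      rw [← Finset.card_image_of_injective Bad (Function.LeftInverse.injective hσ),
        ← Set.ncard_coe_finset]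
      refine Set.ncard_le_ncard (fun g hg => ?_) ((Pi.image σ).finite_toSet.subset fun g hg => hg.1)
      obtain ⟨p, hp, rfl⟩ := Finset.mem_image.1 (Finset.mem_coe.1 hg)
      exact ⟨Finset.mem_image_of_mem _ (Finset.mem_filter.1 hp).1, (Finset.mem_filter.1 hp).2⟩
    · rintro _ ⟨e, he, rfl⟩
      exact ⟨e, he, rfl⟩
    · obtain ⟨w, hw, rfl⟩ := Finset.mem_image.1 hf
      obtain ⟨e, he, h, -⟩ := hηS w hw p
      exact ⟨e, he, h⟩
    · obtain ⟨w, hw, rfl⟩ := Finset.mem_image.1 hf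
      obtain ⟨e, he, h, h'⟩ := hηS w hw p
      rw [h]
      by_contra hne
      by_cases hp' : p ∈ Pi
      · exact hp (Finset.mem_filter.2 ⟨hp', e, he, hne⟩)
      · exact hne (by rw [h' hp', one_smul])
  let lab : Q → ℕ := fun w => c ((v (pt (σ (pp (w • x)) • w • x)) * ψ (σ (pp (w • x)) • w • x) *
    σ (pp (w • x))) • w • x)
  have hfib : ∀ f ∈ W.image η, ((W.filter fun w => η w = f).image lab).card ≤ C := fun f hf => by
    obtain ⟨w₀, hw₀, rfl⟩ := Finset.mem_image.1 hf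
    have mem : ∀ u ∈ U, ∀ w ∈ W.image π, u * w ∈ Pi := fun u hu w hw => Finset.mul_mem_mul hu hw
    have key := hτ (fun p => col (η w₀ p)) (fun _ _ _ _ => Nat.lt_succ_of_le (hχ _))
      fun u hu w hw u' hu' w' hw' hb e => by
        rw [hinj w₀ hw₀ _ (mem u hu w hw) _ (mem u' hu' w' hw') (Finset.mem_union_left _ hb) e]
        exact N.one_mem
    rw [Finset.image_image] at key
    have e1 : ∀ w, η w = η w₀ → (τP fun q => col (η w₀ (q * π w))) = pp (w • x) := fun w h =>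
      hτl _ _ fun u hu => by rw [← h, hη w u hu]
    have e2 : ∀ w, η w = η w₀ →
        lab w = c (v (η w₀ (pp (w • x) * π w)) • η w₀ (pp (w • x) * π w)) := fun w h => by
      rw [← h, hη w _ (hDU (hτD _))]
      simp only [lab, mul_smul]
      rfl
    refine (card_image_le_of _ _ lab fun w hw w' hw' e => ?_).trans
      ((Finset.card_le_card (Finset.image_subset_image (Finset.filter_subset _ W))).trans key)
    obtain ⟨hw, h⟩ := Finset.mem_filter.1 hw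
    obtain ⟨hw', h'⟩ := Finset.mem_filter.1 hw'
    simp only [Function.comp, e1 w h, e1 w' h'] at e
    have m1 : ∀ w ∈ W, pp (w • x) * π w ∈ DP * W.image π := fun w hw =>
      Finset.mul_mem_mul (hτD _) (Finset.mem_image_of_mem _ hw)
    have := hinj w₀ hw₀ _ (mem _ (hDU (hτD _)) _ (Finset.mem_image_of_mem _ hw')) _
      (mem _ (hDU (hτD _)) _ (Finset.mem_image_of_mem _ hw))
      (Finset.mem_union_right _ (Finset.mul_mem_mul (m1 w hw) (Finset.inv_mem_inv (m1 w' hw')))) e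
    rw [e2 w h, e2 w' h', mul_inv_eq_one.1 this]
  have hsub : W.image lab ⊆ (W.image η).biUnion fun f => (W.filter fun w => η w = f).image lab :=
    fun k hk => by
      obtain ⟨w, hw, rfl⟩ := Finset.mem_image.1 hk
      exact Finset.mem_biUnion.2 ⟨η w, Finset.mem_image_of_mem _ hw,
        Finset.mem_image_of_mem _ (Finset.mem_filter.2 ⟨hw, rfl⟩)⟩
  exact (Finset.card_le_card hsub).trans
    ((Finset.card_biUnion_le_card_mul _ _ _ hfib).trans (Nat.mul_le_mul_right _ hH))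

end Pool.Agent.Lib.MP_5ddd96_lc.W5
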