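import Pool.Agent.Lib.MP_5ddd96_lc.W5.Basic
import Pool.Agent.Lib.MP_5ddd96_lc.W5.EqFix

/-!
The properties of the parameters and of the least label.
-/

set_option autoImplicit false

namespace Pool.Agent.Lib.MP_5ddd96_lc.W5

open Pointwise Pool.Agent.Lib.MP_5ddd96_lc.H74

namespace SpecAux

/-- The inverse letter. -/
def iv (a : ℕ) : ℕ := if a % 2 = 0 then a + 1 else a - 1

/-- The inverse word. -/
def ivw (l : List ℕ) : List ℕ := (l.map iv).reverse

variable {g : ℕ → Equiv.Perm B}

theorem g_iv (hg : Sym g) (a : ℕ) (x : B) : g (iv a) (g a x) = x := by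
  unfold iv
  split_ifs with h
  · obtain ⟨i, rfl⟩ : ∃ i, a = 2 * i := ⟨a / 2, by omega⟩
    rw [hg i]
    exact (g (2 * i)).symm_apply_apply x
  · obtain ⟨i, rfl⟩ : ∃ i, a = 2 * i + 1 := ⟨a / 2, by omega⟩
    rw [hg i, Nat.add_sub_cancel]
    exact (g (2 * i)).apply_symm_apply x

theorem iv_lt {a j : ℕ} (h : a < 2 * j) : iv a < 2 * j := by
  unfold iv
  split_ifs <;> omega

theorem act_cons (x : B) (a : ℕ) (l : List ℕ) : act g x (a :: l) = act g (g a x) l := rfl

theorem act_ivw (hg : Sym g) (l : List ℕ) : ∀ x : B, act g (act g x l) (ivw l) = x := by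
  induction l with
  | nil => intro x; rfl
  | cons a l ih =>
    intro x
    have e : ivw (a :: l) = ivw l ++ [iv a] := by simp [ivw]
    rw [e, act_append, act_cons x a l, ih, act_cons, act_nil, g_iv hg]

theorem lev_ivw {j : ℕ} {l : List ℕ} (h : lev j l) : lev j (ivw l) := by
  intro a ha
  obtain ⟨b, hb, rfl⟩ := List.mem_map.1 (List.mem_reverse.1 ha)
  exact iv_lt (h b hb)

theorem length_ivw (l : List ℕ) : (ivw l).length = l.length := by simp [ivw]

theorem lev_nil (j : ℕ) : lev j [] := fun _ h => absurd h List.not_mem_nil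

theorem fin_ball (j r : ℕ) : ∀ x : B, {y | nrr g j r x y}.Finite := by
  induction r with
  | zero =>
    intro x
    refine (Set.finite_singleton x).subset ?_
    rintro y ⟨l, _, h2, rfl⟩
    have : l = [] := List.length_eq_zero_iff.1 (Nat.le_zero.1 h2)
    subst this
    rfl
  | succ r ih =>
    intro x
    refine ((Set.finite_singleton x).union
      ((Set.finite_lt_nat (2 * j)).biUnion fun a _ => ih (g a x))).subset ?_
    rintro y ⟨l, h1, h2, rfl⟩
    cases l with
    | nil => exact Or.inl rfl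
    | cons a l =>
      refine Or.inr (Set.mem_biUnion (h1 a List.mem_cons_self) ?_)
      exact ⟨l, fun b hb => h1 b (List.mem_cons_of_mem _ hb),
        Nat.le_of_succ_le_succ h2, rfl⟩

theorem isNear (hg : Sym g) (j : ℕ) : IsNear (nrr g j) where
  refl r _ := ⟨[], lev_nil j, Nat.zero_le r, rfl⟩
  mono := fun h ⟨l, h1, h2, h3⟩ => ⟨l, h1, h2.trans h, h3⟩
  symm := by
    rintro r x y ⟨l, h1, h2, rfl⟩
    exact ⟨ivw l, lev_ivw h1, by rw [length_ivw]; exact h2, act_ivw hg l x⟩
  trans := by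
    rintro r s x y z ⟨l, h1, h2, rfl⟩ ⟨l', h1', h2', rfl⟩
    refine ⟨l ++ l', fun a ha => ?_, by rw [List.length_append]; omega, act_append g x l l'⟩
    rcases List.mem_append.1 ha with h | h
    · exact h1 a h
    · exact h1' a h
  fin := fin_ball j

variable {lam : ℕ → B → List ℕ}

theorem good_act {j C L p : ℕ} {x : B} (h : Good g lam j C L p x) (u : List ℕ) :
    Good g lam j C L p (act g x u) := by
  intro v
  rw [← act_append]
  exact h (u ++ v)

theorem good_iff (hg : Sym g) (j C L p : ℕ) (x : B) (u : List ℕ) :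
    Good g lam j C L p (act g x u) ↔ Good g lam j C L p x :=
  ⟨fun h => by
    have := good_act h (ivw u)
    rwa [act_ivw hg] at this, fun h => good_act h u⟩

theorem NN_act (hg : Sym g) (j : ℕ) (x : B) (u : List ℕ) :
    NN g lam j (act g x u) = NN g lam j x := by
  simp only [NN, good_iff hg]

theorem best_act (hg : Sym g) (j L : ℕ) (x : B) (u : List ℕ) :
    best g lam j L (act g x u) = best g lam j L x := by
  simp only [best, good_iff hg, NN_act hg]

theorem aa_act (hg : Sym g) (x : B) (u : List ℕ) (j : ℕ) :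
    aa g lam (act g x u) j = aa g lam x j := by
  induction j with
  | zero => rfl
  | succ j ih => simp only [aa, ih, NN_act hg, best_act hg]

theorem LL_act (hg : Sym g) (j : ℕ) (x : B) (u : List ℕ) :
    LL g lam j (act g x u) = LL g lam j x := by
  simp only [LL, NN_act hg, aa_act hg]

theorem pp_act (hg : Sym g) (j : ℕ) (x : B) (u : List ℕ) :
    pp g lam j (act g x u) = pp g lam j x := by
  simp only [pp, LL_act hg, best_act hg]

theorem DD_act (hg : Sym g) (j : ℕ) (x : B) (u : List ℕ) :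
    DD g lam j (act g x u) = DD g lam j x := by
  simp only [DD, LL_act hg, pp_act hg]

theorem good_best {x : B} {j : ℕ} (h : ∃ C, ∀ L, ∃ p, Good g lam j C L p x) (L : ℕ) :
    Good g lam j (NN g lam j x) L (best g lam j L x) x := by
  have h1 : NN g lam j x ∈ {C | ∀ L, ∃ p, Good g lam j C L p x} := Nat.sInf_mem h
  have h2 : best g lam j L x ∈ {p | Good g lam j (NN g lam j x) L p x} := Nat.sInf_mem (h1 L)
  exact h2

theorem lexle_iff (y z : B) : lexle y z ↔ toLex y ≤ toLex z := by
  rw [le_iff_eq_or_lt]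
  exact Iff.rfl

theorem rep_spec (j p t : ℕ) (x : B) :
    act g x (repw g lam j p t x) ∈ Lev (nrr g j) (lab g lam p) t x ∧
      ∀ z ∈ Lev (nrr g j) (lab g lam p) t x, lexle (act g x (repw g lam j p t x)) z := by
  obtain ⟨y, ⟨l, h1, h2, rfl⟩, hy⟩ := Set.exists_min_image {y | nrr g j t x y}
    (fun y => toLex (lab g lam p y)) (fin_ball j t x) ⟨x, [], lev_nil j, Nat.zero_le t, rfl⟩
  have h : repc g lam j p t x ∈ {k | (lev j (wrd k) ∧ (wrd k).length ≤ t) ∧
      ∀ v : List ℕ, lev j v → v.length ≤ t →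
        lexle (lab g lam p (act g x (wrd k))) (lab g lam p (act g x v))} := by
    refine Nat.sInf_mem ⟨Encodable.encode l, ?_⟩
    show (lev j (wrd _) ∧ (wrd _).length ≤ t) ∧ ∀ v : List ℕ, lev j v → v.length ≤ t →
      lexle (lab g lam p (act g x (wrd _))) (lab g lam p (act g x v))
    rw [wrd_encode]
    exact ⟨⟨h1, h2⟩, fun v hv hv' => (lexle_iff _ _).2 (hy _ ⟨v, hv, hv', rfl⟩)⟩
  have e : act g x (repw g lam j p t x) = lab g lam p (act g x (wrd (repc g lam j p t x))) :=
    act_append g x _ _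
  rw [e]
  refine ⟨⟨_, ⟨_, h.1.1, h.1.2, rfl⟩, rfl⟩, ?_⟩
  rintro z ⟨y, ⟨v, hv, hv', rfl⟩, rfl⟩
  exact h.2 v hv hv'

end SpecAux

open SpecAux in
theorem pfSpec : stSpec := by
  intro g hg lam
  refine ⟨isNear hg, fun x u j => ⟨NN_act hg j x u, aa_act hg x u j, LL_act hg j x u,
    pp_act hg j x u, DD_act hg j x u⟩, fun x j h => good_best h _,
    fun j p t x => (rep_spec j p t x).1, fun j p t t' x y h => ?_⟩
  obtain ⟨h1, h2⟩ := rep_spec (g := g) (lam := lam) j p t x
  obtain ⟨h3, h4⟩ := rep_spec (g := g) (lam := lam) j p t' y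
  rw [h] at h3 h4
  exact toLex.injective (le_antisymm ((lexle_iff _ _).1 (h4 _ h1)) ((lexle_iff _ _).1 (h2 _ h3)))

end Pool.Agent.Lib.MP_5ddd96_lc.W5
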