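import Pool.Agent.Lib.MP_5ddd96_lc.W5.Basic

/-!
Iterated colour reduction.
-/

set_option autoImplicit false

namespace Pool.Agent.Lib.MP_5ddd96_lc.W5

open Pointwise Pool.Agent.Lib.MP_5ddd96_lc.H74

namespace StepsAux

theorem sq_le (u : ℕ) : u * (u + 4) + 1 ≤ 2 ^ (u + 3) := by
  induction u with
  | zero => norm_num
  | succ u ih =>
    have h : u < 2 ^ u := Nat.lt_two_pow_self
    have e1 : 2 ^ (u + 1 + 3) = 16 * 2 ^ u := by ring
    have e2 : 2 ^ (u + 3) = 8 * 2 ^ u := by ring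
    rw [e1]
    rw [e2] at ih
    nlinarith

theorem bound (d t : ℕ) :
    (2 * (d * (2 ^ t + (2 * d + 3))) + 1) ^ d ≤ 2 ^ (d * (t + (2 * d + 3))) := by
  rw [mul_comm d (t + (2 * d + 3)), pow_mul]
  refine Nat.pow_le_pow_left ?_ d
  have h1 := sq_le (2 * d)
  have h2 : 1 ≤ 2 ^ t := Nat.one_le_two_pow
  rw [pow_add]
  obtain ⟨T, hT⟩ : ∃ T, 2 ^ t = T + 1 := ⟨2 ^ t - 1, by omega⟩
  rw [hT]
  calc 2 * (d * (T + 1 + (2 * d + 3))) + 1
      ≤ (T + 1) * (2 * d * (2 * d + 4) + 1) := by nlinarith [Nat.zero_le (T * d * d), Nat.zero_le (T * d)]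
    _ ≤ (T + 1) * 2 ^ (2 * d + 3) := Nat.mul_le_mul_left _ h1

end StepsAux

theorem pfSteps (h1 : stLinial) : stSteps := by
  intro G _ Z _ R d n
  induction n with
  | zero =>
    intro P _ _ c hc hb
    refine ⟨c, hc, fun x => ?_, fun _ _ _ h => h⟩
    have e : tow 0 + (2 * d + 3) = 2 * d + 4 := by
      show 1 + (2 * d + 3) = 2 * d + 4
      omega
    rw [← e]
    exact hb x
  | succ n ih =>
    intro P hstep hcard c hc hb
    obtain ⟨φ, hφ1, hφ2⟩ := h1 (d * (tow (n + 1) + (2 * d + 3))) d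
    obtain ⟨c', hc', hb', hp'⟩ := ih (fun i => P (i + 1))
      (fun i hi => hstep (i + 1) (Nat.succ_lt_succ hi))
      (fun i hi => hcard (i + 1) (Nat.succ_lt_succ hi))
      (fun x => φ (c x) (R.image (fun r => c (r • x))))
      (hstep 0 (Nat.succ_pos n) c φ hc)
      (fun x => lt_of_lt_of_le (hφ1 _ _) (StepsAux.bound d (tow n)))
    refine ⟨c', hc', hb', fun x r hr h => ?_⟩
    exact (hφ2 (c x) (c (r • x)) _ _ (hb _) (hb _)
      (hcard 0 (Nat.succ_pos n) c hc x) (hcard 0 (Nat.succ_pos n) c hc (r • x))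
      (hp' x r hr h).symm (Finset.mem_image_of_mem (fun r => c (r • x)) hr)).symm

end Pool.Agent.Lib.MP_5ddd96_lc.W5
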