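import Pool.Agent.Lib.MP_5ddd96_lc.W5.Basic

/-!
Finite tables read on finitely many colours.
-/

set_option autoImplicit false

namespace Pool.Agent.Lib.MP_5ddd96_lc.W5

open Pointwise Pool.Agent.Lib.MP_5ddd96_lc.H74

namespace TableAux

/-- The least code of a list that starts with the colours along the words of `q.2`. -/
noncomputable def key (g : ℕ → Equiv.Perm B) (col : List (List ℕ) → B → ℕ)
    (q : List (List ℕ) × List (List ℕ)) (x : B) : ℕ :=
  sInf {k | ∀ i, i < q.2.length → (wrd k).getD i 0 = col q.1 (act g x (q.2.getD i []))}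

variable {o : B} {g : ℕ → Equiv.Perm B} {col : List (List ℕ) → B → ℕ}

theorem sf_key (hg : PF o (fun i x => g i x)) (hc : SF o col) : SF o (key g col) := by
  have c1 : Computable (fun r : ((List (List ℕ) × List (List ℕ)) × ℕ) × ℕ => r.1.1.1) :=
    Computable.fst.comp (Computable.fst.comp Computable.fst)
  have p2 : Primrec (fun r : ((List (List ℕ) × List (List ℕ)) × ℕ) × ℕ => r.1.1.2) :=
    Primrec.snd.comp (Primrec.fst.comp Primrec.fst)
  have c3 : Computable (fun r : ((List (List ℕ) × List (List ℕ)) × ℕ) × ℕ => wrd r.1.2) :=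
    wrd_comp.comp (Computable.snd.comp Computable.fst)
  have c4 : Computable (fun r : ((List (List ℕ) × List (List ℕ)) × ℕ) × ℕ =>
      r.1.1.2.getD r.2 []) := ((Primrec.list_getD []).comp p2 Primrec.snd).to_comp
  have c5 : Computable (fun r : ((List (List ℕ) × List (List ℕ)) × ℕ) × ℕ =>
      (wrd r.1.2).getD r.2 0) := (Primrec.list_getD 0).to_comp.comp c3 Computable.snd
  have h1 : Del o (fun (r : ((List (List ℕ) × List (List ℕ)) × ℕ) × ℕ) x => r.2 < r.1.1.2.length →
      (wrd r.1.2).getD r.2 0 = col r.1.1.1 (act g x (r.1.1.2.getD r.2 []))) :=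
    (Del.const (Primrec.nat_lt.comp Primrec.snd (Primrec.list_length.comp p2))).imp
      (Del.eq (SF.const c5) ((hc.par c1).comp ((pf_act hg).par c4)))
  exact SF.sInf h1.all

theorem code_mem (q : List (List ℕ) × List (List ℕ)) (x : B) :
    Encodable.encode (q.2.map fun u => col q.1 (act g x u)) ∈
      {k | ∀ i, i < q.2.length → (wrd k).getD i 0 = col q.1 (act g x (q.2.getD i []))} := by
  intro i hi
  rw [wrd_encode]
  simp [List.getD_eq_getElem?_getD, hi]

theorem key_det (q : List (List ℕ) × List (List ℕ)) {x y : B} (h : key g col q x = key g col q y) :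
    ∀ u ∈ q.2, col q.1 (act g x u) = col q.1 (act g y u) := by
  intro u hu
  obtain ⟨i, hi, rfl⟩ := List.getElem_of_mem hu
  have hx := Nat.sInf_mem ⟨_, code_mem (g := g) (col := col) q x⟩ i hi
  have hy := Nat.sInf_mem ⟨_, code_mem (g := g) (col := col) q y⟩ i hi
  have e : q.2.getD i [] = q.2[i] := by simp [List.getD_eq_getElem?_getD, hi]
  rw [e] at hx hy
  exact hx.symm.trans ((congrArg (fun k => (wrd k).getD i 0) h).trans hy)

theorem key_bdd (hb : ∀ Bw x, col Bw x ≤ Bw.length) (q : List (List ℕ) × List (List ℕ)) :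
    ∃ K, ∀ x, key g col q x < K := by
  obtain ⟨K, hK⟩ := ((wd_finite q.2.length q.1.length).image Encodable.encode).bddAbove
  refine ⟨K + 1, fun x => Nat.lt_succ_of_le ((Nat.sInf_le (code_mem q x)).trans
    (hK ⟨_, ⟨by simp, fun i => ?_⟩, rfl⟩))⟩
  by_cases hi : i < q.2.length
  · simpa [List.getD_eq_getElem?_getD, hi] using hb _ _
  · simp [List.getD_eq_getElem?_getD, hi]

/-- The data coded by `p`. -/
def dat (p : ℕ) : (List (List ℕ) × List (List ℕ)) × List (List ℕ) :=
  (Encodable.decode (α := (List (List ℕ) × List (List ℕ)) × List (List ℕ)) p.unpair.2).getD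
    (([], []), [])

theorem dat_comp : Computable dat :=
  Computable.option_getD (Computable.decode.comp (Computable.snd.comp Computable.unpair))
    (Computable.const _)

theorem dat_pair (R : ℕ) (d : (List (List ℕ) × List (List ℕ)) × List (List ℕ)) :
    dat (Nat.pair R (Encodable.encode d)) = d := by
  simp only [dat, Nat.unpair_pair, Encodable.encodek, Option.getD_some]

end TableAux

open TableAux in
theorem pfTable : stTable := by
  classical
  intro o g hg col hc hb
  refine ⟨fun p x => (dat p).2.getD (key g col (dat p).1 x) [], ?_, ?_⟩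
  · exact SF.map₂ (Primrec.list_getD []) (SF.const (Computable.snd.comp dat_comp))
      ((sf_key hg hc).par (Computable.fst.comp dat_comp))
  · intro Bw Uw R X t ht
    obtain ⟨K, hK⟩ := key_bdd (g := g) hb (Bw, Uw)
    refine ⟨Nat.pair R (Encodable.encode ((Bw, Uw), (List.range K).map fun k =>
      if h : ∃ y, y ∈ X ∧ key g col (Bw, Uw) y = k then t h.choose else [])), by simp, ?_⟩
    intro x hx
    have h : ∃ y, y ∈ X ∧ key g col (Bw, Uw) y = key g col (Bw, Uw) x := ⟨x, hx, rfl⟩
    simp only [dat_pair]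
    rw [List.getD_eq_getElem?_getD, List.getElem?_map, List.getElem?_range (hK x)]
    simp only [Option.map_some, Option.getD_some, dif_pos h]
    exact ht _ h.choose_spec.1 _ hx (key_det (Bw, Uw) h.choose_spec.2)

end Pool.Agent.Lib.MP_5ddd96_lc.W5
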