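import Pool.Agent.Lib.MP_5ddd96_lc.W5.Basic

/-!
Extension by a locally finite kernel of growth below a tower.
-/

set_option autoImplicit false

namespace Pool.Agent.Lib.MP_5ddd96_lc.W5

open Pointwise Pool.Agent.Lib.MP_5ddd96_lc.H74

namespace TorsionAux

theorem card_image_le_of_factor {α β γ : Type} [DecidableEq β] [DecidableEq γ] (s : Finset α)
    (p : α → β) (F : α → γ) (h : ∀ a ∈ s, ∀ b ∈ s, p a = p b → F a = F b) :
    (s.image F).card ≤ (s.image p).card := by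
  classical
  rcases s.eq_empty_or_nonempty with rfl | ⟨a₀, -⟩
  · simp
  let H : β → γ := fun q => if hq : ∃ a ∈ s, p a = q then F hq.choose else F a₀
  refine le_trans (Finset.card_le_card ?_) (Finset.card_image_le (s := s.image p) (f := H))
  intro z hz
  obtain ⟨a, ha, rfl⟩ := Finset.mem_image.1 hz
  have hq : ∃ b ∈ s, p b = p a := ⟨a, ha, rfl⟩
  refine Finset.mem_image.2 ⟨p a, Finset.mem_image_of_mem _ ha, ?_⟩
  simp only [H, dif_pos hq]
  exact h _ hq.choose_spec.1 a ha hq.choose_spec.2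

variable {G : Type} [Group G]

variable {S E : Finset G} {T : Subgroup G}

theorem K_mono {s s' : ℕ} (h : s ≤ s') : conjSpan S E s ≤ conjSpan S E s' :=
  Subgroup.closure_mono fun _ ⟨g, hg, h'⟩ => ⟨g, ball_mono S h hg, h'⟩

theorem K_le [hT : T.Normal] (hE : ∀ e ∈ E, e ∈ T) (s : ℕ) : conjSpan S E s ≤ T :=
  (Subgroup.closure_le _).2 (by
    rintro _ ⟨g, -, e, he, rfl⟩
    exact hT.conj_mem e (hE e he) g)

theorem mem_K (s : ℕ) {t : G} (ht : t ∈ E) : t ∈ conjSpan S E s :=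
  Subgroup.subset_closure ⟨1, one_mem_ball S s, t, ht, by simp⟩

theorem K_conj {s : ℕ} {g k : G} (hg : g ∈ S) (hk : k ∈ conjSpan S E s) :
    g * k * g⁻¹ ∈ conjSpan S E (s + 1) := by
  induction hk using Subgroup.closure_induction with
  | mem x hx =>
    obtain ⟨h, hh, e, he, rfl⟩ := hx
    have h1 : g ∈ ball S 1 := ⟨[g], le_rfl, by simpa using Or.inl hg, by simp⟩
    exact Subgroup.subset_closure ⟨g * h, ball_mono S (by omega) (mul_mem_ball h1 hh), e, he,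
      by group⟩
  | one => simp
  | mul x y _ _ hx hy =>
    have := Subgroup.mul_mem _ hx hy
    rwa [show g * x * g⁻¹ * (g * y * g⁻¹) = g * (x * y) * g⁻¹ by group] at this
  | inv x _ hx =>
    have := Subgroup.inv_mem _ hx
    rwa [show (g * x * g⁻¹)⁻¹ = g * x⁻¹ * g⁻¹ by group] at this

/-- Invariance under `conjSpan S E s`. -/
def Inv (S E : Finset G) {Z : Type} [MulAction G Z] (s : ℕ) (f : Z → ℕ) : Prop :=
  ∀ k ∈ conjSpan S E s, ∀ x, f (k • x) = f x

theorem Inv.mono {Z : Type} [MulAction G Z] {s s' : ℕ} {f : Z → ℕ} (h : Inv S E s' f)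
    (hs : s ≤ s') : Inv S E s f := fun k hk x => h k (K_mono hs hk) x

theorem Inv.step {Z : Type} [MulAction G Z] {s : ℕ} {f : Z → ℕ}
    (h : Inv S E (s + 1) f) (φ : ℕ → Finset ℕ → ℕ) :
    Inv S E s (fun x => φ (f x) (S.image (fun g => f (g • x)))) := by
  intro k hk x
  have e1 : f (k • x) = f x := h k (K_mono (Nat.le_add_right _ _) hk) x
  have e2 : S.image (fun g => f (g • k • x)) = S.image (fun g => f (g • x)) := by
    refine Finset.image_congr fun g hg => ?_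
    have := h _ (K_conj hg hk) (g • x)
    rw [← mul_smul, show g * k * g⁻¹ * g = g * k by group, mul_smul] at this
    exact this
  simp only [e1, e2]

theorem num (t β j : ℕ) (ht : t = tow j) (hβ : β ≤ t * t * t) : β * (2 * β + 4) ≤ tow (j + 5) := by
  have h1 : 1 ≤ t := ht ▸ Nat.succ_le_of_lt (lt_of_le_of_lt (Nat.zero_le _) (lt_tow j))
  have h2 : 6 * t + 3 ≤ tow (j + 4) := by
    have a1 := two_mul_tow_le j
    have a2 := two_mul_tow_le (j + 1)
    have a3 := two_mul_tow_le (j + 2)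
    have a4 := two_mul_tow_le (j + 3)
    simp only [add_assoc] at a2 a3 a4
    norm_num at a2 a3 a4
    omega
  have h3 : t ≤ 2 ^ t := Nat.lt_two_pow_self.le
  have h4 : 1 ≤ t * t * t := Nat.mul_pos (Nat.mul_pos h1 h1) h1
  calc β * (2 * β + 4) ≤ (t * t * t) * (2 * (t * t * t) + 4 * (t * t * t)) :=
        Nat.mul_le_mul hβ (by omega)
    _ = 6 * t ^ 6 := by ring
    _ ≤ 2 ^ 3 * (2 ^ t) ^ 6 := Nat.mul_le_mul (by norm_num) (Nat.pow_le_pow_left h3 6)
    _ = 2 ^ (6 * t + 3) := by ring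
    _ ≤ 2 ^ tow (j + 4) := Nat.pow_le_pow_right (by norm_num) h2
    _ = tow (j + 5) := rfl

end TorsionAux

open TorsionAux

theorem pfTorsion (hS : stSteps) : stTorsion := by
  classical
  intro G _ T _ N C hT hW W
  let π : G →* G ⧸ T := QuotientGroup.mk' T
  let σ : G ⧸ T → G := Quotient.out
  have hσ : ∀ q, π (σ q) = q := fun q => QuotientGroup.out_eq' q
  have hker : ∀ g, π g = 1 ↔ g ∈ T := fun g => QuotientGroup.eq_one_iff g
  obtain ⟨BQ, DQ, hQ⟩ := hW (W.image π)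
  let Rf : Finset G := insert 1 (BQ.image σ ∪
    ((DQ ×ˢ W) ×ˢ (DQ ×ˢ W)).image (fun z => σ z.1.1 * z.1.2 * (σ z.2.1 * z.2.2)⁻¹))
  have hR0 : (1 : G) ∈ Rf := Finset.mem_insert_self _ _
  have hR1 : ∀ b ∈ BQ, σ b ∈ Rf := fun b hb => Finset.mem_insert_of_mem
    (Finset.mem_union_left _ (Finset.mem_image_of_mem _ hb))
  have hR2 : ∀ p ∈ DQ, ∀ w ∈ W, ∀ p' ∈ DQ, ∀ w' ∈ W, σ p * w * (σ p' * w')⁻¹ ∈ Rf :=
    fun p hp w hw p' hp' w' hw' => Finset.mem_insert_of_mem (Finset.mem_union_right _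
      (Finset.mem_image.2 ⟨((p, w), (p', w')), by simp [hp, hw, hp', hw'], rfl⟩))
  let d : ℕ := (Rf.image π).card
  have hd : 1 ≤ d := Finset.card_pos.2 ⟨_, Finset.mem_image_of_mem _ hR0⟩
  obtain ⟨U, τQ, hDU, hτD, hτU, hτC⟩ := hQ (2 ^ (d * (2 * d + 4)))
  let E : Finset G := ((U ×ˢ W).image (fun z => σ z.1 * z.2 * (σ (z.1 * π z.2))⁻¹) ∪
    ((U ×ˢ W) ×ˢ (U ×ˢ W)).image (fun z => σ (z.1.1 * π z.1.2) * (σ (z.2.1 * π z.2.2))⁻¹ *
      (σ (z.1.1 * π z.1.2 * (z.2.1 * π z.2.2)⁻¹))⁻¹) ∪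
    (Rf ×ˢ Rf).image (fun z => z.1 * z.2⁻¹)).filter (fun e => e ∈ T)
  have hE : ∀ e ∈ E, e ∈ T := fun e he => (Finset.mem_filter.1 he).2
  have hT1 : ∀ u ∈ U, ∀ w ∈ W, σ u * w * (σ (u * π w))⁻¹ ∈ conjSpan Rf E 0 :=
    fun u hu w hw => mem_K 0 (Finset.mem_filter.2 ⟨Finset.mem_union_left _
      (Finset.mem_union_left _ (Finset.mem_image.2 ⟨(u, w), by simp [hu, hw], rfl⟩)),
      (hker _).1 (by simp [hσ])⟩)
  have hT2 : ∀ u ∈ U, ∀ w ∈ W, ∀ u' ∈ U, ∀ w' ∈ W, σ (u' * π w') * (σ (u * π w))⁻¹ *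
      (σ (u' * π w' * (u * π w)⁻¹))⁻¹ ∈ conjSpan Rf E 0 :=
    fun u hu w hw u' hu' w' hw' => mem_K 0 (Finset.mem_filter.2 ⟨Finset.mem_union_left _
      (Finset.mem_union_right _
        (Finset.mem_image.2 ⟨((u', w'), (u, w)), by simp [hu, hw, hu', hw'], rfl⟩)),
      (hker _).1 (by simp only [map_mul, map_inv, hσ]; group)⟩)
  have hT3 : ∀ s, ∀ a ∈ Rf, ∀ b ∈ Rf, π a = π b → a * b⁻¹ ∈ conjSpan Rf E s :=
    fun s a ha b hb hab => mem_K s (Finset.mem_filter.2 ⟨Finset.mem_union_right _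
      (Finset.mem_image.2 ⟨(a, b), Finset.mem_product.2 ⟨ha, hb⟩, rfl⟩),
      (hker _).1 (by rw [map_mul, map_inv, hab, mul_inv_cancel])⟩)
  obtain ⟨j, hmj, hKfin, hKcard⟩ := hT Rf E hE (Rf.card + 5)
  let Kf : Finset G := hKfin.toFinset
  have hKf : ∀ g, g ∈ Kf ↔ g ∈ conjSpan Rf E (2 * j) := fun g => Set.Finite.mem_toFinset _
  have hKc : Kf.card ≤ tow j := by
    rw [Set.ncard_eq_toFinset_card _ hKfin] at hKcard; exact hKcard
  let Bs : Finset G := Kf * Rf * Kf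
  have hβ : Bs.card ≤ tow j * tow j * tow j := by
    have h1 : Rf.card ≤ tow j := by have := lt_tow j; omega
    exact (Finset.card_mul_le).trans (Nat.mul_le_mul
      ((Finset.card_mul_le).trans (Nat.mul_le_mul hKc h1)) hKc)
  have hβ1 : 1 ≤ Bs.card := Finset.card_pos.2 ⟨_, Finset.mul_mem_mul (Finset.mul_mem_mul
    ((hKf 1).2 (Subgroup.one_mem _)) hR0)
    ((hKf 1).2 (Subgroup.one_mem _))⟩
  refine ⟨Bs, Kf * DQ.image σ, fun M Z _ c hc hA => ?_⟩
  have hstep : ∀ (F : Finset G) (f : Z → ℕ) (φ : ℕ → Finset ℕ → ℕ), IsLoc G c f →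
      IsLoc G c (fun x => φ (f x) (F.image (fun r => f (r • x)))) := fun F f φ hf =>
    hf.comp₂ (hf.of_nbhd F (h := fun x => F.image (fun r => f (r • x)))
      fun x y h => Finset.image_congr fun r hr => h r hr) φ
  obtain ⟨c1, l1, b1, p1⟩ := hS G Z Bs Bs.card M (fun _ f => IsLoc G c f)
    (fun _ _ f φ hf => hstep Bs f φ hf) (fun _ _ f _ x => Finset.card_image_le) c IsLoc.self
    (fun x => by
      refine (hc x).trans ((lt_tow M).trans (Nat.lt_two_pow_self.trans_le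
        (Nat.pow_le_pow_right (by norm_num) ?_)))
      nlinarith)
  obtain ⟨k, lk, hk⟩ := IsLoc.choice (G := G) (c := c) Kf
    (P := fun k x => ∀ k' ∈ Kf, c1 (k • x) ≤ c1 (k' • x))
    (fun k hk => l1.of_nbhd Kf fun x y h => propext (forall₂_congr fun k' hk' => by
      rw [h k hk, h k' hk']))
    (fun x => Kf.exists_min_image (fun k => c1 (k • x)) ⟨1, (hKf 1).2 (Subgroup.one_mem _)⟩)
  let c0 : Z → ℕ := fun x => c1 (k x • x)
  have l0 : IsLoc G c c0 := l1.dshift Kf lk fun x => (hk x).1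
  have i0 : Inv Rf E (2 * j) c0 := by
    intro k₀ hk₀ x
    refine le_antisymm ?_ ?_
    · have := (hk (k₀ • x)).2 (k x * k₀⁻¹) ((hKf _).2
        (Subgroup.mul_mem _ ((hKf _).1 (hk x).1) (Subgroup.inv_mem _ hk₀)))
      rwa [mul_smul, inv_smul_smul] at this
    · have := (hk x).2 (k (k₀ • x) * k₀) ((hKf _).2
        (Subgroup.mul_mem _ ((hKf _).1 (hk _).1) hk₀))
      rwa [mul_smul] at this
  obtain ⟨cn, ⟨ln, inn⟩, bn, pn⟩ := hS G Z Rf d (j + 5)
    (fun i f => IsLoc G c f ∧ Inv Rf E (j + 5 - i) f)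
    (fun i hi f φ hf => ⟨hstep Rf f φ hf.1, Inv.step (hf.2.mono (by omega)) φ⟩)
    (fun i _ f hf x => card_image_le_of_factor Rf π _ fun a ha b hb hab => by
      have := hf.2 _ (hT3 _ a ha b hb hab) (b • x)
      rwa [mul_smul, inv_smul_smul] at this)
    c0 ⟨l0, i0.mono (by omega)⟩
    (fun x => by
      refine (b1 _).trans_le (Nat.pow_le_pow_right (by norm_num) ?_)
      refine (num _ _ j rfl hβ).trans ?_
      nlinarith)
  rw [Nat.sub_self] at inn
  have key : ∀ r ∈ Rf, ∀ x, cn (r • x) = cn x →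
      c (k (r • x) • r • x) = c (k x • x) ∧ π r ∈ N := by
    intro r hr x h
    have hb : k (r • x) * r * (k x)⁻¹ ∈ Bs := Finset.mul_mem_mul
      (Finset.mul_mem_mul (hk _).1 hr) ((hKf _).2 (Subgroup.inv_mem _ ((hKf _).1 (hk x).1)))
    have e : (k (r • x) * r * (k x)⁻¹) • k x • x = k (r • x) • r • x := by
      rw [mul_smul, inv_smul_smul, mul_smul]
    have h1 := p1 (k x • x) _ hb (by rw [e]; exact pn x r hr h)
    refine ⟨by rw [← e]; exact h1, ?_⟩
    have h2 : π (k (r • x) * r * (k x)⁻¹) ∈ N := hA _ _ hb h1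
    rwa [map_mul, map_mul, map_inv, (hker _).2 (K_le hE _ ((hKf _).1 (hk _).1)),
      (hker _).2 (K_le hE _ ((hKf _).1 (hk _).1)), one_mul, inv_one, mul_one] at h2
  let ω : Z → (G ⧸ T) → ℕ := fun x q => cn (σ q • x)
  have lp : IsLoc G c (fun x => σ (τQ (ω x))) :=
    (IsLoc.of_fin U (f := fun q x => cn (σ q • x)) (fun q _ => ln.shift _)
      (h := fun x => τQ (ω x)) fun x y h => hτU _ _ h).comp σ
  have hpD : ∀ x, σ (τQ (ω x)) ∈ DQ.image σ := fun x => Finset.mem_image_of_mem _ (hτD _)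
  refine ⟨fun x => k (σ (τQ (ω x)) • x) * σ (τQ (ω x)),
    fun x => Finset.mul_mem_mul (hk _).1 (hpD x),
    (lk.dshift _ lp hpD).comp₂ lp (fun a b => a * b), fun x => ?_⟩
  have hview : ∀ w ∈ W, ∀ u ∈ U, ω (w • x) u = ω x (u * π w) := by
    intro w hw u hu
    have := inn _ (hT1 u hu w hw) (σ (u * π w) • x)
    rw [mul_smul, inv_smul_smul, mul_smul] at this
    exact this
  have hτ : ∀ w ∈ W, τQ (ω (w • x)) = τQ (fun q => ω x (q * π w)) :=
    fun w hw => hτU _ _ (hview w hw)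
  have hC := hτC (ω x) (fun _ _ _ _ => bn _) (by
    intro u hu wq hwq u' hu' wq' hwq' hb h
    obtain ⟨w, hw, rfl⟩ := Finset.mem_image.1 hwq
    obtain ⟨w', hw', rfl⟩ := Finset.mem_image.1 hwq'
    have h1 := inn _ (hT2 u hu w hw u' hu' w' hw')
      (σ (u' * π w' * (u * π w)⁻¹) • σ (u * π w) • x)
    rw [mul_smul, inv_smul_smul, mul_smul, inv_smul_smul] at h1
    have h2 := (key _ (hR1 _ hb) (σ (u * π w) • x) (h1.symm.trans h)).2
    rwa [hσ] at h2)
  rw [Finset.image_image] at hC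
  refine le_trans (card_image_le_of_factor W _ _ fun w hw w' hw' h => ?_) hC
  simp only [Function.comp] at h
  rw [← hτ w hw, ← hτ w' hw', ← hview w hw _ (hDU (hτD _)), ← hview w' hw' _ (hDU (hτD _))] at h
  have e : (σ (τQ (ω (w • x))) * w * (σ (τQ (ω (w' • x))) * w')⁻¹) •
      σ (τQ (ω (w' • x))) • w' • x = σ (τQ (ω (w • x))) • w • x := by
    rw [← mul_smul (σ (τQ (ω (w' • x)))), mul_smul, inv_smul_smul, mul_smul]
  have h1 := (key _ (hR2 _ (hτD (ω (w • x))) w hw _ (hτD (ω (w' • x))) w' hw')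
    (σ (τQ (ω (w' • x))) • w' • x) (by rw [e]; exact h)).1
  rw [e] at h1
  simp only [mul_smul]
  exact h1

end Pool.Agent.Lib.MP_5ddd96_lc.W5
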