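import Pool.Agent.Lib.MP_5ddd96_lc.W5.Basic

/-!
The union theorem for the family of tie breaking maps.
-/

set_option autoImplicit false

namespace Pool.Agent.Lib.MP_5ddd96_lc.W5

open Pointwise Pool.Agent.Lib.MP_5ddd96_lc.H74

namespace UnionAux

variable {Z : Type}

theorem it_add (μ : ℕ → ℕ → Z → Z) (n j J k : ℕ) (y : Z) :
    it μ n j (J + k) y = it μ n (j + J) k (it μ n j J y) := by
  induction k with
  | zero => rfl
  | succ k ih =>
    show μ n (j + (J + k)) (it μ n j (J + k) y) =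
      μ n (j + J + k) (it μ n (j + J) k (it μ n j J y))
    rw [ih, Nat.add_assoc]

theorem ff_step (μ : ℕ → ℕ → Z → Z) {n j : ℕ} (h : j < n) (y : Z) :
    ff μ n j y = ff μ n (j + 1) (μ n j y) := by
  have e : n - j = 1 + (n - (j + 1)) := by omega
  unfold ff
  rw [e, it_add]
  rfl

theorem ff_zero (μ : ℕ → ℕ → Z → Z) {n J : ℕ} (h : J ≤ n) (y : Z) :
    ff μ n 0 y = ff μ n J (it μ n 0 J y) := by
  have e : n - 0 = J + (n - J) := by omega
  unfold ff
  rw [e, it_add, Nat.zero_add]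

theorem pow_lt {H e e' d d' : ℕ} (h : e < e') (hd' : 1 ≤ d') (hd : d < H) :
    d * H ^ e < d' * H ^ e' := by
  have hH : 0 < H := by omega
  have h1 : d * H ^ e < H * H ^ e := Nat.mul_lt_mul_of_pos_right hd (Nat.pow_pos hH)
  have h2 : H * H ^ e ≤ H ^ e' := by
    rw [← pow_succ']
    exact Nat.pow_le_pow_right hH h
  have h3 : H ^ e' ≤ d' * H ^ e' := Nat.le_mul_of_pos_left _ hd'
  omega

theorem arith {a H e e' i i' d d' u u' : ℕ} (hne : e ≠ e') (hd : 1 ≤ d) (hd' : 1 ≤ d')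
    (hdH : d < H) (hdH' : d' < H)
    (h1 : u' + (4 * a + 1) * i' * H ^ e' ≤ u + (4 * a + 1) * i * H ^ e)
    (h2 : u + (4 * a + 1) * i * H ^ e ≤ u' + (4 * a + 1) * i' * H ^ e' + 4 * a)
    (h3 : u' + (4 * a + 1) * (i' + d') * H ^ e' ≤ u + (4 * a + 1) * (i + d) * H ^ e)
    (h4 : u + (4 * a + 1) * (i + d) * H ^ e ≤ u' + (4 * a + 1) * (i' + d') * H ^ e' + 4 * a) :
    False := by
  have e1 : (4 * a + 1) * (i + d) * H ^ e =
      (4 * a + 1) * i * H ^ e + (4 * a + 1) * (d * H ^ e) := by ring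
  have e2 : (4 * a + 1) * (i' + d') * H ^ e' =
      (4 * a + 1) * i' * H ^ e' + (4 * a + 1) * (d' * H ^ e') := by ring
  rw [e1, e2] at h3 h4
  rcases Nat.lt_or_gt_of_ne hne with h | h
  · have h5 : d * H ^ e + 1 ≤ d' * H ^ e' := pow_lt h hd' hdH
    have h6 := Nat.mul_le_mul_left (4 * a + 1) h5
    rw [Nat.mul_add, Nat.mul_one] at h6
    omega
  · have h5 : d' * H ^ e' + 1 ≤ d * H ^ e := pow_lt h hd hdH'
    have h6 := Nat.mul_le_mul_left (4 * a + 1) h5
    rw [Nat.mul_add, Nat.mul_one] at h6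
    omega

theorem wt_lt {N N' a j i e : ℕ} (hi : i < N' ^ 2 + j + 3) (he : e ≤ N) :
    wt N' a j i e + 4 * a < kk N N' a j := by
  unfold wt kk
  have hH : 0 < N' ^ 2 + j + 3 := by omega
  have h1 : i * (N' ^ 2 + j + 3) ^ e ≤ (N' ^ 2 + j + 3) ^ (N + 1) := by
    rw [pow_succ' (N' ^ 2 + j + 3) N]
    exact Nat.mul_le_mul hi.le (Nat.pow_le_pow_right hH he)
  have h2 := Nat.mul_le_mul_left (4 * a + 1) h1
  rw [← Nat.mul_assoc] at h2
  omega

/-- The stage `n` is active at `z`. -/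
def Act (nr : ℕ → Z → Z → Prop) (D : ℕ) (μ : ℕ → ℕ → Z → Z) (n j : ℕ) (z : Z) : Prop :=
  ∃ y, nr (2 * D) z y ∧ ff μ n (j + 1) y ≠ ff μ n (j + 1) z

theorem io_lt (nr : ℕ → Z → Z → Prop) (D : ℕ) (μ : ℕ → ℕ → Z → Z) {n n' : ℕ} (j : ℕ) (z : Z)
    (h : n < n') (hz : Act nr D μ n j z) : io nr D μ n j z < io nr D μ n' j z := by
  classical
  unfold io
  apply Finset.card_lt_card
  rw [Finset.ssubset_iff_of_subset]
  · refine ⟨n, ?_, ?_⟩
    · rw [Finset.mem_filter]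
      exact ⟨Finset.mem_range.2 h, hz⟩
    · rw [Finset.mem_filter]
      exact fun hh => lt_irrefl _ (Finset.mem_range.1 hh.1)
  · intro m hm
    rw [Finset.mem_filter] at hm ⊢
    exact ⟨Finset.mem_range.2 ((Finset.mem_range.1 hm.1).trans h), hm.2⟩

/-- The stage `n` is not constant on the ball of radius `r` about `x`. -/
def Hit (nr : ℕ → Z → Z → Prop) (r : ℕ) (μ : ℕ → ℕ → Z → Z) (n j : ℕ) (x : Z) : Prop :=
  j < n ∧ ∃ y, nr r x y ∧ ff μ n j y ≠ ff μ n j x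

theorem io_le (nr nr' : ℕ → Z → Z → Prop) (D r : ℕ) (μ : ℕ → ℕ → Z → Z) {n n₀ : ℕ} (j K : ℕ)
    (z : Z) (h : n ≤ n₀) (hr : ∀ y, nr (2 * D) z y → nr' r z y)
    (hK : {m | m < n₀ ∧ Hit nr' r μ m (j + 1) z}.ncard ≤ K) : io nr D μ n j z < K + j + 3 := by
  classical
  have hfin : {m | m < n₀ ∧ Hit nr' r μ m (j + 1) z}.Finite :=
    (Set.finite_lt_nat n₀).subset fun _ hm => hm.1
  have h1 : io nr D μ n j z ≤ (hfin.toFinset ∪ Finset.range (j + 2)).card := by
    unfold io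
    apply Finset.card_le_card
    intro m hm
    rw [Finset.mem_filter] at hm
    obtain ⟨hm1, y, hy1, hy2⟩ := hm
    rw [Finset.mem_union]
    by_cases hj : j + 1 < m
    · left
      rw [Set.Finite.mem_toFinset]
      exact ⟨(Finset.mem_range.1 hm1).trans_le h, hj, y, hr y hy1, hy2⟩
    · right
      rw [Finset.mem_range]
      omega
  have h2 := Finset.card_union_le hfin.toFinset (Finset.range (j + 2))
  rw [Finset.card_range, ← Set.ncard_eq_toFinset_card _ hfin] at h2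
  omega

/-- One level of the downward induction. -/
theorem level (nr : ℕ → Z → Z → Prop) (hn : IsNear nr) (O : Set Z)
    (hO : ∀ r x y, x ∈ O → nr r x y → y ∈ O) (N N' a D j n₀ : ℕ) (s : ℕ → Z → ℕ)
    (rep : ℕ → Z → Z) (μ : ℕ → ℕ → Z → Z)
    (S1 : ∀ e r x y, x ∈ O → nr r x y → s e x ≤ s e y + 2 * r)
    (S2 : ∀ x, x ∈ O → ∃ e, 1 ≤ e ∧ e ≤ N ∧ kk N N' a j ≤ s e x)
    (S3 : ∀ e x, x ∈ O → nr D x (rep e x))
    (S4 : ∀ e r x y, x ∈ O → nr r x y → 2 * r < s e x → rep e y = rep e x)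
    (hμ : ∀ n x, x ∈ O → ∃ e, 1 ≤ e ∧ e ≤ N ∧ μ n j x = rep e x ∧ ∀ e', 1 ≤ e' → e' ≤ N →
      s e' x + wt N' a j (io nr D μ n j (rep e' x)) e' ≤
        s e x + wt N' a j (io nr D μ n j (rep e x)) e)
    (hio : ∀ n z, n < n₀ → z ∈ O → io nr D μ n j z < N' ^ 2 + j + 3)
    (x : Z) (hx : x ∈ O) : {n | n < n₀ ∧ Hit nr a μ n j x}.ncard ≤ N ^ 2 := by
  classical
  have key : ∀ n, n < n₀ ∧ Hit nr a μ n j x → ∃ p : ℕ × ℕ,
      p ∈ Finset.Icc 1 N ×ˢ Finset.Icc 1 N ∧ p.1 ≠ p.2 ∧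
      Act nr D μ n j (rep p.1 x) ∧ Act nr D μ n j (rep p.2 x) ∧
      s p.2 x + wt N' a j (io nr D μ n j (rep p.2 x)) p.2 ≤
        s p.1 x + wt N' a j (io nr D μ n j (rep p.1 x)) p.1 ∧
      s p.1 x + wt N' a j (io nr D μ n j (rep p.1 x)) p.1 ≤
        s p.2 x + wt N' a j (io nr D μ n j (rep p.2 x)) p.2 + 4 * a := by
    rintro n ⟨hn0, hjn, y, hy, hne⟩
    choose! win hwin using hμ n
    have hyO := hO a x y hx hy
    obtain ⟨t1, t2, t3⟩ := tie (fun y => nr a x y) x N a (kk N N' a j) s rep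
      (fun e z => wt N' a j (io nr D μ n j z) e) win (hn.refl a x)
      (fun e y hy => ⟨S1 e a x y hx hy, S1 e a y x (hO a x y hx hy) (hn.symm hy)⟩)
      (fun y hy => S2 y (hO a x y hx hy))
      (fun e y hy h => S4 e a x y hx hy h)
      (fun e y hy _ h2 => wt_lt (hio n _ hn0
        (hO D y _ (hO a x y hx hy) (S3 e y (hO a x y hx hy)))) h2)
      (fun y hy => ⟨(hwin y (hO a x y hx hy)).1, (hwin y (hO a x y hx hy)).2.1,
        (hwin y (hO a x y hx hy)).2.2.2⟩) y hy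
    rw [ff_step μ hjn y, ff_step μ hjn x, (hwin y hyO).2.2.1, (hwin x hx).2.2.1, t1] at hne
    have hnear : ∀ e e', nr (2 * D) (rep e x) (rep e' x) := fun e e' =>
      hn.mono (by omega) (hn.trans (hn.symm (S3 e x hx)) (S3 e' x hx))
    refine ⟨(win x, win y), ?_, ?_, ⟨_, hnear _ _, hne⟩, ⟨_, hnear _ _, hne.symm⟩, t2, t3⟩
    · rw [Finset.mem_product, Finset.mem_Icc, Finset.mem_Icc]
      exact ⟨⟨(hwin x hx).1, (hwin x hx).2.1⟩, (hwin y hyO).1, (hwin y hyO).2.1⟩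
    · intro h
      apply hne
      have h' : win x = win y := h
      rw [h']
  choose! P hP using key
  have two : ∀ n n', n < n₀ ∧ Hit nr a μ n j x → n' < n₀ ∧ Hit nr a μ n' j x → n < n' →
      P n ≠ P n' := by
    intro n n' h h' hlt he
    obtain ⟨-, hne, a1, a2, i1, i2⟩ := hP n h
    obtain ⟨-, -, -, -, i3, i4⟩ := hP n' h'
    rw [← he] at i3 i4
    have l1 := io_lt nr D μ j _ hlt a1
    have l2 := io_lt nr D μ j _ hlt a2
    have u1 := hio n' _ h'.1 (hO D x _ hx (S3 (P n).1 x hx))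
    have u2 := hio n' _ h'.1 (hO D x _ hx (S3 (P n).2 x hx))
    obtain ⟨d, hd⟩ := Nat.exists_eq_add_of_le l1.le
    obtain ⟨d', hd'⟩ := Nat.exists_eq_add_of_le l2.le
    rw [hd, hd'] at i3 i4
    unfold wt at i1 i2 i3 i4
    exact arith hne (by omega) (by omega) (by omega) (by omega) i1 i2 i3 i4
  have hcard : ((Finset.Icc 1 N ×ˢ Finset.Icc 1 N : Finset (ℕ × ℕ)) : Set (ℕ × ℕ)).ncard
      = N ^ 2 := by
    rw [Set.ncard_coe_finset, Finset.card_product, Nat.card_Icc, Nat.add_sub_cancel, pow_two]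
  rw [← hcard]
  refine Set.ncard_le_ncard_of_injOn P (fun n h => Finset.mem_coe.2 (hP n h).1) ?_
    (Finset.finite_toSet _)
  intro n h n' h' he
  rcases lt_trichotomy n n' with hlt | heq | hlt
  · exact absurd he (two n n' h h' hlt)
  · exact heq
  · exact absurd he.symm (two n' n h' h hlt)

theorem bounded {E : ℕ → Prop} {K : ℕ} (h : ∀ n₀, {n | n < n₀ ∧ E n}.ncard ≤ K) :
    ∃ n₀, ∀ n, n₀ ≤ n → ¬ E n := by
  by_contra hc
  have hc' : ∀ n₀, ∃ n, n₀ ≤ n ∧ E n := fun n₀ => by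
    by_contra h2
    exact hc ⟨n₀, fun n hn hE => h2 ⟨n, hn, hE⟩⟩
  have grow : ∀ k, ∃ n₀, k ≤ {n | n < n₀ ∧ E n}.ncard := by
    intro k
    induction k with
    | zero => exact ⟨0, Nat.zero_le _⟩
    | succ k ih =>
      obtain ⟨n₀, h0⟩ := ih
      obtain ⟨n, hn, hE⟩ := hc' n₀
      refine ⟨n + 1, ?_⟩
      have hfin : {m | m < n + 1 ∧ E m}.Finite :=
        (Set.finite_lt_nat (n + 1)).subset fun _ hm => hm.1
      have hss : {m | m < n₀ ∧ E m} ⊂ {m | m < n + 1 ∧ E m} := by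
        refine ⟨fun m hm => ⟨lt_of_lt_of_le hm.1 (hn.trans (Nat.le_succ n)), hm.2⟩, fun hh => ?_⟩
        have := (hh (show n ∈ {m | m < n + 1 ∧ E m} from ⟨Nat.lt_succ_self n, hE⟩)).1
        omega
      have := Set.ncard_lt_ncard hss hfin
      omega
  obtain ⟨n₀, h0⟩ := grow (K + 1)
  have := h n₀
  omega

end UnionAux

open UnionAux in
theorem pfUnion : stUnion := by
  intro Z nr hn hup O hO N a D s rep μ ha S1 S2 S3 S4 hμ
  have up : ∀ j k r x y, nr j r x y → nr (j + k) r x y := by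
    intro j k r x y h
    induction k with
    | zero => exact h
    | succ k ih => exact hup _ _ _ _ ih
  -- displacement of the first `k` steps
  have disp : ∀ n k, ∃ b, k + 2 * b ≤ a k ∧ ∀ y, y ∈ O → nr k b y (it μ n 0 k y) := by
    intro n k
    induction k with
    | zero => exact ⟨0, Nat.zero_le _, fun y _ => (hn 0).refl 0 y⟩
    | succ k ih =>
      obtain ⟨b, hb, h⟩ := ih
      refine ⟨b + D k, by rw [ha]; omega, fun y hy => hup _ _ _ _ ?_⟩
      have hz := hO _ _ _ _ hy (h y hy)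
      obtain ⟨e, -, -, he, -⟩ := hμ n k _ hz
      have e1 : it μ n 0 (k + 1) y = rep k e (it μ n 0 k y) := by
        rw [← he]
        show μ n (0 + k) (it μ n 0 k y) = _
        rw [Nat.zero_add]
      rw [e1]
      exact (hn k).trans (h y hy) (S3 k e _ hz)
  have claim : ∀ n₀ d j, n₀ ≤ j + d → ∀ x, x ∈ O →
      {n | n < n₀ ∧ Hit (nr j) (a j) μ n j x}.ncard ≤ N j ^ 2 := by
    intro n₀ d
    induction d with
    | zero =>
      intro j hj x _
      have : {n | n < n₀ ∧ Hit (nr j) (a j) μ n j x} = ∅ := by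
        apply Set.eq_empty_of_forall_notMem
        rintro n ⟨h1, h2, -⟩
        omega
      rw [this, Set.ncard_empty]
      exact Nat.zero_le _
    | succ d ih =>
      intro j hj x hx
      refine level (nr j) (hn j) O (hO j) (N j) (N (j + 1)) (a j) (D j) j n₀ (s j) (rep j) μ
        (S1 j) (S2 j) (S3 j) (S4 j) (fun n => hμ n j) (fun n z hn0 hz => ?_) x hx
      exact io_le (nr j) (nr (j + 1)) (D j) (a (j + 1)) μ j _ z hn0.le
        (fun y hy => (hn (j + 1)).mono (by rw [ha]; omega) (hup _ _ _ _ hy))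
        (ih (j + 1) (by omega) z hz)
  refine ⟨fun n x hx => ?_, fun j r x y hx hxy => ?_⟩
  · obtain ⟨b, hb, h⟩ := disp n n
    exact (hn n).mono (by omega) (h x hx)
  · obtain ⟨n₀, h0⟩ := bounded (E := fun n => Hit (nr (j + r)) (a (j + r)) μ n (j + r) x)
      (fun n₀ => claim n₀ n₀ (j + r) (Nat.le_add_left _ _) x hx)
    refine ⟨n₀ + (j + r) + 1, fun n hn0 => ?_⟩
    have hJ : j + r < n := by omega
    have hc : ∀ z, nr (j + r) (a (j + r)) x z → ff μ n (j + r) z = ff μ n (j + r) x := by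
      intro z hz
      by_contra hne
      exact h0 n (by omega) ⟨hJ, z, hz, hne⟩
    obtain ⟨b, hb, h2⟩ := disp n (j + r)
    rw [ff_zero μ hJ.le x, ff_zero μ hJ.le y, hc _ ((hn _).mono (by omega) (h2 x hx)),
      hc _ ((hn _).mono (by omega)
        ((hn _).trans (up j r r x y hxy) (h2 y (hO _ _ _ _ hx hxy))))]

end Pool.Agent.Lib.MP_5ddd96_lc.W5
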