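import Pool.Agent.Lib.MP_5ddd96_lc.W5.Basic

/-!
The window form of local labellings.
-/

set_option autoImplicit false

namespace Pool.Agent.Lib.MP_5ddd96_lc.W5

open Pointwise Pool.Agent.Lib.MP_5ddd96_lc.H74

namespace WinAux

/-- A countable group has a proper colouring along a finite set with finitely many colours. -/
theorem exists_col (Q : Type) [Group Q] [Countable Q] (Bs : Finset Q) :
    ∃ (K : ℕ) (col : Q → ℕ), (∀ q, col q < K) ∧
      ∀ q, ∀ b ∈ Bs, col (b * q) = col q → b = 1 := by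
  classical
  obtain ⟨e, he⟩ := exists_injective_nat Q
  let F : Finset Q := Bs ∪ Bs.image (fun b => b⁻¹)
  let col : Q → ℕ := (InvImage.wf e (wellFounded_lt (α := ℕ))).fix
    (fun q ih => sInf {k | ∀ b ∈ F, ∀ h : e (b * q) < e q, ih (b * q) h ≠ k})
  have hcol : ∀ q, col q = sInf {k | ∀ b ∈ F, e (b * q) < e q → col (b * q) ≠ k} :=
    fun q => WellFounded.fix_eq _ _ q
  have hex : ∀ q, ∃ k, k < F.card + 1 ∧ ∀ b ∈ F, e (b * q) < e q → col (b * q) ≠ k := by
    intro q
    have hlt : (F.image (fun b => col (b * q))).card < (Finset.range (F.card + 1)).card := by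
      rw [Finset.card_range]
      exact Nat.lt_succ_of_le Finset.card_image_le
    obtain ⟨k, hk, hk'⟩ := Finset.exists_mem_notMem_of_card_lt_card hlt
    exact ⟨k, Finset.mem_range.1 hk, fun b hb _ h => hk' (Finset.mem_image.2 ⟨b, hb, h⟩)⟩
  have hmem : ∀ q, ∀ b ∈ F, e (b * q) < e q → col (b * q) ≠ col q := by
    intro q
    obtain ⟨k, -, hk⟩ := hex q
    have : sInf {k | ∀ b ∈ F, e (b * q) < e q → col (b * q) ≠ k} ∈
        {k | ∀ b ∈ F, e (b * q) < e q → col (b * q) ≠ k} := Nat.sInf_mem ⟨k, hk⟩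
    rw [← hcol q] at this
    exact this
  refine ⟨F.card + 1, col, fun q => ?_, fun q b hb h => ?_⟩
  · obtain ⟨k, hk, hk'⟩ := hex q
    rw [hcol q]
    exact lt_of_le_of_lt (Nat.sInf_le hk') hk
  · rcases lt_trichotomy (e (b * q)) (e q) with h1 | h1 | h1
    · exact absurd h (hmem q b (Finset.mem_union_left _ hb) h1)
    · exact mul_eq_right.1 (he h1)
    · have hb' : b⁻¹ ∈ F := Finset.mem_union_right _ (Finset.mem_image_of_mem _ hb)
      have := hmem (b * q) b⁻¹ hb' (by rwa [inv_mul_cancel_left])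
      rw [inv_mul_cancel_left] at this
      exact absurd h.symm this

/-- Bounded admissible colourings of the group. -/
def Cf {Q : Type} [Group Q] (N : Subgroup Q) (Bs : Finset Q) (K : ℕ) : Type :=
  {ω : Q → ℕ // (∀ h, ω h < K) ∧ ∀ h, ∀ b ∈ Bs, ω (b * h) = ω h → b ∈ N}

/-- The shift action. -/
@[reducible] def cfAct {Q : Type} [Group Q] (N : Subgroup Q) (Bs : Finset Q) (K : ℕ) :
    MulAction Q (Cf N Bs K) where
  smul g ω := ⟨fun h => ω.1 (h * g), fun h => ω.2.1 _, fun h b hb e =>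
    ω.2.2 (h * g) b hb (by rw [← mul_assoc]; exact e)⟩
  one_smul ω := Subtype.ext (funext fun h => congrArg ω.1 (mul_one h))
  mul_smul g g' ω := Subtype.ext (funext fun h => congrArg ω.1 (mul_assoc h g g').symm)

end WinAux

open WinAux in
theorem pfWin : stWin := by
  classical
  intro Q _ _ N C hZ W
  obtain ⟨Bs, D, hD⟩ := hZ W
  refine ⟨Bs, D, fun M => ?_⟩
  obtain ⟨K, col, hK, hcol⟩ := exists_col Q Bs
  letI : MulAction Q (Cf N Bs (M + K)) := cfAct N Bs (M + K)
  have hsm : ∀ (g : Q) (z : Cf N Bs (M + K)) (h : Q), (g • z).1 h = z.1 (h * g) :=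
    fun _ _ _ => rfl
  obtain ⟨τ, hτD, ⟨U₀, hU₀⟩, hC⟩ := hD (M + K) (Cf N Bs (M + K)) (fun z => z.1 1)
    (fun z => z.2.1 1) (fun z b hb h => z.2.2 1 b hb (by
      have h' : z.1 (1 * b) = z.1 1 := h
      rwa [one_mul, ← mul_one b] at h'))
  have hloc : ∀ z z' : Cf N Bs (M + K), (∀ u ∈ U₀ ∪ D, z.1 u = z'.1 u) → τ z = τ z' := by
    intro z z' h
    refine hU₀ z z' fun u hu => ?_
    show z.1 (1 * u) = z'.1 (1 * u)
    rw [one_mul]
    exact h u (Finset.mem_union_left _ hu)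
  let z₀ : Cf N Bs (M + K) := ⟨fun q => M + col q, fun q => Nat.add_lt_add_left (hK q) M,
    fun q b hb h => by
      rw [hcol q b hb (Nat.add_left_cancel h)]; exact N.one_mem⟩
  let t : (Q → ℕ) → Q := fun ω =>
    if h : ∃ z : Cf N Bs (M + K), ∀ u ∈ U₀ ∪ D, z.1 u = ω u then τ (Classical.choose h) else τ z₀
  have ht : ∀ (ω : Q → ℕ) (z : Cf N Bs (M + K)), (∀ u ∈ U₀ ∪ D, z.1 u = ω u) → t ω = τ z := by
    intro ω z hz
    have h : ∃ z : Cf N Bs (M + K), ∀ u ∈ U₀ ∪ D, z.1 u = ω u := ⟨z, hz⟩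
    show (if h : ∃ z : Cf N Bs (M + K), ∀ u ∈ U₀ ∪ D, z.1 u = ω u then τ (Classical.choose h)
      else τ z₀) = τ z
    rw [dif_pos h]
    exact hloc _ _ fun u hu => (Classical.choose_spec h u hu).trans (hz u hu).symm
  have ht' : ∀ ω : Q → ℕ, (¬ ∃ z : Cf N Bs (M + K), ∀ u ∈ U₀ ∪ D, z.1 u = ω u) → t ω = τ z₀ :=
    fun ω h => dif_neg h
  refine ⟨U₀ ∪ D, t, Finset.subset_union_right, fun ω => ?_, fun ω ω' h => ?_,
    fun ω hM hA => ?_⟩
  · by_cases h : ∃ z : Cf N Bs (M + K), ∀ u ∈ U₀ ∪ D, z.1 u = ω u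
    · obtain ⟨z, hz⟩ := h
      rw [ht ω z hz]; exact hτD z
    · rw [ht' ω h]; exact hτD z₀
  · by_cases h1 : ∃ z : Cf N Bs (M + K), ∀ u ∈ U₀ ∪ D, z.1 u = ω u
    · obtain ⟨z, hz⟩ := h1
      rw [ht ω z hz, ht ω' z fun u hu => (hz u hu).trans (h u hu)]
    · rw [ht' ω h1, ht' ω' fun ⟨z, hz⟩ => h1 ⟨z, fun u hu => (hz u hu).trans (h u hu).symm⟩]
  · let P : Q → Prop := fun q => ∃ u ∈ U₀ ∪ D, ∃ w ∈ W, q = u * w
    have hP : ∀ q, P q → ω q < M := by
      rintro q ⟨u, hu, w, hw, rfl⟩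
      exact hM u hu w hw
    let z : Cf N Bs (M + K) := ⟨fun q => if P q then ω q else M + col q, fun q => by
        by_cases h : P q
        · simp only [if_pos h]; exact (hP q h).trans_le (Nat.le_add_right _ _)
        · simp only [if_neg h]; exact Nat.add_lt_add_left (hK q) M,
      fun q b hb e => by
        by_cases h1 : P (b * q) <;> by_cases h2 : P q
        · simp only [if_pos h1, if_pos h2] at e
          obtain ⟨u', hu', w', hw', e1⟩ := h1
          obtain ⟨u, hu, w, hw, e2⟩ := h2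
          have hb' : u' * w' * (u * w)⁻¹ = b := by rw [← e1, ← e2, mul_inv_cancel_right]
          rw [← hb']
          exact hA u hu w hw u' hu' w' hw' (by rw [hb']; exact hb) (by rw [← e1, ← e2]; exact e)
        · simp only [if_pos h1, if_neg h2] at e
          have := hP _ h1
          omega
        · simp only [if_neg h1, if_pos h2] at e
          have := hP _ h2
          omega
        · simp only [if_neg h1, if_neg h2] at e
          rw [hcol q b hb (Nat.add_left_cancel e)]; exact N.one_mem⟩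
    have hz : ∀ u ∈ U₀ ∪ D, ∀ w ∈ W, z.1 (u * w) = ω (u * w) :=
      fun u hu w hw => if_pos ⟨u, hu, w, hw, rfl⟩
    refine le_of_eq_of_le (congrArg Finset.card (Finset.image_congr fun w hw => ?_)) (hC z)
    have hw' : w ∈ W := hw
    have e1 : t (fun q => ω (q * w)) = τ (w • z) :=
      ht _ (w • z) fun u hu => (hsm w z u).trans (hz u hu w hw')
    show ω (t (fun q => ω (q * w)) * w) = z.1 (1 * τ (w • z) * w)
    rw [e1, one_mul]
    exact (hz _ (Finset.mem_union_right _ (hτD _)) w hw').symm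

end Pool.Agent.Lib.MP_5ddd96_lc.W5
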