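import Pool.Agent.Lib.MP_5ddd96_lc.W5.Col
import Pool.Agent.Lib.MP_5ddd96_lc.W5.Colour
import Pool.Agent.Lib.MP_5ddd96_lc.W5.DefLevel
import Pool.Agent.Lib.MP_5ddd96_lc.W5.DefPar
import Pool.Agent.Lib.MP_5ddd96_lc.W5.Eff
import Pool.Agent.Lib.MP_5ddd96_lc.W5.Fine
import Pool.Agent.Lib.MP_5ddd96_lc.W5.Gen
import Pool.Agent.Lib.MP_5ddd96_lc.W5.Level
import Pool.Agent.Lib.MP_5ddd96_lc.W5.Linial
import Pool.Agent.Lib.MP_5ddd96_lc.W5.Main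
import Pool.Agent.Lib.MP_5ddd96_lc.W5.Mu
import Pool.Agent.Lib.MP_5ddd96_lc.W5.Net
import Pool.Agent.Lib.MP_5ddd96_lc.W5.OrbRec
import Pool.Agent.Lib.MP_5ddd96_lc.W5.Pack
import Pool.Agent.Lib.MP_5ddd96_lc.W5.Poly
import Pool.Agent.Lib.MP_5ddd96_lc.W5.PropD
import Pool.Agent.Lib.MP_5ddd96_lc.W5.Rank
import Pool.Agent.Lib.MP_5ddd96_lc.W5.Spec
import Pool.Agent.Lib.MP_5ddd96_lc.W5.Steps
import Pool.Agent.Lib.MP_5ddd96_lc.W5.Table
import Pool.Agent.Lib.MP_5ddd96_lc.W5.Tame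
import Pool.Agent.Lib.MP_5ddd96_lc.W5.Torsion
import Pool.Agent.Lib.MP_5ddd96_lc.W5.Union
import Pool.Agent.Lib.MP_5ddd96_lc.W5.Win

/-!
Assembly.
-/

set_option autoImplicit false

namespace Pool.Agent.Lib.MP_5ddd96_lc.W5

theorem eff : stEff :=
  pfEff pfLevel pfUnion pfDefLevel (pfDefPar pfDefLevel) pfSpec (pfMu pfOrbRec)

theorem rank : stRank :=
  pfRank pfNet pfColour pfPack (pfGen pfNet pfColour pfPack (pfFine pfNet pfPack pfLevel))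

theorem tame : stTame :=
  pfTame (pfPoly pfNet) pfWin (pfTorsion (pfSteps pfLinial)) pfPropD rank

theorem main : stMain := pfMain (pfCol pfOrbRec) pfTable eff tame

end Pool.Agent.Lib.MP_5ddd96_lc.W5
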