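import Pool.Agent.Lib.MP_5ddd96_lc.W5.Defs

/-!
The class of groups in standard words.
-/

set_option autoImplicit false

namespace Pool.Agent.Lib.MP_5ddd96_lc.W5

/-- `T` acts faithfully and by finitely supported permutations in some action of `G`. -/
def Finitary {G : Type} [Group G] (T : Subgroup G) : Prop :=
  ∃ (Y : Type) (_ : MulAction G Y), (∀ t ∈ T, (∀ y : Y, t • y = y) → t = 1) ∧
    ∀ t ∈ T, {y : Y | t • y ≠ y}.Finite

/-- `Cls G N`: `G` is built from a locally virtually nilpotent group by extensions whose normal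
kernels are locally finite (`SubTower`, solvable torsion or finitary) or solvable of finite Hirsch
length; `N` is the subgroup in which stabilisers are allowed to lie. -/
inductive Cls : (G : Type) → [Group G] → Subgroup G → Prop
  | nil (G : Type) [Group G] :
      (∀ D : Subgroup G, D.FG → ∃ H : Subgroup D, H.FiniteIndex ∧ Group.IsNilpotent H) → Cls G ⊤
  | torsion (G : Type) [Group G] (T : Subgroup G) [T.Normal] (N : Subgroup (G ⧸ T)) :
      SubTower T ∨ (Group.IsSolvable T ∧ ∀ t ∈ T, IsOfFinOrder t) ∨ Finitary T →
      Cls (G ⧸ T) N → Cls G (N.comap (QuotientGroup.mk' T))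
  | hirsch (G : Type) [Group G] (A : Subgroup G) [A.Normal] (N : Subgroup (G ⧸ A)) :
      Group.IsSolvable A →
      (∀ i, Module.rank ℤ (Additive (Abelianization (derivedSeries A i))) < Cardinal.aleph0) →
      Cls (G ⧸ A) N → Cls G ⊥

end Pool.Agent.Lib.MP_5ddd96_lc.W5
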