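import Pool.Agent.Lib.MP_5ddd96_lc.W5.Basic

/-!
Standard classes of groups are locally `Tame`: virtually nilpotent groups have polynomial growth,
four kinds of `SubTower` subgroups, solvable groups of finite Hirsch length.
-/

set_option autoImplicit false

namespace Pool.Agent.Lib.MP_5ddd96_lc.W5

section part0

open Pointwise

namespace ExAux

variable {G : Type} [Group G]

/-- Balls for `S` grow polynomially. -/
def PG (S : Finset G) : Prop := ∃ C d : ℕ, ∀ r : ℕ, (ball S r).ncard ≤ C * (r + 1) ^ d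

theorem mem_ball_one {S : Finset G} {a : G} (ha : a ∈ S) : a ∈ ball S 1 :=
  ⟨[a], le_rfl, by simpa using Or.inl ha, by simp⟩

/-- Conjugates of commutators are short. -/
theorem conj_short (H : Subgroup G) (c : ℕ) (hc : H.lowerCentralSeries c = ⊥) (S Y : Finset G)
    (hS : ∀ s ∈ S, s ∈ H) (hY : ∀ y ∈ Y, ∀ s ∈ S, y⁻¹ * s⁻¹ * y * s ∈ Y) (t : ℕ) :
    ∀ m, c ≤ m + t → ∀ y ∈ Y, y ∈ H.lowerCentralSeries m → ∀ w : List G, (∀ a ∈ w, a ∈ S) →
      w.prod⁻¹ * y * w.prod ∈ ball Y ((w.length + 1) ^ t) := by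
  induction t with
  | zero =>
    intro m hm y _ hy w _
    have h1 : y = 1 := by
      have := H.lowerCentralSeries_antitone (show c ≤ m by omega) hy
      rwa [hc, Subgroup.mem_bot] at this
    rw [h1, mul_one, inv_mul_cancel]
    exact one_mem_ball _ _
  | succ t ih =>
    intro m hm y hyY hy w
    induction w with
    | nil => intro _; simpa using mem_ball_one hyY
    | cons s w ihw =>
      intro hw
      have hs := hw s List.mem_cons_self
      have hw' : ∀ a ∈ w, a ∈ S := fun a ha => hw a (List.mem_cons_of_mem _ ha)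
      have hz : y⁻¹ * s⁻¹ * y * s ∈ H.lowerCentralSeries (m + 1) := by
        have := Subgroup.commutator_mem_commutator (inv_mem hy) (inv_mem (hS s hs))
        rw [commutatorElement_def, inv_inv, inv_inv] at this
        exact this
      have h2 := ih (m + 1) (by omega) _ (hY y hyY s hs) hz w hw'
      have h3 := mul_mem_ball (ihw hw') h2
      have e : (s :: w).prod⁻¹ * y * (s :: w).prod =
          w.prod⁻¹ * y * w.prod * (w.prod⁻¹ * (y⁻¹ * s⁻¹ * y * s) * w.prod) := by
        rw [List.prod_cons]; group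
      rw [e]
      refine ball_mono _ ?_ h3
      rw [List.length_cons]
      have h4 : (w.length + 1) ^ t ≤ (w.length + 1 + 1) ^ t := Nat.pow_le_pow_left (by omega) _
      rw [pow_succ, pow_succ]
      nlinarith [Nat.zero_le ((w.length + 1) ^ t)]

/-- Moving a letter to the right. -/
theorem move (S Y : Finset G) (n K : ℕ)
    (hK : ∀ a ∈ S, ∀ b ∈ S, ∀ w : List G, (∀ x ∈ w, x ∈ S) → w.length ≤ n →
      w.prod⁻¹ * (a⁻¹ * b⁻¹ * a * b) * w.prod ∈ ball Y K)
    (s : G) (hs : s ∈ S) (v : List G) (hv : ∀ x ∈ v, x ∈ S) (u : List G) :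
    (∀ x ∈ u, x ∈ S) → u.length + v.length ≤ n →
      ∃ h ∈ ball Y (u.length * K), s * (u ++ v).prod = (u ++ s :: v).prod * h := by
  induction u with
  | nil => intro _ _; exact ⟨1, one_mem_ball _ _, by simp⟩
  | cons a u ih =>
    intro hu hn
    have ha := hu a List.mem_cons_self
    have hu' : ∀ x ∈ u, x ∈ S := fun x hx => hu x (List.mem_cons_of_mem _ hx)
    rw [List.length_cons] at hn
    obtain ⟨h, hh, e⟩ := ih hu' (by omega)
    have h2 := hK s hs a ha (u ++ v)
      (fun x hx => (List.mem_append.1 hx).elim (hu' x) (hv x)) (by rw [List.length_append]; omega)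
    refine ⟨_, ball_mono _ (by rw [List.length_cons, Nat.succ_mul]) (mul_mem_ball hh h2), ?_⟩
    rw [List.cons_append, List.cons_append, List.prod_cons, List.prod_cons, mul_assoc a,
      ← mul_assoc _ h, ← e]
    group

/-- Permuting a word costs a short element. -/
theorem perm_short (S Y : Finset G) (n K : ℕ)
    (hK : ∀ a ∈ S, ∀ b ∈ S, ∀ w : List G, (∀ x ∈ w, x ∈ S) → w.length ≤ n →
      w.prod⁻¹ * (a⁻¹ * b⁻¹ * a * b) * w.prod ∈ ball Y K) (w : List G) :
    ∀ w' : List G, (∀ x ∈ w, x ∈ S) → w.length ≤ n → w.Perm w' →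
      ∃ h ∈ ball Y (w.length * (n * K)), w.prod = w'.prod * h := by
  induction w with
  | nil =>
    intro w' _ _ hp
    rw [← hp.nil_eq]
    exact ⟨1, one_mem_ball _ _, by simp⟩
  | cons s w ih =>
    intro w' hw hn hp
    have hs := hw s List.mem_cons_self
    obtain ⟨u, v, rfl⟩ := List.append_of_mem (hp.subset List.mem_cons_self)
    have hp' : w.Perm (u ++ v) := (hp.trans List.perm_middle).cons_inv
    have hw' : ∀ x ∈ w, x ∈ S := fun x hx => hw x (List.mem_cons_of_mem _ hx)
    rw [List.length_cons] at hn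
    obtain ⟨h0, hh0, e0⟩ := ih (u ++ v) hw' (by omega) hp'
    have hl := hp'.length_eq
    rw [List.length_append] at hl
    obtain ⟨h1, hh1, e1⟩ := move S Y n K hK s hs v
      (fun x hx => hw' x (hp'.symm.subset (List.mem_append_right _ hx))) u
      (fun x hx => hw' x (hp'.symm.subset (List.mem_append_left _ hx))) (by omega)
    refine ⟨h1 * h0, ball_mono _ ?_ (mul_mem_ball hh1 hh0), ?_⟩
    · rw [List.length_cons, Nat.succ_mul]
      have : u.length * K ≤ n * K := Nat.mul_le_mul_right _ (by omega)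
      omega
    · rw [List.prod_cons, e0, ← mul_assoc, e1, mul_assoc]

/-- The finite set of iterated commutators. -/
theorem exists_comm (H : Subgroup G) (c : ℕ) (hc : H.lowerCentralSeries c = ⊥) (j : ℕ)
    (S : Finset G) (hS : ∀ s ∈ S, s ∈ H.lowerCentralSeries j) :
    ∃ Y : Finset G, (∀ y ∈ Y, y ∈ H.lowerCentralSeries (j + 1)) ∧
      (∀ y ∈ Y, ∀ s ∈ S, y⁻¹ * s⁻¹ * y * s ∈ Y) ∧ ∀ a ∈ S, ∀ b ∈ S, a⁻¹ * b⁻¹ * a * b ∈ Y := by
  classical
  have hH : ∀ s ∈ S, s ∈ H := fun s hs => H.lowerCentralSeries_antitone (Nat.zero_le j) (hS s hs)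
  let X : ℕ → Finset G := fun i =>
    Nat.rec S (fun _ A => Finset.image₂ (fun y s => y⁻¹ * s⁻¹ * y * s) A S) i
  have hX : ∀ i, X (i + 1) = Finset.image₂ (fun y s => y⁻¹ * s⁻¹ * y * s) (X i) S := fun _ => rfl
  have hm : ∀ i, ∀ y ∈ X i, y ∈ H.lowerCentralSeries (j + i) := by
    intro i
    induction i with
    | zero => exact hS
    | succ i ih =>
      intro y hy
      rw [hX] at hy
      obtain ⟨a, ha, s, hs, rfl⟩ := Finset.mem_image₂.1 hy
      have := Subgroup.commutator_mem_commutator (inv_mem (ih a ha)) (inv_mem (hH s hs))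
      rw [commutatorElement_def, inv_inv, inv_inv] at this
      exact this
  have key : ∀ i, ∀ y ∈ X (i + 1),
      y ∈ insert 1 ((Finset.range c).biUnion fun i => X (i + 1)) := by
    intro i y hy
    by_cases hi : i < c
    · exact Finset.mem_insert_of_mem (Finset.mem_biUnion.2 ⟨i, Finset.mem_range.2 hi, hy⟩)
    · have := H.lowerCentralSeries_antitone (show c ≤ j + (i + 1) by omega) (hm _ y hy)
      rw [hc, Subgroup.mem_bot] at this
      rw [this]
      exact Finset.mem_insert_self _ _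
  refine ⟨insert 1 ((Finset.range c).biUnion fun i => X (i + 1)), fun y hy => ?_,
    fun y hy s hs => ?_, fun a ha b hb => key 0 _ ?_⟩
  · rcases Finset.mem_insert.1 hy with rfl | hy
    · exact one_mem _
    · obtain ⟨i, -, hi⟩ := Finset.mem_biUnion.1 hy
      exact H.lowerCentralSeries_antitone (show j + 1 ≤ j + (i + 1) by omega) (hm _ y hi)
  · rcases Finset.mem_insert.1 hy with rfl | hy
    · simp
    · obtain ⟨i, -, hi⟩ := Finset.mem_biUnion.1 hy
      refine key (i + 1) _ ?_
      rw [hX (i + 1)]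
      exact Finset.mem_image₂_of_mem hi hs
  · rw [hX]
    exact Finset.mem_image₂_of_mem ha hb

theorem pg_step (H : Subgroup G) (c : ℕ) (hc : H.lowerCentralSeries c = ⊥) (j : ℕ)
    (ih : ∀ Y : Finset G, (∀ y ∈ Y, y ∈ H.lowerCentralSeries (j + 1)) → PG Y)
    (S0 : Finset G) (hS0 : ∀ s ∈ S0, s ∈ H.lowerCentralSeries j) : PG S0 := by
  classical
  let S : Finset G := S0 ∪ S0.image (fun x => x⁻¹)
  have hS : ∀ s ∈ S, s ∈ H.lowerCentralSeries j := by
    intro s hs
    rcases Finset.mem_union.1 hs with h | h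
    · exact hS0 s h
    · obtain ⟨a, ha, rfl⟩ := Finset.mem_image.1 h
      exact inv_mem (hS0 a ha)
  have hH : ∀ s ∈ S, s ∈ H := fun s hs => H.lowerCentralSeries_antitone (Nat.zero_le j) (hS s hs)
  obtain ⟨Y, hY1, hY2, hY3⟩ := exists_comm H c hc j S hS
  obtain ⟨C, d, hC⟩ := ih Y hY1
  refine ⟨C, S.card + (c + 2) * d, fun r => ?_⟩
  have hK : ∀ a ∈ S, ∀ b ∈ S, ∀ w : List G, (∀ x ∈ w, x ∈ S) → w.length ≤ r →
      w.prod⁻¹ * (a⁻¹ * b⁻¹ * a * b) * w.prod ∈ ball Y ((r + 1) ^ c) := by
    intro a ha b hb w hw hl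
    refine ball_mono _ (Nat.pow_le_pow_left (by omega) _)
      (conj_short H c hc S Y hH hY2 c 0 (by omega) _ (hY3 a ha b hb) ?_ w hw)
    exact H.lowerCentralSeries_antitone (Nat.zero_le _) (hY1 _ (hY3 a ha b hb))
  let P : (S → Fin (r + 1)) → List G → Prop := fun a w =>
    (∀ x ∈ w, x ∈ S) ∧ ∀ s : S, w.count (s : G) = a s
  let ρ : (S → Fin (r + 1)) → G := fun a => if h : ∃ w, P a w then (Classical.choose h).prod else 1
  have hsub : ball S0 r ⊆ Set.range ρ * ball Y (r * (r * (r + 1) ^ c)) := by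
    rintro _ ⟨w, hl, hw, rfl⟩
    have hw' : ∀ x ∈ w, x ∈ S := fun x hx => (hw x hx).elim (Finset.mem_union_left _)
      fun h => Finset.mem_union_right _ (Finset.mem_image.2 ⟨_, h, inv_inv x⟩)
    let a : S → Fin (r + 1) := fun s =>
      ⟨w.count (s : G), Nat.lt_succ_of_le (List.count_le_length.trans hl)⟩
    have hex : ∃ w', P a w' := ⟨w, hw', fun _ => rfl⟩
    obtain ⟨h1, h2⟩ := Classical.choose_spec hex
    have hp : w.Perm (Classical.choose hex) := by
      refine List.perm_iff_count.2 fun x => ?_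
      by_cases hx : x ∈ S
      · exact (h2 ⟨x, hx⟩).symm
      · rw [List.count_eq_zero.2 fun h => hx (hw' x h), List.count_eq_zero.2 fun h => hx (h1 x h)]
    obtain ⟨h, hh, e⟩ := perm_short S Y r _ hK w _ hw' hl hp
    refine ⟨ρ a, ⟨a, rfl⟩, h, ball_mono _ (Nat.mul_le_mul_right _ hl) hh, ?_⟩
    show (if h : ∃ w, P a w then (Classical.choose h).prod else 1) * h = w.prod
    rw [dif_pos hex, e]
  have h1 : (Set.range ρ).ncard ≤ (r + 1) ^ S.card := by
    rw [← Set.image_univ]
    refine (Set.ncard_image_le Set.finite_univ).trans ?_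
    rw [Set.ncard_univ, Nat.card_fun]
    simp
  have h2 : r * (r * (r + 1) ^ c) + 1 ≤ (r + 1) ^ (c + 2) := by
    have : 1 ≤ (r + 1) ^ c := Nat.one_le_pow _ _ (by omega)
    rw [pow_add]
    nlinarith [Nat.zero_le (r * (r + 1) ^ c)]
  calc (ball S0 r).ncard ≤ (Set.range ρ * ball Y (r * (r * (r + 1) ^ c))).ncard :=
        Set.ncard_le_ncard hsub ((Set.finite_range ρ).mul (ball_finite _ _))
    _ ≤ (Set.range ρ).ncard * (ball Y (r * (r * (r + 1) ^ c))).ncard := Set.natCard_mul_le
    _ ≤ (r + 1) ^ S.card * (C * ((r + 1) ^ (c + 2)) ^ d) :=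
        Nat.mul_le_mul h1 ((hC _).trans (Nat.mul_le_mul_left _ (Nat.pow_le_pow_left h2 _)))
    _ = C * (r + 1) ^ (S.card + (c + 2) * d) := by rw [pow_add _ S.card, pow_mul]; ring

/-- Finite subsets of a nilpotent subgroup have polynomial growth. -/
theorem pg_nilpotent (H : Subgroup G) (hH : Group.IsNilpotent H) (S : Finset G)
    (hS : ∀ s ∈ S, s ∈ H) : PG S := by
  obtain ⟨c, hc⟩ := (Subgroup.isNilpotent_iff_lowerCentralSeries H).1 hH
  have key : ∀ t j, c ≤ j + t → ∀ S : Finset G, (∀ s ∈ S, s ∈ H.lowerCentralSeries j) → PG S := by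
    intro t
    induction t with
    | zero =>
      intro j hj S hS
      refine ⟨1, 0, fun r => ?_⟩
      have : ball S r ⊆ {1} := by
        rintro _ ⟨l, -, hl, rfl⟩
        have h1 : l.prod ∈ H.lowerCentralSeries j := Subgroup.list_prod_mem _ fun a ha =>
          (hl a ha).elim (hS a) fun h => by simpa using inv_mem (hS _ h)
        have := H.lowerCentralSeries_antitone (show c ≤ j by omega) h1
        rwa [hc, Subgroup.mem_bot] at this
      simpa using Set.ncard_le_ncard this
    | succ t ih => exact fun j hj => pg_step H c hc j (ih (j + 1) (by omega))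
  exact key c 0 (by omega) S hS

/-- Passing to a finite index overgroup. -/
theorem pg_of_finiteIndex (H : Subgroup G) [H.FiniteIndex]
    (hH : ∀ U : Finset G, (∀ u ∈ U, u ∈ H) → PG U) (S0 : Finset G) : PG S0 := by
  classical
  have := Fintype.ofFinite (G ⧸ H)
  let S : Finset G := S0 ∪ S0.image (fun x => x⁻¹)
  let U : Finset G := insert (((1 : G) : G ⧸ H).out⁻¹)
    (Finset.image₂ (fun (a : G) (q : G ⧸ H) => (a • q).out⁻¹ * a * q.out) S Finset.univ)
  have hU : ∀ u ∈ U, u ∈ H := by
    intro u hu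
    rcases Finset.mem_insert.1 hu with rfl | hu
    · have := QuotientGroup.eq.1 (QuotientGroup.out_eq' ((1 : G) : G ⧸ H))
      simpa using this
    · obtain ⟨a, -, q, -, rfl⟩ := Finset.mem_image₂.1 hu
      rw [mul_assoc]
      refine QuotientGroup.eq.1 ?_
      rw [QuotientGroup.out_eq', ← smul_eq_mul, ← MulAction.Quotient.smul_mk, QuotientGroup.out_eq']
  obtain ⟨C, d, hC⟩ := hH U hU
  refine ⟨Nat.card (G ⧸ H) * C * 2 ^ d, d, fun r => ?_⟩
  have key : ∀ l : List G, (∀ a ∈ l, a ∈ S) →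
      ((l.prod : G) : G ⧸ H).out⁻¹ * l.prod ∈ ball U (l.length + 1) := by
    intro l
    induction l with
    | nil => intro _; simpa using mem_ball_one (Finset.mem_insert_self _ _)
    | cons a l ih =>
      intro hl
      have h1 : a • ((l.prod : G) : G ⧸ H) = ((a * l.prod : G) : G ⧸ H) := rfl
      have h2 : (a • ((l.prod : G) : G ⧸ H)).out⁻¹ * a * ((l.prod : G) : G ⧸ H).out ∈ U :=
        Finset.mem_insert_of_mem
          (Finset.mem_image₂_of_mem (hl a List.mem_cons_self) (Finset.mem_univ _))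
      have h3 := mul_mem_ball (mem_ball_one h2) (ih fun x hx => hl x (List.mem_cons_of_mem _ hx))
      rw [h1] at h3
      rw [List.prod_cons, List.length_cons, add_comm]
      have e : ((a * l.prod : G) : G ⧸ H).out⁻¹ * (a * l.prod) =
          ((a * l.prod : G) : G ⧸ H).out⁻¹ * a * ((l.prod : G) : G ⧸ H).out *
            (((l.prod : G) : G ⧸ H).out⁻¹ * l.prod) := by group
      rw [e]
      exact h3
  have hsub : ball S0 r ⊆ Set.range (fun q : G ⧸ H => q.out) * ball U (r + 1) := by
    rintro _ ⟨w, hl, hw, rfl⟩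
    have hw' : ∀ x ∈ w, x ∈ S := fun x hx => (hw x hx).elim (Finset.mem_union_left _)
      fun h => Finset.mem_union_right _ (Finset.mem_image.2 ⟨_, h, inv_inv x⟩)
    exact ⟨_, ⟨((w.prod : G) : G ⧸ H), rfl⟩, _, ball_mono _ (by omega) (key w hw'), by simp⟩
  have h1 : (Set.range (fun q : G ⧸ H => q.out)).ncard ≤ Nat.card (G ⧸ H) := by
    rw [← Set.image_univ]
    exact (Set.ncard_image_le Set.finite_univ).trans (Set.ncard_univ _).le
  have h2 : (r + 1 + 1) ^ d ≤ 2 ^ d * (r + 1) ^ d := by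
    rw [← mul_pow]; exact Nat.pow_le_pow_left (by omega) _
  calc (ball S0 r).ncard ≤ (Set.range (fun q : G ⧸ H => q.out) * ball U (r + 1)).ncard :=
        Set.ncard_le_ncard hsub ((Set.finite_range _).mul (ball_finite _ _))
    _ ≤ (Set.range (fun q : G ⧸ H => q.out)).ncard * (ball U (r + 1)).ncard := Set.natCard_mul_le
    _ ≤ Nat.card (G ⧸ H) * (C * (2 ^ d * (r + 1) ^ d)) :=
        Nat.mul_le_mul h1 ((hC _).trans (Nat.mul_le_mul_left _ h2))
    _ = _ := by ring

end ExAux

/-- Finitely generated virtually nilpotent groups have polynomial growth. -/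
theorem polyGrowth_of_virtually_nilpotent (G : Type) [Group G] [hG : Group.FG G] (H : Subgroup G)
    [H.FiniteIndex] (hH : Group.IsNilpotent H) : PolyGrowth G := by
  obtain ⟨S, hS⟩ := hG.1
  exact ⟨S, hS, ExAux.pg_of_finiteIndex H (ExAux.pg_nilpotent H hH) S⟩

end part0

section part1

open Pointwise

namespace ExAux

variable {G : Type} [Group G]

theorem ball_card (S : Finset G) (r : ℕ) : (ball S r).ncard ≤ (2 * S.card + 1) ^ r := by
  classical
  induction r with
  | zero =>
    have : ball S 0 ⊆ {1} := by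
      rintro _ ⟨l, h1, -, rfl⟩
      rw [List.length_eq_zero_iff.1 (Nat.le_zero.1 h1)]; rfl
    simpa using Set.ncard_le_ncard this
  | succ r ih =>
    let A : Finset G := insert 1 (S ∪ S.image fun x => x⁻¹)
    have hA : A.card ≤ 2 * S.card + 1 := by
      have h1 := Finset.card_insert_le (1 : G) (S ∪ S.image fun x => x⁻¹)
      have h2 := Finset.card_union_le S (S.image fun x => x⁻¹)
      have h3 : (S.image fun x => x⁻¹).card ≤ S.card := Finset.card_image_le
      show (insert 1 (S ∪ S.image fun x => x⁻¹)).card ≤ _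
      omega
    have hsub : ball S (r + 1) ⊆ (A : Set G) * ball S r := by
      rintro _ ⟨l, h1, h2, rfl⟩
      rcases l with _ | ⟨a, l⟩
      · exact ⟨1, Finset.mem_coe.2 (Finset.mem_insert_self _ _), 1, one_mem_ball _ _, by simp⟩
      · refine ⟨a, Finset.mem_coe.2 (Finset.mem_insert_of_mem ?_), l.prod,
          ⟨l, by simpa using h1, fun b hb => h2 b (List.mem_cons_of_mem _ hb), rfl⟩, by simp⟩
        exact (h2 a List.mem_cons_self).elim (Finset.mem_union_left _)
          fun h => Finset.mem_union_right _ (Finset.mem_image.2 ⟨_, h, inv_inv a⟩)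
    calc (ball S (r + 1)).ncard ≤ ((A : Set G) * ball S r).ncard :=
          Set.ncard_le_ncard hsub (A.finite_toSet.mul (ball_finite _ _))
      _ ≤ (A : Set G).ncard * (ball S r).ncard := Set.natCard_mul_le
      _ ≤ (2 * S.card + 1) * (2 * S.card + 1) ^ r :=
          Nat.mul_le_mul (by rwa [Set.ncard_coe_finset]) ih
      _ = _ := by ring

theorem sq_le (A : ℕ) : A * A + A ≤ 2 ^ 2 ^ A := by
  have h1 : A < 2 ^ A := Nat.lt_two_pow_self
  have h2 : 2 * A ≤ 2 ^ A := by
    rcases A with _ | A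
    · simp
    · have := @Nat.lt_two_pow_self A
      rw [pow_succ]; omega
  calc A * A + A = A * (A + 1) := by ring
    _ ≤ 2 ^ A * 2 ^ A := Nat.mul_le_mul h1.le h1
    _ = 2 ^ (2 * A) := by ring
    _ ≤ 2 ^ 2 ^ A := Nat.pow_le_pow_right (by omega) h2

theorem pow_le_two (q n : ℕ) : q ^ n ≤ 2 ^ (q * n) := by
  rw [pow_mul]; exact Nat.pow_le_pow_left Nat.lt_two_pow_self.le _

/-- A fourfold exponential of `a ^ (2 j) * b + c` is below the tower for arbitrarily large `j`. -/
theorem exists_tow (a b c m : ℕ) :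
    ∃ j, m ≤ j ∧ 2 ^ 2 ^ 2 ^ 2 ^ (a ^ (2 * j) * b + c) ≤ tow j := by
  obtain ⟨n, hn⟩ : ∃ n, n = 4 * a + 12 * a + b + c + m := ⟨_, rfl⟩
  refine ⟨2 * n + 6, by omega, ?_⟩
  have e : tow (2 * n + 6) = 2 ^ 2 ^ 2 ^ 2 ^ 2 ^ 2 ^ tow (2 * n) := rfl
  rw [e]
  refine Nat.pow_le_pow_right (by omega) (Nat.pow_le_pow_right (by omega)
    (Nat.pow_le_pow_right (by omega) (Nat.pow_le_pow_right (by omega) ?_)))
  have h1 := pow_le_two a (2 * (2 * n + 6))
  have h2 : b < 2 ^ b := Nat.lt_two_pow_self
  have h3 : c < 2 ^ c := Nat.lt_two_pow_self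
  have h4 : n < 2 ^ n := Nat.lt_two_pow_self
  have h5 : a * (2 * (2 * n + 6)) + b + c ≤ 2 ^ tow (2 * n) := by
    have h6 : 2 ^ (2 * n) ≤ 2 ^ tow (2 * n) := Nat.pow_le_pow_right (by omega) (lt_tow _).le
    have h7 : (n + 1) * (n + 1) ≤ 2 ^ (2 * n) := by
      rw [two_mul, pow_add]; exact Nat.mul_le_mul h4 h4
    have h8 : 4 * a * n ≤ n * n := Nat.mul_le_mul_right _ (by omega)
    nlinarith
  refine le_trans ?_ (Nat.pow_le_pow_right (by omega) h5)
  rw [pow_add, pow_add]
  obtain ⟨x, hx⟩ : ∃ x, x = 2 ^ (a * (2 * (2 * n + 6))) := ⟨_, rfl⟩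
  have hx1 : 1 ≤ x := hx ▸ Nat.one_le_two_pow
  rw [← hx] at h1 ⊢
  have h9 : a ^ (2 * (2 * n + 6)) * b ≤ x * b := Nat.mul_le_mul_right _ h1
  have h10 : x * (b + 1) * (c + 1) ≤ x * 2 ^ b * 2 ^ c :=
    Nat.mul_le_mul (Nat.mul_le_mul_left _ h2) h3
  nlinarith [Nat.zero_le (x * b * c), Nat.mul_le_mul_right c hx1]

/-- The generating set of `conjSpan`. -/
def cs (S E : Finset G) (r : ℕ) : Set G := {x | ∃ g ∈ ball S r, ∃ e ∈ E, x = g * e * g⁻¹}

theorem cs_eq (S E : Finset G) (r : ℕ) :
    cs S E r = Set.image2 (fun g e => g * e * g⁻¹) (ball S r) E := by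
  ext x
  exact ⟨fun ⟨g, hg, e, he, h⟩ => ⟨g, hg, e, he, h.symm⟩,
    fun ⟨g, hg, e, he, h⟩ => ⟨g, hg, e, he, h.symm⟩⟩

theorem cs_finite (S E : Finset G) (r : ℕ) : (cs S E r).Finite := by
  rw [cs_eq]; exact (ball_finite S r).image2 _ E.finite_toSet

theorem cs_card (S E : Finset G) (r : ℕ) :
    (cs S E r).ncard ≤ (2 * S.card + 1) ^ r * E.card := by
  rw [cs_eq, ← Set.image_uncurry_prod]
  refine (Set.ncard_image_le ((ball_finite S r).prod E.finite_toSet)).trans ?_
  rw [Set.ncard_prod, Set.ncard_coe_finset]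
  exact Nat.mul_le_mul_right _ (ball_card S r)

theorem conjSpan_le (T : Subgroup G) [hT : T.Normal] (S E : Finset G) (hE : ∀ e ∈ E, e ∈ T)
    (r : ℕ) : conjSpan S E r ≤ T := by
  refine (Subgroup.closure_le _).2 ?_
  rintro _ ⟨g, -, e, he, rfl⟩
  exact hT.conj_mem e (hE e he) g

/-- A fourfold exponential bound suffices. -/
theorem subTower_of_bound (T : Subgroup G)
    (h : ∀ E : Finset G, (∀ e ∈ E, e ∈ T) → ∃ b c : ℕ, ∀ (S : Finset G) (r : ℕ),
      Finite (conjSpan S E r) ∧
        Nat.card (conjSpan S E r) ≤ 2 ^ 2 ^ 2 ^ 2 ^ ((2 * S.card + 1) ^ r * b + c)) :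
    SubTower T := by
  intro S E hE m
  obtain ⟨b, c, hb⟩ := h E hE
  obtain ⟨j, hj, ht⟩ := exists_tow (2 * S.card + 1) b c m
  exact ⟨j, hj, (hb S (2 * j)).1, (hb S (2 * j)).2.trans ht⟩

instance conjSpan_fg (S E : Finset G) (r : ℕ) : Group.FG (conjSpan S E r) :=
  (Group.fg_iff_subgroup_fg _).2 ((Subgroup.fg_iff _).2 ⟨cs S E r, rfl, cs_finite S E r⟩)

theorem conjSpan_rank (S E : Finset G) (r : ℕ) :
    Group.rank (conjSpan S E r) ≤ (2 * S.card + 1) ^ r * E.card := by
  have := (cs_finite S E r).to_subtype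
  exact (Subgroup.rank_closure_finite_le_nat_card (cs S E r)).trans (cs_card S E r)

theorem le_two (n : ℕ) : n ≤ 2 ^ n := Nat.lt_two_pow_self.le

end ExAux

open ExAux

variable {G : Type} [Group G]

/-- Torsion abelian normal subgroups. -/
theorem subTower_of_comm_torsion (T : Subgroup G) [T.Normal]
    (hc : ∀ a ∈ T, ∀ b ∈ T, a * b = b * a) (ht : ∀ a ∈ T, IsOfFinOrder a) : SubTower T := by
  refine subTower_of_bound T fun E hE => ⟨E.card, ∏ e ∈ E, orderOf e, fun S r => ?_⟩
  obtain ⟨q, hq⟩ : ∃ q, q = ∏ e ∈ E, orderOf e := ⟨_, rfl⟩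
  rw [← hq]
  have hq0 : 0 < q := hq ▸ Finset.prod_pos fun e he => (ht e (hE e he)).orderOf_pos
  have hle := conjSpan_le T S E hE r
  have hpow : ∀ x ∈ conjSpan S E r, x ^ q = 1 := by
    intro x hx
    induction hx using Subgroup.closure_induction with
    | mem x hx =>
      obtain ⟨g, -, e, he, rfl⟩ := hx
      rw [conj_pow, orderOf_dvd_iff_pow_eq_one.1 (hq ▸ Finset.dvd_prod_of_mem _ he), mul_one,
        mul_inv_cancel]
    | one => exact one_pow _
    | mul x y hx hy ihx ihy =>
      rw [Commute.mul_pow (hc x (hle hx) y (hle hy)), ihx, ihy, mul_one]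
    | inv x _ ih => rw [inv_pow, ih, inv_one]
  let _ : CommGroup (conjSpan S E r) :=
    { (inferInstance : Group (conjSpan S E r)) with
      mul_comm := fun a b => Subtype.ext (hc _ (hle a.2) _ (hle b.2)) }
  have hd : Nat.card (conjSpan S E r) ∣ q ^ Group.rank (conjSpan S E r) :=
    card_dvd_exponent_pow_rank' _ fun g => Subtype.ext (hpow g g.2)
  have hp : 0 < q ^ Group.rank (conjSpan S E r) := pow_pos hq0 _
  refine ⟨Nat.finite_of_card_ne_zero fun h => ?_, (Nat.le_of_dvd hp hd).trans ?_⟩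
  · rw [h, zero_dvd_iff] at hd; omega
  · have h1 := conjSpan_rank S E r
    generalize (2 * S.card + 1) ^ r * E.card = n at h1 ⊢
    refine (pow_le_two _ _).trans (Nat.pow_le_pow_right (by omega) ?_)
    refine le_trans ?_ (le_two _)
    refine le_trans ?_ (sq_le _)
    nlinarith [Nat.mul_le_mul_left q h1]

/-- Normal subgroups that embed in a power of a finite group. -/
theorem subTower_of_residual (T : Subgroup G) [T.Normal] (F : Type) [Group F] [Finite F]
    (hF : ∀ t : T, t ≠ 1 → ∃ φ : T →* F, φ t ≠ 1) : SubTower T := by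
  classical
  refine subTower_of_bound T fun E hE => ⟨E.card, Nat.card F + 1, fun S r => ?_⟩
  have hle := conjSpan_le T S E hE r
  obtain ⟨A, hA1, hA2⟩ := Group.rank_spec (conjSpan S E r)
  have i1 : Function.Injective
      (fun (φ : conjSpan S E r →* F) (a : A) => φ (a : conjSpan S E r)) :=
    fun φ ψ h => MonoidHom.eq_of_eqOn_dense hA2 fun a ha => congrFun h ⟨a, ha⟩
  have i2 : Function.Injective (fun (x : conjSpan S E r) (φ : conjSpan S E r →* F) => φ x) := by
    intro x y h
    by_contra hxy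
    obtain ⟨φ, hφ⟩ := hF (Subgroup.inclusion hle (x * y⁻¹)) fun h1 => hxy
      (mul_inv_eq_one.1 (Subgroup.inclusion_injective hle (h1.trans (map_one _).symm)))
    have h2 : φ (Subgroup.inclusion hle x) = φ (Subgroup.inclusion hle y) :=
      congrFun h (φ.comp (Subgroup.inclusion hle))
    exact hφ (by rw [map_mul, map_mul, h2, ← map_mul, ← map_mul, mul_inv_cancel, map_one, map_one])
  have f1 : Finite (conjSpan S E r →* F) := Finite.of_injective _ i1
  refine ⟨Finite.of_injective _ i2, (Nat.card_le_card_of_injective _ i2).trans ?_⟩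
  have c1 := Nat.card_le_card_of_injective _ i1
  rw [Nat.card_fun] at c1 ⊢
  have h0 : 0 < Nat.card F := Nat.card_pos
  have h1 : Nat.card A ≤ (2 * S.card + 1) ^ r * E.card := by
    rw [Nat.card_eq_finsetCard, hA1]; exact conjSpan_rank S E r
  generalize (2 * S.card + 1) ^ r * E.card = n at h1 ⊢
  generalize Nat.card F = q at *
  refine (pow_le_two _ _).trans (Nat.pow_le_pow_right (by omega) ?_)
  have h2 : q * Nat.card (conjSpan S E r →* F) ≤ q ^ (n + 1) := by
    rw [pow_succ']
    exact Nat.mul_le_mul_left _ (c1.trans (Nat.pow_le_pow_right h0 h1))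
  refine h2.trans ((pow_le_two _ _).trans (Nat.pow_le_pow_right (by omega) ?_))
  refine le_trans ?_ (sq_le _)
  nlinarith

/-- Increasing unions of finite normal subgroups of `G`. -/
theorem subTower_of_finite_normalClosure (T : Subgroup G)
    (h : ∀ E : Finset G, (∀ e ∈ E, e ∈ T) → Finite (Subgroup.normalClosure (E : Set G))) :
    SubTower T := by
  refine subTower_of_bound T fun E hE =>
    ⟨0, Nat.card (Subgroup.normalClosure (E : Set G)), fun S r => ?_⟩
  have := h E hE
  have hle := conjSpan_le (Subgroup.normalClosure (E : Set G)) S E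
    (fun e he => Subgroup.subset_normalClosure he) r
  refine ⟨Finite.of_injective _ (Subgroup.inclusion_injective hle),
    (Subgroup.card_le_of_le hle).trans ?_⟩
  rw [mul_zero, zero_add]
  exact (le_two _).trans ((le_two _).trans ((le_two _).trans (le_two _)))

/-- Subgroups acting faithfully by finitary permutations in an action of `G`. -/
theorem subTower_of_finitary (T : Subgroup G) [T.Normal] (X : Type) [MulAction G X]
    (hf : ∀ t ∈ T, (∀ x : X, t • x = x) → t = 1) (hs : ∀ t ∈ T, {x : X | t • x ≠ x}.Finite) :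
    SubTower T := by
  classical
  refine subTower_of_bound T fun E hE => ?_
  have hW : (⋃ e ∈ E, {x : X | e • x ≠ x}).Finite :=
    E.finite_toSet.biUnion fun e he => hs e (hE e he)
  refine ⟨(⋃ e ∈ E, {x : X | e • x ≠ x}).ncard, 0, fun S r => ?_⟩
  generalize hWe : (⋃ e ∈ E, {x : X | e • x ≠ x}) = W at hW
  have hle := conjSpan_le T S E hE r
  let P : Set X := Set.image2 (fun (g : G) (x : X) => g • x) (ball S r) W
  have hP : P.Finite := (ball_finite S r).image2 _ hW
  have hPc : P.ncard ≤ (2 * S.card + 1) ^ r * W.ncard := by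
    show (Set.image2 _ _ _).ncard ≤ _
    rw [← Set.image_uncurry_prod]
    refine (Set.ncard_image_le ((ball_finite S r).prod hW)).trans ?_
    rw [Set.ncard_prod]
    exact Nat.mul_le_mul_right _ (ball_card S r)
  have hfix : ∀ k ∈ conjSpan S E r, ∀ x, x ∉ P → k • x = x := by
    intro k hk x hx
    induction hk using Subgroup.closure_induction with
    | mem k hk =>
      obtain ⟨g, hg, e, he, rfl⟩ := hk
      have h1 : e • g⁻¹ • x = g⁻¹ • x := by
        by_contra h
        refine hx ⟨g, hg, g⁻¹ • x, ?_, smul_inv_smul g x⟩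
        rw [← hWe]
        exact Set.mem_biUnion he h
      rw [mul_smul, mul_smul, h1, smul_inv_smul]
    | one => exact one_smul _ _
    | mul a b _ _ iha ihb => rw [mul_smul, ihb, iha]
    | inv a _ ih => rw [inv_smul_eq_iff, ih]
  have hmap : ∀ k ∈ conjSpan S E r, ∀ x ∈ P, k • x ∈ P := by
    intro k hk x hx
    by_contra h
    have h1 := hfix k hk _ h
    rw [smul_left_cancel_iff] at h1
    exact h (h1.symm ▸ hx)
  have := hP.to_subtype
  have i1 : Function.Injective
      (fun (k : conjSpan S E r) (x : P) => (⟨(k : G) • (x : X), hmap k k.2 x x.2⟩ : P)) := by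
    intro a b h
    refine Subtype.ext (inv_mul_eq_one.1 (hf _ (hle (mul_mem (inv_mem a.2) b.2)) fun x => ?_))
    rw [mul_smul, inv_smul_eq_iff]
    by_cases hx : x ∈ P
    · exact (congrArg Subtype.val (congrFun h ⟨x, hx⟩)).symm
    · rw [hfix a a.2 x hx, hfix b b.2 x hx]
  refine ⟨Finite.of_injective _ i1, (Nat.card_le_card_of_injective _ i1).trans ?_⟩
  rw [Nat.card_fun, add_zero]
  have h1 : Nat.card P ≤ (2 * S.card + 1) ^ r * W.ncard := hPc
  generalize (2 * S.card + 1) ^ r * W.ncard = n at h1 ⊢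
  refine (pow_le_two _ _).trans (Nat.pow_le_pow_right (by omega) ?_)
  refine le_trans ?_ (le_two _)
  refine le_trans ?_ (sq_le _)
  nlinarith [Nat.mul_le_mul h1 h1]

/-- `SubTower` passes to preimages under injective homomorphisms. -/
theorem SubTower.comap {D : Type} [Group D] {T : Subgroup G} (h : SubTower T) (f : D →* G)
    (hf : Function.Injective f) : SubTower (T.comap f) := by
  classical
  intro S E hE m
  obtain ⟨j, hj, h1, h2⟩ := h (S.image f) (E.image f) (by
    intro e he
    obtain ⟨e', he', rfl⟩ := Finset.mem_image.1 he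
    exact hE e' he') m
  have hsub : f '' (conjSpan S E (2 * j) : Set D) ⊆ conjSpan (S.image f) (E.image f) (2 * j) := by
    rintro _ ⟨x, hx, rfl⟩
    have : conjSpan S E (2 * j) ≤ (conjSpan (S.image f) (E.image f) (2 * j)).comap f := by
      refine (Subgroup.closure_le _).2 ?_
      rintro _ ⟨_, ⟨l, l1, l2, rfl⟩, e, he, rfl⟩
      refine Subgroup.subset_closure ⟨f l.prod, ⟨l.map f, by simpa using l1, fun a ha => ?_,
        (map_list_prod f l).symm⟩, f e, Finset.mem_image_of_mem _ he, by simp⟩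
      obtain ⟨b, hb, rfl⟩ := List.mem_map.1 ha
      refine (l2 b hb).imp (Finset.mem_image_of_mem _) fun h => ?_
      rw [← map_inv]
      exact Finset.mem_image_of_mem _ h
    exact this hx
  refine ⟨j, hj, Set.Finite.of_finite_image (h1.subset hsub) hf.injOn, ?_⟩
  rw [← Set.ncard_image_of_injective _ hf]
  exact (Set.ncard_le_ncard hsub h1).trans h2

end part1

section part2

open TensorProduct

/-- Every finitely generated group `D` embedded in `G` is tame with `D ∩ N` allowed. -/
def LocTame (G : Type) [Group G] (N : Subgroup G) : Prop :=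
  ∀ (D : Type) [Group D] [Group.FG D] (f : D →* G), Function.Injective f →
    ∃ N' : Subgroup D, Tame D N' ∧ N.comap f ≤ N'

variable {G Q : Type} [Group G] [Group Q]

theorem LocTame.mono {N N' : Subgroup G} (h : LocTame G N) (hN : N' ≤ N) : LocTame G N' :=
  fun D _ _ f hf => (h D f hf).imp fun _ h' => ⟨h'.1, (Subgroup.comap_mono hN).trans h'.2⟩

theorem LocTame.inj {N : Subgroup Q} (h : LocTame Q N) (θ : G →* Q) (hθ : Function.Injective θ) :
    LocTame G (N.comap θ) :=
  fun D _ _ f hf => h D (θ.comp f) (hθ.comp hf)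

theorem LocTame.subgroup {N : Subgroup G} (h : LocTame G N) (D : Subgroup G) (hD : D.FG) :
    ∃ N' : Subgroup D, Tame D N' ∧ ∀ d : D, (d : G) ∈ N → d ∈ N' := by
  have := (Group.fg_iff_subgroup_fg D).2 hD
  obtain ⟨N', h1, h2⟩ := h D D.subtype D.subtype_injective
  exact ⟨N', h1, fun d hd => h2 hd⟩

/-- Locally virtually nilpotent groups. -/
theorem locTame_poly
    (h : ∀ D : Subgroup G, D.FG → ∃ H : Subgroup D, H.FiniteIndex ∧ Group.IsNilpotent H) :
    LocTame G ⊤ := by
  intro D _ hD f hf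
  have : Group.FG f.range := Group.fg_range f
  obtain ⟨H, h1, h2⟩ := h f.range ((Group.fg_iff_subgroup_fg _).1 this)
  have h3 : (H.comap f.rangeRestrict).FiniteIndex :=
    ⟨by rw [Subgroup.index_comap_of_surjective _ f.rangeRestrict_surjective]; exact h1.1⟩
  have h4 : Group.IsNilpotent (H.comap f.rangeRestrict) := by
    have h5 : Function.Injective (f.rangeRestrict.subgroupComap H) := fun a b hab =>
      Subtype.ext (hf (congrArg (fun x : H => ((x : f.range) : G)) hab))
    exact Group.nilpotent_of_mulEquiv (MonoidHom.ofInjective h5).symm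
  exact ⟨⊤, Tame.poly D (polyGrowth_of_virtually_nilpotent D _ h4), le_top⟩

theorem LocTame.torsion {N : Subgroup Q} (h : LocTame Q N) (θ : G →* Q) (hθ : SubTower θ.ker) :
    LocTame G (N.comap θ) := by
  intro D _ hD f hf
  obtain ⟨N', h1, h2⟩ := h (D ⧸ (θ.comp f).ker) _ (QuotientGroup.kerLift_injective (θ.comp f))
  exact ⟨_, Tame.torsion D (θ.comp f).ker N' (hθ.comap f hf) h1, fun d hd => h2 hd⟩

theorem LocTame.rank {N : Subgroup Q} (h : LocTame Q N) (θ : G →* Q) (hθ : FinRank θ.ker) :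
    LocTame G ⊥ := by
  intro D _ hD f hf
  obtain ⟨N', h1, -⟩ := h (D ⧸ (θ.comp f).ker) _ (QuotientGroup.kerLift_injective (θ.comp f))
  obtain ⟨n, φ, hφ⟩ := hθ
  refine ⟨⊥, Tame.rank D (θ.comp f).ker N' ⟨n, φ.comp (f.subgroupComap θ.ker),
    hφ.comp fun a b hab => Subtype.ext (hf (congrArg Subtype.val hab))⟩ h1, ?_⟩
  rw [MonoidHom.comap_bot, (MonoidHom.ker_eq_bot_iff f).2 hf]

namespace ExAux

theorem embed (B : Type) [CommGroup B] (hr : Module.rank ℤ (Additive B) < Cardinal.aleph0)
    (htf : ∀ b : B, IsOfFinOrder b → b = 1) :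
    ∃ (n : ℕ) (φ : B →* Multiplicative (Fin n → ℚ)), Function.Injective φ := by
  let f := TensorProduct.mk ℤ ℚ (Additive B) 1
  have h1 : Module.rank ℚ (ℚ ⊗[ℤ] Additive B) < Cardinal.aleph0 := by
    have e1 := IsLocalizedModule.rank_eq (nonZeroDivisors ℤ) le_rfl f
    rw [IsLocalization.rank_eq ℚ (nonZeroDivisors ℤ) le_rfl]
    exact e1.trans_lt hr
  have : Module.Finite ℚ (ℚ ⊗[ℤ] Additive B) := Module.rank_lt_aleph0_iff.1 h1
  let e := (Module.finBasis ℚ (ℚ ⊗[ℤ] Additive B)).equivFun
  refine ⟨_, AddMonoidHom.toMultiplicativeRight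
    (e.toLinearMap.toAddMonoidHom.comp f.toAddMonoidHom), (injective_iff_map_eq_one _).2 ?_⟩
  intro b hb
  have h2 : e (f (Additive.ofMul b)) = 0 := hb
  rw [map_eq_zero_iff _ e.injective, IsLocalizedModule.eq_zero_iff (nonZeroDivisors ℤ)] at h2
  obtain ⟨s, hs⟩ := h2
  exact htf b (isOfFinOrder_iff_zpow_eq_one.2 ⟨s, nonZeroDivisors.coe_ne_zero s, hs⟩)

theorem finRank_range {K : Type} [Group K] (ρ : K →* G)
    (hc : ∀ a b, ρ a * ρ b = ρ b * ρ a)
    (hr : Module.rank ℤ (Additive (Abelianization K)) < Cardinal.aleph0)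
    (htf : ∀ a, IsOfFinOrder (ρ a) → ρ a = 1) : FinRank ρ.range := by
  let _ : CommGroup ρ.range :=
    { (inferInstance : Group ρ.range) with
      mul_comm := by
        rintro ⟨_, a, rfl⟩ ⟨_, b, rfl⟩
        exact Subtype.ext (hc a b) }
  refine embed ρ.range (lt_of_le_of_lt ?_ hr) ?_
  · refine LinearMap.rank_le_of_surjective
      (MonoidHom.toAdditive (Abelianization.lift ρ.rangeRestrict)).toIntLinearMap fun y => ?_
    obtain ⟨a, ha⟩ := ρ.rangeRestrict_surjective (Additive.toMul y)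
    exact ⟨Additive.ofMul (Abelianization.of a), congrArg Additive.ofMul ha⟩
  · rintro ⟨_, a, rfl⟩ hb
    exact Subtype.ext (htf a (ρ.range.subtype.isOfFinOrder hb))

/-- One abelian kernel of finite torsion-free rank. -/
theorem ab_step {N : Subgroup Q} (h : LocTame Q N) (θ : G →* Q) {K : Type} [Group K] (ρ : K →* G)
    (hk : ρ.range = θ.ker) (hc : ∀ a b, ρ a * ρ b = ρ b * ρ a)
    (hr : Module.rank ℤ (Additive (Abelianization K)) < Cardinal.aleph0) : LocTame G ⊥ := by
  have hc' : ∀ a ∈ θ.ker, ∀ b ∈ θ.ker, a * b = b * a := by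
    rw [← hk]
    rintro _ ⟨a, rfl⟩ _ ⟨b, rfl⟩
    exact hc a b
  let T : Subgroup G :=
    { carrier := {g | g ∈ θ.ker ∧ IsOfFinOrder g}
      mul_mem' := fun {a b} ha hb =>
        ⟨mul_mem ha.1 hb.1, Commute.isOfFinOrder_mul (hc' a ha.1 b hb.1) ha.2 hb.2⟩
      one_mem' := ⟨one_mem _, IsOfFinOrder.one⟩
      inv_mem' := fun ha => ⟨inv_mem ha.1, ha.2.inv⟩ }
  have hT : T.Normal := ⟨fun a ha g => ⟨θ.normal_ker.conj_mem a ha.1 g,
    (MulAut.conj g).toMonoidHom.isOfFinOrder ha.2⟩⟩
  have hle : T ≤ θ.ker := fun _ hg => hg.1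
  have h1 : FinRank (QuotientGroup.lift T θ hle).ker := by
    rw [QuotientGroup.ker_lift, ← hk, MonoidHom.map_range]
    refine finRank_range _ (fun a b => ?_) hr fun a ha => ?_
    · simp only [MonoidHom.comp_apply, ← map_mul (QuotientGroup.mk' T), hc a b]
    · obtain ⟨n, hn, h2⟩ := isOfFinOrder_iff_pow_eq_one.1 ha
      rw [MonoidHom.comp_apply, ← map_pow, QuotientGroup.mk'_apply, QuotientGroup.eq_one_iff] at h2
      exact (QuotientGroup.eq_one_iff _).2 ⟨hk ▸ ⟨a, rfl⟩, h2.2.of_pow hn.ne'⟩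
  refine ((h.rank _ h1).torsion (QuotientGroup.mk' T) ?_).mono bot_le
  rw [QuotientGroup.ker_mk']
  exact subTower_of_comm_torsion T (fun a ha b hb => hc' a ha.1 b hb.1) fun a ha => ha.2

/-- The derived series of a normal subgroup, inside the big group. -/
def ds (K : Subgroup G) (i : ℕ) : Subgroup G := (derivedSeries K i).map K.subtype

instance (K : Subgroup G) [K.Normal] (i : ℕ) : (ds K i).Normal :=
  inferInstanceAs ((derivedSeries K i).map K.subtype).Normal

theorem ds_le (K : Subgroup G) (i : ℕ) : ds K (i + 1) ≤ ds K i :=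
  Subgroup.map_mono (derivedSeries_antitone _ (Nat.le_succ i))

/-- The map from the `i`-th derived subgroup. -/
def rho (K : Subgroup G) [K.Normal] (i : ℕ) : derivedSeries K i →* G ⧸ ds K (i + 1) :=
  (QuotientGroup.mk' _).comp (K.subtype.comp (derivedSeries K i).subtype)

/-- The map between consecutive quotients. -/
def sig (K : Subgroup G) [K.Normal] (i : ℕ) : G ⧸ ds K (i + 1) →* G ⧸ ds K i :=
  QuotientGroup.map _ _ (MonoidHom.id G) (ds_le K i)

theorem rho_range (K : Subgroup G) [K.Normal] (i : ℕ) : (rho K i).range = (sig K i).ker := by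
  refine Eq.trans ?_ (QuotientGroup.ker_map _ _ (MonoidHom.id G) (ds_le K i)).symm
  rw [Subgroup.comap_id, rho, ← MonoidHom.map_range, ← MonoidHom.map_range,
    Subgroup.range_subtype]
  rfl

theorem rho_comm (K : Subgroup G) [K.Normal] (i : ℕ) (a b : derivedSeries K i) :
    rho K i a * rho K i b = rho K i b * rho K i a := by
  rw [← commutatorElement_eq_one_iff_mul_comm, ← map_commutatorElement]
  exact (QuotientGroup.eq_one_iff _).2
    ⟨_, Subgroup.commutator_mem_commutator a.2 b.2, rfl⟩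

theorem chain (θ : G →* Q) {N : Subgroup Q} (h : LocTame Q N) (hs : Group.IsSolvable θ.ker)
    (M : Subgroup G) (hM : M ≤ N.comap θ)
    (step : ∀ i, LocTame (G ⧸ ds θ.ker i) (M.map (QuotientGroup.mk' _)) →
      LocTame (G ⧸ ds θ.ker (i + 1)) (M.map (QuotientGroup.mk' _))) : LocTame G M := by
  have key : ∀ i, LocTame (G ⧸ ds θ.ker i) (M.map (QuotientGroup.mk' _)) := by
    intro i
    induction i with
    | succ i ih => exact step i ih
    | zero =>
      have e : ds θ.ker 0 = θ.ker := by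
        rw [ds, derivedSeries_zero, ← MonoidHom.range_eq_map, Subgroup.range_subtype]
      refine (h.inj (QuotientGroup.lift _ θ e.le) ?_).mono ?_
      · rw [← MonoidHom.ker_eq_bot_iff, QuotientGroup.ker_lift, Subgroup.map_eq_bot_iff,
          QuotientGroup.ker_mk', e]
      · rintro _ ⟨g, hg, rfl⟩
        exact hM hg
  obtain ⟨n, hn⟩ := hs.1
  refine ((key n).inj (QuotientGroup.mk' _) ?_).mono (Subgroup.le_comap_map _ _)
  rw [← MonoidHom.ker_eq_bot_iff, QuotientGroup.ker_mk', ds, hn, Subgroup.map_bot]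

end ExAux

open ExAux

/-- Solvable torsion kernels. -/
theorem LocTame.solvable_torsion {N : Subgroup Q} (h : LocTame Q N) (θ : G →* Q)
    (hs : Group.IsSolvable θ.ker) (ht : ∀ g ∈ θ.ker, IsOfFinOrder g) : LocTame G (N.comap θ) := by
  refine chain θ h hs _ le_rfl fun i ih => (ih.torsion (sig θ.ker i) ?_).mono ?_
  · refine subTower_of_comm_torsion _ ?_ ?_
    · rw [← rho_range]
      rintro _ ⟨a, rfl⟩ _ ⟨b, rfl⟩
      exact rho_comm _ i a b
    · rw [← rho_range]
      rintro _ ⟨a, rfl⟩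
      exact (QuotientGroup.mk' _).isOfFinOrder (ht _ (a : θ.ker).2)
  · rintro _ ⟨g, hg, rfl⟩
    exact ⟨g, hg, rfl⟩

/-- Solvable kernels of finite Hirsch length. -/
theorem LocTame.solvable_hirsch {N : Subgroup Q} (h : LocTame Q N) (θ : G →* Q)
    (hs : Group.IsSolvable θ.ker)
    (hr : ∀ i, Module.rank ℤ (Additive (Abelianization (derivedSeries θ.ker i))) <
      Cardinal.aleph0) : LocTame G ⊥ :=
  chain θ h hs ⊥ bot_le fun i ih =>
    (ab_step ih (sig θ.ker i) (rho θ.ker i) (rho_range _ i) (rho_comm _ i) (hr i)).mono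
      (Subgroup.map_bot _).le

/-- The four standard kinds of locally finite normal subgroups: solvable torsion; embedded in a
power of a finite group; an increasing union of finite normal subgroups of `G`; acting faithfully
by finitary permutations in an action of `G`. -/
def StdTorsion (T : Subgroup G) : Prop :=
  (Group.IsSolvable T ∧ ∀ t ∈ T, IsOfFinOrder t) ∨
  (∃ (F : Type) (_ : Group F) (_ : Finite F), ∀ t : T, t ≠ 1 → ∃ φ : T →* F, φ t ≠ 1) ∨
  (∀ E : Finset G, (∀ e ∈ E, e ∈ T) → Finite (Subgroup.normalClosure (E : Set G))) ∨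
  (∃ (X : Type) (_ : MulAction G X), (∀ t ∈ T, (∀ x : X, t • x = x) → t = 1) ∧
    ∀ t ∈ T, {x : X | t • x ≠ x}.Finite)

theorem LocTame.stdTorsion (T : Subgroup G) [T.Normal] (hT : StdTorsion T) {N : Subgroup (G ⧸ T)}
    (h : LocTame (G ⧸ T) N) : LocTame G (N.comap (QuotientGroup.mk' T)) := by
  have e := QuotientGroup.ker_mk' T
  rcases hT with ⟨h1, h2⟩ | ⟨F, _, _, h1⟩ | h1 | ⟨X, _, h1, h2⟩
  · exact h.solvable_torsion _ (by rwa [e]) (by rwa [e])
  · exact h.torsion _ (by rw [e]; exact subTower_of_residual T F h1)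
  · exact h.torsion _ (by rw [e]; exact subTower_of_finite_normalClosure T h1)
  · exact h.torsion _ (by rw [e]; exact subTower_of_finitary T X h1 h2)

theorem LocTame.hirsch (H : Subgroup G) [H.Normal] (hs : Group.IsSolvable H)
    (hr : ∀ i, Module.rank ℤ (Additive (Abelianization (derivedSeries H i))) < Cardinal.aleph0)
    {N : Subgroup (G ⧸ H)} (h : LocTame (G ⧸ H) N) : LocTame G ⊥ := by
  have e := QuotientGroup.ker_mk' H
  exact h.solvable_hirsch (QuotientGroup.mk' H) (by rwa [e]) (by rwa [e])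

/-- All actions: a standard torsion subgroup with locally virtually nilpotent quotient. -/
theorem tame_std_all (T : Subgroup G) [T.Normal] (hT : StdTorsion T)
    (hQ : ∀ D : Subgroup (G ⧸ T), D.FG → ∃ H : Subgroup D, H.FiniteIndex ∧ Group.IsNilpotent H)
    (D : Subgroup G) (hD : D.FG) : Tame D ⊤ := by
  obtain ⟨N, h1, h2⟩ := ((locTame_poly hQ).stdTorsion T hT).subgroup D hD
  rwa [(Subgroup.eq_top_iff' N).2 fun d => h2 d (Subgroup.mem_top _)] at h1

/-- Actions with stabilisers in `T`: a standard torsion subgroup `T`, then a solvable group of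
finite Hirsch length, then a locally virtually nilpotent quotient. -/
theorem tame_std_free (T : Subgroup G) [T.Normal] (hT : StdTorsion T) (H : Subgroup (G ⧸ T))
    [H.Normal] (hs : Group.IsSolvable H)
    (hr : ∀ i, Module.rank ℤ (Additive (Abelianization (derivedSeries H i))) < Cardinal.aleph0)
    (hQ : ∀ D : Subgroup ((G ⧸ T) ⧸ H), D.FG →
      ∃ K : Subgroup D, K.FiniteIndex ∧ Group.IsNilpotent K)
    (D : Subgroup G) (hD : D.FG) : ∃ N : Subgroup D, Tame D N ∧ ∀ d : D, (d : G) ∈ T → d ∈ N := by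
  obtain ⟨N, h1, h2⟩ := (((locTame_poly hQ).hirsch H hs hr).stdTorsion T hT).subgroup D hD
  exact ⟨N, h1, fun d hd => h2 d ((QuotientGroup.eq_one_iff _).2 hd)⟩

/-- Free actions of solvable groups of finite Hirsch length. -/
theorem tame_solvable_hirsch (hs : Group.IsSolvable G)
    (hr : ∀ i, Module.rank ℤ (Additive (Abelianization (derivedSeries G i))) < Cardinal.aleph0)
    (D : Subgroup G) (hD : D.FG) : ∃ N : Subgroup D, Tame D N := by
  have key : ∀ i, LocTame (G ⧸ derivedSeries G i) ⊥ := by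
    intro i
    induction i with
    | zero =>
      have : Subsingleton (G ⧸ derivedSeries G 0) := QuotientGroup.subsingleton_quotient_top
      exact (locTame_poly fun D _ => ⟨⊤, inferInstance, inferInstance⟩).mono bot_le
    | succ i ih =>
      refine ab_step ih (QuotientGroup.map _ _ (MonoidHom.id G)
        (derivedSeries_antitone _ (Nat.le_succ i)))
        ((QuotientGroup.mk' _).comp (derivedSeries G i).subtype) ?_ (fun a b => ?_) (hr i)
      · refine Eq.trans ?_ (QuotientGroup.ker_map _ _ (MonoidHom.id G)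
          (derivedSeries_antitone _ (Nat.le_succ i))).symm
        rw [Subgroup.comap_id, ← MonoidHom.map_range, Subgroup.range_subtype]
      · rw [← commutatorElement_eq_one_iff_mul_comm, ← map_commutatorElement]
        exact (QuotientGroup.eq_one_iff _).2 (Subgroup.commutator_mem_commutator a.2 b.2)
  obtain ⟨n, hn⟩ := hs.1
  have h1 := (key n).inj (QuotientGroup.mk' _)
    (by rw [← MonoidHom.ker_eq_bot_iff, QuotientGroup.ker_mk', hn])
  exact (h1.subgroup D hD).imp fun _ h => h.1

end part2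

end Pool.Agent.Lib.MP_5ddd96_lc.W5
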