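import Pool.Agent.Lib.MP_5ddd96_lc.W5.All
import Pool.Agent.Lib.MP_5ddd96_lc.W5.Ex
import Pool.Agent.Lib.MP_5ddd96_lc.W5.Defs2

/-!
The theorem for the class in standard words.
-/

set_option autoImplicit false

namespace Pool.Agent.Lib.MP_5ddd96_lc.W5

open Pool.Agent.Lib.MP_5ddd96_lc.H74

theorem Cls.locTame (G : Type) [Group G] (N : Subgroup G) (h : Cls G N) : LocTame G N := by
  induction h with
  | nil G hG => exact locTame_poly hG
  | torsion G T N hT _ ih =>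
    rcases hT with h | h | h
    · exact ih.torsion _ (by rw [QuotientGroup.ker_mk' T]; exact h)
    · exact ih.stdTorsion T (Or.inl h)
    · exact ih.stdTorsion T (Or.inr (Or.inr (Or.inr h)))
  | hirsch G A N hs hr _ ih => exact LocTame.hirsch A hs hr ih

theorem main2 (o : B) (Γ : Type) [Group Γ] (s : ℕ → Γ)
    (hs : Subgroup.closure (Set.range s) = ⊤) (X : Set B) [MulAction Γ X]
    (hX : Delta11 o (fun (_ : Unit) x _ => x ∈ X))
    (hgen : Sigma11 o (fun (i : ℕ) x y => ∃ hx : x ∈ X, ((s i • (⟨x, hx⟩ : X) : X) : B) = y))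
    (hΓ : ∀ Δ : Subgroup Γ, Δ.FG → ∃ (G : Type) (_ : Group G) (N : Subgroup G) (f : Δ →* G),
      Function.Injective f ∧ Cls G N ∧ ∀ (d : Δ) (x : X), (d : Γ) • x = x → f d ∈ N) :
    Eff o X (fun x y => ∃ (hx : x ∈ X) (γ : Γ), ((γ • (⟨x, hx⟩ : X) : X) : B) = y) := by
  refine main o Γ s hs X hX hgen fun Δ hΔ => ?_
  obtain ⟨G, _, N, f, hf, h1, h2⟩ := hΓ Δ hΔ
  have := (Group.fg_iff_subgroup_fg Δ).2 hΔ
  obtain ⟨N', h3, h4⟩ := h1.locTame G N Δ f hf
  exact ⟨N', h3, fun d x h => h4 (h2 d x h)⟩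

end Pool.Agent.Lib.MP_5ddd96_lc.W5
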