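import Pool.Agent.Lib.MP_5ddd96_lc.W5.St

/-!
Closure properties of local functions, balls, towers, words, and the tie breaking lemma.
-/

set_option autoImplicit false

namespace Pool.Agent.Lib.MP_5ddd96_lc.W5

open Pointwise Pool.Agent.Lib.MP_5ddd96_lc.H74

section loc

variable {G : Type} [Group G] {Z : Type} [MulAction G Z] {c : Z → ℕ} {α β : Type}

theorem IsLoc.self : IsLoc G c c :=
  ⟨{1}, fun x y h => by simpa using h 1 (Finset.mem_singleton_self 1)⟩

theorem IsLoc.const (a : α) : IsLoc G c (fun _ => a) := ⟨∅, fun _ _ _ => rfl⟩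

/-- A function determined by a local function is local. -/
theorem IsLoc.of_det {f : Z → α} (hf : IsLoc G c f) {h : Z → β}
    (e : ∀ x y, f x = f y → h x = h y) : IsLoc G c h := by
  obtain ⟨U, hU⟩ := hf
  exact ⟨U, fun x y hxy => e x y (hU x y hxy)⟩

theorem IsLoc.comp {f : Z → α} (hf : IsLoc G c f) (φ : α → β) : IsLoc G c (fun x => φ (f x)) :=
  hf.of_det fun _ _ h => by rw [h]

theorem IsLoc.pair {f : Z → α} {h : Z → β} (hf : IsLoc G c f) (hh : IsLoc G c h) :
    IsLoc G c (fun x => (f x, h x)) := by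
  classical
  obtain ⟨U, hU⟩ := hf
  obtain ⟨V, hV⟩ := hh
  exact ⟨U ∪ V, fun x y hxy => Prod.ext
    (hU x y fun u hu => hxy u (Finset.mem_union_left _ hu))
    (hV x y fun u hu => hxy u (Finset.mem_union_right _ hu))⟩

theorem IsLoc.comp₂ {γ : Type} {f : Z → α} {h : Z → β} (hf : IsLoc G c f) (hh : IsLoc G c h)
    (φ : α → β → γ) : IsLoc G c (fun x => φ (f x) (h x)) :=
  (hf.pair hh).comp fun p => φ p.1 p.2

theorem IsLoc.shift {f : Z → α} (hf : IsLoc G c f) (g : G) : IsLoc G c (fun x => f (g • x)) := by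
  classical
  obtain ⟨U, hU⟩ := hf
  refine ⟨U.image (fun u => u * g), fun x y hxy => hU _ _ fun u hu => ?_⟩
  rw [← mul_smul, ← mul_smul]
  exact hxy _ (Finset.mem_image_of_mem _ hu)

/-- A function determined by finitely many local functions is local. -/
theorem IsLoc.of_fin {ι : Type} (I : Finset ι) {f : ι → Z → α} (hf : ∀ i ∈ I, IsLoc G c (f i))
    {h : Z → β} (e : ∀ x y, (∀ i ∈ I, f i x = f i y) → h x = h y) : IsLoc G c h := by
  classical
  choose! U hU using hf
  exact ⟨I.biUnion U, fun x y hxy => e x y fun i hi => hU i hi x y fun u hu =>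
    hxy u (Finset.mem_biUnion.2 ⟨i, hi, hu⟩)⟩

/-- A function determined by the values of a local function on `F • x` is local. -/
theorem IsLoc.of_nbhd {f : Z → α} (hf : IsLoc G c f) (F : Finset G) {h : Z → β}
    (e : ∀ x y, (∀ g ∈ F, f (g • x) = f (g • y)) → h x = h y) : IsLoc G c h :=
  IsLoc.of_fin F (f := fun g x => f (g • x)) (fun g _ => hf.shift g) e

/-- Dependent families: a local parameter with finite range. -/
theorem IsLoc.dep {ι : Type} (I : Finset ι) {v : Z → ι} (hv : IsLoc G c v) (hI : ∀ x, v x ∈ I)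
    {f : ι → Z → α} (hf : ∀ i ∈ I, IsLoc G c (f i)) : IsLoc G c (fun x => f (v x) x) := by
  refine IsLoc.of_fin I (f := fun i x => (v x, f i x)) (fun i hi => hv.pair (hf i hi))
    fun x y h => ?_
  have := h (v x) (hI x)
  simp only [Prod.mk.injEq] at this
  rw [← this.1]; exact this.2

/-- Dependent shifts. -/
theorem IsLoc.dshift {f : Z → α} (hf : IsLoc G c f) (D : Finset G) {v : Z → G}
    (hv : IsLoc G c v) (hD : ∀ x, v x ∈ D) : IsLoc G c (fun x => f (v x • x)) :=
  IsLoc.dep D hv hD (f := fun g x => f (g • x)) fun g _ => hf.shift g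

theorem IsLoc.trans {c' : Z → ℕ} (hc : IsLoc G c c') {f : Z → α} (hf : IsLoc G c' f) :
    IsLoc G c f := by
  obtain ⟨U, hU⟩ := hf
  exact hc.of_nbhd U hU

/-- A local choice: the chosen element depends only on the set of admissible elements. -/
theorem IsLoc.choice {ι : Type} (I : Finset ι) {P : ι → Z → Prop}
    (hP : ∀ i ∈ I, IsLoc G c (P i)) (hex : ∀ x, ∃ i ∈ I, P i x) :
    ∃ v : Z → ι, IsLoc G c v ∧ ∀ x, v x ∈ I ∧ P (v x) x := by
  refine ⟨fun x => Classical.choose (hex x), IsLoc.of_fin I hP fun x y h => ?_,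
    fun x => Classical.choose_spec (hex x)⟩
  have e : (fun i => i ∈ I ∧ P i x) = fun i => i ∈ I ∧ P i y :=
    funext fun i => propext (and_congr_right fun hi => by rw [h i hi])
  congr 1

end loc

section ball

variable {G : Type} [Group G] (S : Finset G)

theorem one_mem_ball (r : ℕ) : (1 : G) ∈ ball S r := ⟨[], Nat.zero_le _, by simp, rfl⟩

theorem ball_mono {r s : ℕ} (h : r ≤ s) : ball S r ⊆ ball S s :=
  fun _ ⟨l, h1, h2⟩ => ⟨l, h1.trans h, h2⟩

variable {S}

theorem mul_mem_ball {r s : ℕ} {a b : G} (ha : a ∈ ball S r) (hb : b ∈ ball S s) :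
    a * b ∈ ball S (r + s) := by
  obtain ⟨l, h1, h2, rfl⟩ := ha
  obtain ⟨l', h1', h2', rfl⟩ := hb
  refine ⟨l ++ l', by simp; omega, fun a ha => ?_, by simp⟩
  rcases List.mem_append.1 ha with h | h
  exacts [h2 a h, h2' a h]

theorem inv_mem_ball {r : ℕ} {a : G} (ha : a ∈ ball S r) : a⁻¹ ∈ ball S r := by
  obtain ⟨l, h1, h2, rfl⟩ := ha
  refine ⟨(l.map fun x => x⁻¹).reverse, by simpa using h1, fun a ha => ?_,
    (List.prod_inv_reverse l).symm⟩
  obtain ⟨b, hb, rfl⟩ := List.mem_map.1 (List.mem_reverse.1 ha)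
  simpa [or_comm] using h2 b hb

variable (S)

theorem ball_finite (r : ℕ) : (ball S r).Finite := by
  classical
  induction r with
  | zero =>
    refine (Set.finite_singleton 1).subset ?_
    rintro _ ⟨l, h1, -, rfl⟩
    rw [List.length_eq_zero_iff.1 (Nat.le_zero.1 h1)]; rfl
  | succ r ih =>
    have hS : ((S : Set G) ∪ (S : Set G)⁻¹).Finite := S.finite_toSet.union S.finite_toSet.inv
    refine ((hS.mul ih).insert 1).subset ?_
    rintro _ ⟨l, h1, h2, rfl⟩
    rcases l with _ | ⟨a, l⟩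
    · exact Or.inl rfl
    · refine Or.inr ⟨a, h2 a List.mem_cons_self, l.prod,
        ⟨l, by simpa using h1, fun b hb => h2 b (List.mem_cons_of_mem _ hb), rfl⟩, by simp⟩

theorem exists_mem_ball (hS : Subgroup.closure (S : Set G) = ⊤) (g : G) : ∃ r, g ∈ ball S r := by
  have hg : g ∈ Subgroup.closure (S : Set G) := hS ▸ Subgroup.mem_top g
  induction hg using Subgroup.closure_induction with
  | mem x hx => exact ⟨1, [x], le_rfl, by simpa using Or.inl hx, by simp⟩
  | one => exact ⟨0, one_mem_ball S 0⟩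
  | mul x y _ _ hx hy =>
    obtain ⟨r, hr⟩ := hx
    obtain ⟨s, hs⟩ := hy
    exact ⟨_, mul_mem_ball hr hs⟩
  | inv x _ hx => exact hx.imp fun _ => inv_mem_ball

theorem exists_subset_ball (hS : Subgroup.closure (S : Set G) = ⊤) {W : Set G} (hW : W.Finite) :
    ∃ r, W ⊆ ball S r := by
  choose r hr using exists_mem_ball S hS
  obtain ⟨R, hR⟩ := (hW.image r).bddAbove
  exact ⟨R, fun w hw => ball_mono S (hR ⟨w, hw, rfl⟩) (hr w)⟩

end ball

theorem lt_tow (n : ℕ) : n < tow n := by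
  induction n with
  | zero => exact Nat.one_pos
  | succ n ih => exact lt_of_le_of_lt ih Nat.lt_two_pow_self

theorem two_mul_tow_le (n : ℕ) : 2 * tow n ≤ tow (n + 1) := by
  show 2 * tow n ≤ 2 ^ tow n
  have h := lt_tow n
  obtain ⟨k, hk⟩ : ∃ k, tow n = k + 1 := ⟨tow n - 1, by omega⟩
  rw [hk, pow_succ]
  have := @Nat.lt_two_pow_self k
  omega

theorem act_append (g : ℕ → Equiv.Perm B) (x : B) (l l' : List ℕ) :
    act g x (l ++ l') = act g (act g x l) l' := by
  simp [act, List.foldl_append]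

@[simp] theorem act_nil (g : ℕ → Equiv.Perm B) (x : B) : act g x [] = x := rfl

@[simp] theorem wrd_encode (l : List ℕ) : wrd (Encodable.encode l) = l := by
  simp only [wrd, Encodable.encodek, Option.getD_some]

theorem wrd_comp : Computable wrd := Computable.option_getD Computable.decode (Computable.const _)

theorem tab_pos (g : ℕ → Equiv.Perm B) (F : ℕ × ℕ → B → ℕ) (x : B) (n j : ℕ) (l : List ℕ) :
    tab g F x (pos n j l) = F (n, j) (act g x l) := by
  simp only [tab, pos, Nat.unpair_pair, wrd_encode]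

/-- Tie breaking. `nr y` means that `y` is within `a` of `x`. -/
theorem tie {Z : Type} (nr : Z → Prop) (x : Z) (N a k : ℕ) (s : ℕ → Z → ℕ) (rep : ℕ → Z → Z)
    (al : ℕ → Z → ℕ) (win : Z → ℕ) (hx : nr x)
    (S1 : ∀ e y, nr y → s e x ≤ s e y + 2 * a ∧ s e y ≤ s e x + 2 * a)
    (S2 : ∀ y, nr y → ∃ e, 1 ≤ e ∧ e ≤ N ∧ k ≤ s e y)
    (S4 : ∀ e y, nr y → 2 * a < s e x → rep e y = rep e x)
    (hal : ∀ e y, nr y → 1 ≤ e → e ≤ N → al e (rep e y) + 4 * a < k)
    (hwin : ∀ y, nr y → 1 ≤ win y ∧ win y ≤ N ∧ ∀ e, 1 ≤ e → e ≤ N →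
      s e y + al e (rep e y) ≤ s (win y) y + al (win y) (rep (win y) y))
    (y : Z) (hy : nr y) :
    rep (win y) y = rep (win y) x ∧
      s (win y) x + al (win y) (rep (win y) x) ≤ s (win x) x + al (win x) (rep (win x) x) ∧
      s (win x) x + al (win x) (rep (win x) x) ≤
        s (win y) x + al (win y) (rep (win y) x) + 4 * a := by
  have deep : ∀ z, nr z → 2 * a < s (win z) x := by
    intro z hz
    obtain ⟨e, h1, h2, h3⟩ := S2 z hz
    obtain ⟨w1, w2, w3⟩ := hwin z hz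
    have := w3 e h1 h2
    have := hal (win z) z hz w1 w2
    have := (S1 (win z) z hz).2
    omega
  have e1 := S4 (win y) y hy (deep y hy)
  have e2 := S4 (win x) y hy (deep x hx)
  obtain ⟨x1, x2, x3⟩ := hwin x hx
  obtain ⟨y1, y2, y3⟩ := hwin y hy
  refine ⟨e1, x3 _ y1 y2, ?_⟩
  have h1 := y3 _ x1 x2
  rw [e1, e2] at h1
  have := (S1 (win x) y hy).1
  have := (S1 (win y) y hy).2
  omega

/-- A maximiser on `[1, N]`. -/
theorem exists_win (N : ℕ) (hN : 1 ≤ N) (F : ℕ → ℕ) :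
    ∃ e, 1 ≤ e ∧ e ≤ N ∧ ∀ e', 1 ≤ e' → e' ≤ N → F e' ≤ F e := by
  obtain ⟨e, he, h⟩ := (Finset.Icc 1 N).exists_max_image F ⟨1, Finset.mem_Icc.2 ⟨le_rfl, hN⟩⟩
  exact ⟨e, (Finset.mem_Icc.1 he).1, (Finset.mem_Icc.1 he).2,
    fun e' h1 h2 => h e' (Finset.mem_Icc.2 ⟨h1, h2⟩)⟩

end Pool.Agent.Lib.MP_5ddd96_lc.W5
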