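import Pool.Agent.Lib.MP_5ddd96_lc.W5.Basic

/-!
Greedy colourings, uniformly in the list of words.
-/

set_option autoImplicit false

namespace Pool.Agent.Lib.MP_5ddd96_lc.W5

open Pointwise Pool.Agent.Lib.MP_5ddd96_lc.H74

namespace ColAux

/-- The least length that separates `x` from its neighbours different from `x`. -/
noncomputable def sp (g : ℕ → Equiv.Perm B) (Bw : List (List ℕ)) (x : B) : ℕ :=
  sInf {n | ∀ w, w ∈ Bw → pre (act g x w) n = pre x n → act g x w = x}

/-- A proper colouring with countably many colours. -/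
noncomputable def c0 (g : ℕ → Equiv.Perm B) (Bw : List (List ℕ)) (x : B) : ℕ :=
  Encodable.encode (pre x (sp g Bw x))

/-- The list of words with code `b`. -/
def dec (b : ℕ) : List (List ℕ) := (Encodable.decode (α := List (List ℕ)) b).getD []

/-- The greedy step. -/
noncomputable def stp (g : ℕ → Equiv.Perm B) (q : ℕ × ℕ) (x t : B) : ℕ :=
  sInf {k | ∀ w, w ∈ dec q.2 → c0 g (dec q.2) (act g x w) < q.1 →
    ¬ t (pos (c0 g (dec q.2) (act g x w)) q.2 w) = k}

theorem dec_encode (Bw : List (List ℕ)) : dec (Encodable.encode Bw) = Bw := by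
  simp only [dec, Encodable.encodek, Option.getD_some]

theorem dec_comp : Computable dec := Computable.option_getD Computable.decode (Computable.const _)

theorem sep_one (a b : B) : ∃ n, ∀ m, n ≤ m → pre a m = pre b m → a = b := by
  by_cases h : a = b
  · exact ⟨0, fun _ _ _ => h⟩
  · obtain ⟨i, hi⟩ := Function.ne_iff.1 h
    refine ⟨i + 1, fun m hm e => absurd ?_ hi⟩
    rw [← pre_getD a (n := m) (by omega), ← pre_getD b (n := m) (by omega), e]

theorem sep_list (f : List ℕ → B) (x : B) (Bw : List (List ℕ)) :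
    ∃ n, ∀ m, n ≤ m → ∀ w, w ∈ Bw → pre (f w) m = pre x m → f w = x := by
  induction Bw with
  | nil => exact ⟨0, fun _ _ _ h => absurd h List.not_mem_nil⟩
  | cons a l ih =>
    obtain ⟨n, hn⟩ := ih
    obtain ⟨n', hn'⟩ := sep_one (f a) x
    refine ⟨max n n', fun m hm w hw => ?_⟩
    rcases List.mem_cons.1 hw with rfl | hw
    · exact hn' m (le_trans (le_max_right _ _) hm)
    · exact hn m (le_trans (le_max_left _ _) hm) w hw

theorem c0_proper (g : ℕ → Equiv.Perm B) (Bw : List (List ℕ)) (x : B) {w : List ℕ} (hw : w ∈ Bw)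
    (h : c0 g Bw (act g x w) = c0 g Bw x) : act g x w = x := by
  have h1 : pre (act g x w) (sp g Bw (act g x w)) = pre x (sp g Bw x) :=
    Encodable.encode_injective h
  have h2 : sp g Bw (act g x w) = sp g Bw x := by
    have := congrArg List.length h1
    rwa [pre_length, pre_length] at this
  rw [h2] at h1
  obtain ⟨n, hn⟩ := sep_list (fun w => act g x w) x Bw
  have hne : {n | ∀ w, w ∈ Bw → pre (act g x w) n = pre x n → act g x w = x}.Nonempty :=
    ⟨n, hn n le_rfl⟩
  exact Nat.sInf_mem hne w hw h1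

theorem free_colour (l : List ℕ) : ∃ k, k ≤ l.length ∧ k ∉ l := by
  by_contra hc
  have h : Finset.range (l.length + 1) ⊆ l.toFinset := fun k hk => by
    by_contra hk'
    exact hc ⟨k, Nat.lt_succ_iff.1 (Finset.mem_range.1 hk), fun h => hk' (List.mem_toFinset.2 h)⟩
  have h1 := Finset.card_le_card h
  have h2 := List.toFinset_card_le l
  rw [Finset.card_range] at h1
  omega

variable {o : B} {α : Type} [Primcodable α]

theorem del_mem {w : α → List ℕ} {L : α → List (List ℕ)} (hw : Computable w) (hL : Computable L) :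
    Del o (fun a (_ : B) => w a ∈ L a) := by
  have h : PrimrecRel fun (L : List (List ℕ)) (b : List ℕ) => ∃ a ∈ L, a = b :=
    PrimrecRel.exists_mem_list Primrec.eq
  exact (Del.rel h (SF.const hL) (SF.const hw)).of_iff fun a _ => by simp

theorem pos_prim : Primrec (fun p : (ℕ × ℕ) × List ℕ => pos p.1.1 p.1.2 p.2) :=
  Primrec₂.natPair.comp
    (Primrec₂.natPair.comp (Primrec.fst.comp Primrec.fst) (Primrec.snd.comp Primrec.fst))
    (Primrec.encode.comp Primrec.snd)

variable {g : ℕ → Equiv.Perm B}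

theorem sf_sp (hG : PF o (fun i x => g i x)) : SF o (sp g) := by
  have ha : PF o (fun (r : (List (List ℕ) × ℕ) × List ℕ) x => act g x r.2) :=
    (pf_act hG).par Computable.snd
  have hn : SF o (fun (r : (List (List ℕ) × ℕ) × List ℕ) (_ : B) => r.1.2) :=
    SF.const (Computable.snd.comp Computable.fst)
  exact SF.sInf (P := fun (q : List (List ℕ) × ℕ) x =>
      ∀ w, w ∈ q.1 → pre (act g x w) q.2 = pre x q.2 → act g x w = x)
    (Del.all (P := fun (r : (List (List ℕ) × ℕ) × List ℕ) x =>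
      r.2 ∈ r.1.1 → pre (act g x r.2) r.1.2 = pre x r.1.2 → act g x r.2 = x)
      ((del_mem Computable.snd (Computable.fst.comp Computable.fst)).imp
        ((Del.eq (SF.pre ha hn) (SF.pre PF.id hn)).imp (Del.eqB ha PF.id))))

theorem sf_c0 (hG : PF o (fun i x => g i x)) : SF o (c0 g) :=
  SF.map Computable.encode (SF.pre PF.id (sf_sp hG))

theorem sf_stp (hG : PF o (fun i x => g i x)) :
    SF o (fun (q : ℕ × ℕ) z => stp g q (ev z) (od z)) := by
  have hb : Computable (fun s : ((ℕ × ℕ) × ℕ) × List ℕ => s.1.1.2) :=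
    Computable.snd.comp (Computable.fst.comp Computable.fst)
  have hd : Computable (fun s : ((ℕ × ℕ) × ℕ) × List ℕ => dec s.1.1.2) := dec_comp.comp hb
  have ha : PF o (fun (s : ((ℕ × ℕ) × ℕ) × List ℕ) z => act g (ev z) s.2) :=
    ((pf_act hG).par Computable.snd).comp PF.ev
  have hc : SF o (fun (s : ((ℕ × ℕ) × ℕ) × List ℕ) z =>
      c0 g (dec s.1.1.2) (act g (ev z) s.2)) := ((sf_c0 hG).par hd).comp ha
  have hp : SF o (fun (s : ((ℕ × ℕ) × ℕ) × List ℕ) z =>
      pos (c0 g (dec s.1.1.2) (act g (ev z) s.2)) s.1.1.2 s.2) :=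
    SF.map (c := fun p : (ℕ × ℕ) × List ℕ => pos p.1.1 p.1.2 p.2) pos_prim.to_comp
      ((hc.pair (SF.const hb)).pair SF.snd)
  exact SF.sInf (P := fun (r : (ℕ × ℕ) × ℕ) z => ∀ w, w ∈ dec r.1.2 →
      c0 g (dec r.1.2) (act g (ev z) w) < r.1.1 →
      ¬ od z (pos (c0 g (dec r.1.2) (act g (ev z) w)) r.1.2 w) = r.2)
    (Del.all (P := fun (s : ((ℕ × ℕ) × ℕ) × List ℕ) z => s.2 ∈ dec s.1.1.2 →
      c0 g (dec s.1.1.2) (act g (ev z) s.2) < s.1.1.1 →
      ¬ od z (pos (c0 g (dec s.1.1.2) (act g (ev z) s.2)) s.1.1.2 s.2) = s.1.2)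
      ((del_mem Computable.snd hd).imp
        ((Del.lt hc (SF.const (Computable.fst.comp (Computable.fst.comp Computable.fst)))).imp
          (Del.eq (PF.od.at hp) (SF.const (Computable.snd.comp Computable.fst))).not)))

theorem stp_dep (g : ℕ → Equiv.Perm B) (n j : ℕ) (x t t' : B)
    (h : ∀ m i l, m < n → t (pos m i l) = t' (pos m i l)) :
    stp g (n, j) x t = stp g (n, j) x t' := by
  unfold stp
  refine congrArg sInf (Set.ext fun k => forall_congr' fun w => imp_congr_right fun _ =>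
    imp_congr_right fun hl => ?_)
  rw [h _ _ _ hl]

end ColAux

open ColAux in
theorem pfCol (h : stOrbRec) : stCol := by
  intro o g hG
  obtain ⟨F, hF, hrec⟩ := h o g hG (stp g) (sf_stp hG) (stp_dep g)
  let col : List (List ℕ) → B → ℕ := fun Bw x => F (c0 g Bw x, Encodable.encode Bw) x
  have hcol : ∀ Bw x, col Bw x =
      sInf {k | ∀ w, w ∈ Bw → c0 g Bw (act g x w) < c0 g Bw x → ¬ col Bw (act g x w) = k} := by
    intro Bw x
    show F (c0 g Bw x, Encodable.encode Bw) x = _
    rw [hrec]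
    unfold stp
    simp only [dec_encode, tab_pos, col]
  have hfree : ∀ Bw x, ∃ k, k ≤ Bw.length ∧
      k ∈ {k | ∀ w, w ∈ Bw → c0 g Bw (act g x w) < c0 g Bw x → ¬ col Bw (act g x w) = k} := by
    intro Bw x
    obtain ⟨k, h1, h2⟩ := free_colour (Bw.map fun w => col Bw (act g x w))
    rw [List.length_map] at h1
    exact ⟨k, h1, fun w hw _ e => h2 (List.mem_map.2 ⟨w, hw, e⟩)⟩
  have hmem : ∀ Bw x w, w ∈ Bw → c0 g Bw (act g x w) < c0 g Bw x →
      ¬ col Bw (act g x w) = col Bw x := by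
    intro Bw x
    obtain ⟨k, _, hk⟩ := hfree Bw x
    have := Nat.sInf_mem ⟨k, hk⟩
    rw [← hcol] at this
    exact this
  refine ⟨col, hF.app ((sf_c0 hG).pair (SF.const Computable.encode)), fun Bw =>
    ⟨fun x => ?_, fun hs x w hw e => ?_⟩⟩
  · obtain ⟨k, h1, hk⟩ := hfree Bw x
    rw [hcol]
    exact (Nat.sInf_le hk).trans h1
  · rcases lt_trichotomy (c0 g Bw (act g x w)) (c0 g Bw x) with hl | hl | hl
    · exact absurd e (hmem Bw x w hw hl)
    · exact c0_proper g Bw x hw hl
    · obtain ⟨w', hw', hinv⟩ := hs w hw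
      have := hmem Bw (act g x w) w' hw'
      rw [hinv x] at this
      exact absurd e.symm (this hl)

end Pool.Agent.Lib.MP_5ddd96_lc.W5
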