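import Pool.Agent.Lib.MP_5ddd96_lc.H74Defs

/-!
The class of groups in the statement.
-/

set_option autoImplicit false

namespace Pool.Agent.Lib.MP_5ddd96_lc.W5

/-- The tower function: `1, 2, 4, 16, 65536, ...`. -/
def tow : ℕ → ℕ
  | 0 => 1
  | n + 1 => 2 ^ tow n

/-- Products of at most `r` elements of `S ∪ S⁻¹`. -/
def ball {G : Type} [Group G] (S : Finset G) (r : ℕ) : Set G :=
  {g | ∃ l : List G, l.length ≤ r ∧ (∀ a ∈ l, a ∈ S ∨ a⁻¹ ∈ S) ∧ l.prod = g}

/-- `G` is finitely generated of polynomial growth. -/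
def PolyGrowth (G : Type) [Group G] : Prop :=
  ∃ S : Finset G, Subgroup.closure (S : Set G) = ⊤ ∧
    ∃ C d : ℕ, ∀ r : ℕ, (ball S r).ncard ≤ C * (r + 1) ^ d

/-- The subgroup generated by the conjugates of elements of `E` by elements of `ball S r`. -/
def conjSpan {G : Type} [Group G] (S E : Finset G) (r : ℕ) : Subgroup G :=
  Subgroup.closure {x | ∃ g ∈ ball S r, ∃ e ∈ E, x = g * e * g⁻¹}

/-- For all finite `S ⊆ G` and `E ⊆ T` there are arbitrarily large `j` such that the conjugates of
`E` by `ball S (2 * j)` generate a finite group of order at most `tow j`. -/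
def SubTower {G : Type} [Group G] (T : Subgroup G) : Prop :=
  ∀ S E : Finset G, (∀ e ∈ E, e ∈ T) → ∀ m : ℕ, ∃ j : ℕ, m ≤ j ∧
    (conjSpan S E (2 * j) : Set G).Finite ∧ (conjSpan S E (2 * j) : Set G).ncard ≤ tow j

/-- `A` is torsion-free abelian of finite rank: it embeds into some `ℚ ^ n`. -/
def FinRank {G : Type} [Group G] (A : Subgroup G) : Prop :=
  ∃ (n : ℕ) (φ : A →* Multiplicative (Fin n → ℚ)), Function.Injective φ

/-- `Tame G N`: `G` is built from a group of polynomial growth by extensions with `SubTower` or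
`FinRank` normal kernels; `N` is the subgroup in which stabilisers are allowed to lie. -/
inductive Tame : (G : Type) → [Group G] → Subgroup G → Prop
  | poly (G : Type) [Group G] : PolyGrowth G → Tame G ⊤
  | torsion (G : Type) [Group G] (T : Subgroup G) [T.Normal] (N : Subgroup (G ⧸ T)) :
      SubTower T → Tame (G ⧸ T) N → Tame G (N.comap (QuotientGroup.mk' T))
  | rank (G : Type) [Group G] (A : Subgroup G) [A.Normal] (N : Subgroup (G ⧸ A)) :
      FinRank A → Tame (G ⧸ A) N → Tame G ⊥

end Pool.Agent.Lib.MP_5ddd96_lc.W5
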