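import Pool.Agent.Lib.MP_5ddd96_lc.W5.Basic

/-!
The final assembly: words and groups.
-/

set_option autoImplicit false

namespace Pool.Agent.Lib.MP_5ddd96_lc.W5

open Pointwise Pool.Agent.Lib.MP_5ddd96_lc.H74

namespace MainAux

variable {Γ : Type} [Group Γ]

/-- The letter `2 * i` is `s i`, the letter `2 * i + 1` is its inverse. -/
def ltr (s : ℕ → Γ) (a : ℕ) : Γ := if a % 2 = 0 then s (a / 2) else (s (a / 2))⁻¹

theorem ltr_even (s : ℕ → Γ) (i : ℕ) : ltr s (2 * i) = s i := by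
  have h1 : 2 * i % 2 = 0 := by omega
  have h2 : 2 * i / 2 = i := by omega
  simp only [ltr, h1, h2, if_true]

theorem ltr_odd (s : ℕ → Γ) (i : ℕ) : ltr s (2 * i + 1) = (s i)⁻¹ := by
  have h1 : ¬ (2 * i + 1) % 2 = 0 := by omega
  have h2 : (2 * i + 1) / 2 = i := by omega
  simp only [ltr, h1, h2, if_false]

/-- The value of a word. -/
def val (s : ℕ → Γ) : List ℕ → Γ
  | [] => 1
  | a :: l => val s l * ltr s a

theorem val_append (s : ℕ → Γ) (l l' : List ℕ) : val s (l ++ l') = val s l' * val s l := by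
  induction l with
  | nil => simp [val]
  | cons a l ih => simp only [List.cons_append, val, ih, mul_assoc]

theorem act_val (s : ℕ → Γ) (ρ : Γ →* Equiv.Perm B) (l : List ℕ) (x : B) :
    act (fun a => ρ (ltr s a)) x l = ρ (val s l) x := by
  induction l generalizing x with
  | nil => simp [val]
  | cons a l ih =>
    have e : act (fun a => ρ (ltr s a)) x (a :: l)
        = act (fun a => ρ (ltr s a)) (ρ (ltr s a) x) l := rfl
    rw [e, ih, val, map_mul, Equiv.Perm.mul_apply]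

/-- The letter of the inverse. -/
def flp (a : ℕ) : ℕ := if a % 2 = 0 then a + 1 else a - 1

theorem ltr_flp (s : ℕ → Γ) (a : ℕ) : ltr s (flp a) = (ltr s a)⁻¹ := by
  obtain ⟨i, rfl | rfl⟩ := Nat.even_or_odd' a
  · have h1 : 2 * i % 2 = 0 := by omega
    have : flp (2 * i) = 2 * i + 1 := by simp only [flp, h1, if_true]
    rw [this, ltr_even, ltr_odd]
  · have h1 : ¬ (2 * i + 1) % 2 = 0 := by omega
    have : flp (2 * i + 1) = 2 * i := by simp only [flp, h1, if_false]; omega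
    rw [this, ltr_even, ltr_odd, inv_inv]

theorem flp_div (a : ℕ) : flp a / 2 = a / 2 := by
  unfold flp
  split_ifs <;> omega

theorem exists_inv (s : ℕ → Γ) (I : Set ℕ) (l : List ℕ) (hl : ∀ a ∈ l, a / 2 ∈ I) :
    ∃ l' : List ℕ, (∀ a ∈ l', a / 2 ∈ I) ∧ val s l' = (val s l)⁻¹ := by
  induction l with
  | nil => exact ⟨[], by simp, by simp [val]⟩
  | cons a l ih =>
    obtain ⟨l', h1, h2⟩ := ih fun b hb => hl b (List.mem_cons_of_mem _ hb)
    refine ⟨l' ++ [flp a], fun b hb => ?_, ?_⟩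
    · rcases List.mem_append.1 hb with hb | hb
      · exact h1 b hb
      · rw [List.mem_singleton.1 hb, flp_div]
        exact hl a List.mem_cons_self
    · rw [val_append, h2]
      simp [val, ltr_flp]

theorem exists_word (s : ℕ → Γ) (I : Set ℕ) {γ : Γ} (h : γ ∈ Subgroup.closure (s '' I)) :
    ∃ l : List ℕ, (∀ a ∈ l, a / 2 ∈ I) ∧ val s l = γ := by
  induction h using Subgroup.closure_induction with
  | mem γ hγ =>
    obtain ⟨i, hi, rfl⟩ := hγ
    refine ⟨[2 * i], fun a ha => ?_, by simp [val, ltr_even]⟩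
    have h2 : 2 * i / 2 = i := by omega
    rw [List.mem_singleton.1 ha, h2]
    exact hi
  | one => exact ⟨[], by simp, rfl⟩
  | mul a b _ _ iha ihb =>
    obtain ⟨l, h1, rfl⟩ := iha
    obtain ⟨l', h2, rfl⟩ := ihb
    refine ⟨l' ++ l, fun c hc => ?_, val_append s _ _⟩
    rcases List.mem_append.1 hc with hc | hc
    · exact h2 c hc
    · exact h1 c hc
  | inv a _ iha =>
    obtain ⟨l, h1, rfl⟩ := iha
    exact exists_inv s I l h1

theorem val_mem (s : ℕ → Γ) (I : Set ℕ) (l : List ℕ) (hl : ∀ a ∈ l, a / 2 ∈ I) :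
    val s l ∈ Subgroup.closure (s '' I) := by
  induction l with
  | nil => exact one_mem _
  | cons a l ih =>
    refine mul_mem (ih fun b hb => hl b (List.mem_cons_of_mem _ hb)) ?_
    have h : s (a / 2) ∈ Subgroup.closure (s '' I) :=
      Subgroup.subset_closure ⟨_, hl a List.mem_cons_self, rfl⟩
    unfold ltr
    split_ifs
    · exact h
    · exact inv_mem h

theorem lev_iff (j : ℕ) (l : List ℕ) : lev j l ↔ ∀ a ∈ l, a / 2 ∈ Set.Iio j :=
  forall₂_congr fun a _ => by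
    rw [Set.mem_Iio]
    omega

theorem words_finite (j L : ℕ) : {l : List ℕ | lev j l ∧ l.length ≤ L}.Finite := by
  refine (wd_finite L (2 * j)).subset fun l hl => ⟨hl.2, fun i => ?_⟩
  by_cases hi : i < l.length
  · rw [List.getD_eq_getElem _ _ hi]
    exact (hl.1 _ (List.getElem_mem hi)).le
  · rw [List.getD_eq_default _ _ (not_lt.1 hi)]
    exact Nat.zero_le _

variable {X : Set B} [MulAction Γ X]

open Classical in
/-- The action extended by the identity off `X`. -/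
noncomputable def rho (Γ : Type) [Group Γ] (X : Set B) [MulAction Γ X] : Γ →* Equiv.Perm B :=
  (Equiv.Perm.ofSubtype (p := fun x => x ∈ X)).comp (MulAction.toPermHom Γ X)

theorem rho_mem (γ : Γ) (x : X) : rho Γ X γ x = ((γ • x : X) : B) := by
  classical
  exact Equiv.Perm.ofSubtype_apply_of_mem (p := fun x => x ∈ X) _ x.2

theorem rho_not (γ : Γ) {x : B} (hx : x ∉ X) : rho Γ X γ x = x := by
  classical
  exact Equiv.Perm.ofSubtype_apply_of_not_mem (p := fun x => x ∈ X) _ hx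

theorem rho_iff (γ : Γ) (x y : B) : rho Γ X γ x = y ↔
    (∃ hx : x ∈ X, ((γ • (⟨x, hx⟩ : X) : X) : B) = y) ∨ (x ∉ X ∧ x = y) := by
  by_cases hx : x ∈ X
  · rw [rho_mem γ (⟨x, hx⟩ : X)]
    simp [hx]
  · rw [rho_not γ hx]
    simp [hx]

theorem pf_rho {o : B} (s : ℕ → Γ) (hX : Delta11 o (fun (_ : Unit) x _ => x ∈ X))
    (hg : Sigma11 o (fun (i : ℕ) x y => ∃ hx : x ∈ X, ((s i • (⟨x, hx⟩ : X) : X) : B) = y)) :
    PF o (fun a x => rho Γ X (ltr s a) x) := by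
  have h1 : Sig o (fun (i : ℕ) w => rho Γ X (s i) (ev w) = od w) :=
    (hg.sig.or ((hX.2.sig.par (Computable.const ())).and (Del.eqB PF.ev PF.od).1)).of_iff
      fun i w => rho_iff _ _ _
  have h2 : Sig o (fun (i : ℕ) w => rho Γ X (s i) (od w) = ev w) :=
    (h1.comp (PF.mg PF.od PF.ev)).of_iff fun i w => by rw [ev_mg, od_mg]
  refine PF.of_graph (Sig.sigma11 ?_)
  refine ((((Del.const peven).1.and (h1.par pdiv2.to_comp))).or
    ((Del.const peven).2.and (h2.par pdiv2.to_comp))).of_iff fun a w => ?_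
  unfold ltr
  by_cases ha : a % 2 = 0
  · simp [ha]
  · simp only [ha, if_false, false_and, false_or, not_false_eq_true, true_and, map_inv]
    rw [Equiv.Perm.inv_eq_iff_eq, eq_comm]

theorem good_off (g : ℕ → Equiv.Perm B) {lam : ℕ → B → List ℕ} {x : B}
    (hx : ∀ l, act g x l = x) {p : ℕ} (hp : lam p x = []) (j L : ℕ) : Good g lam j 1 L p x := by
  intro u
  rw [hx u, hp]
  refine ⟨⟨fun a ha => by simp at ha, Nat.zero_le _⟩, ?_⟩
  refine (Set.ncard_le_ncard (t := {lab g lam p x}) ?_ (Set.finite_singleton _)).trans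
    (Set.ncard_singleton _).le
  rintro _ ⟨y, ⟨l, -, -, rfl⟩, rfl⟩
  rw [hx l]
  rfl

theorem good_on (s : ℕ → Γ) (g : ℕ → Equiv.Perm B)
    (hg : ∀ (l : List ℕ) (x : B), act g x l = rho Γ X (val s l) x)
    {col : List (List ℕ) → B → ℕ} {lam : ℕ → B → List ℕ}
    (hc : ∀ Bw : List (List ℕ), (∀ x, col Bw x ≤ Bw.length) ∧
      ((∀ w ∈ Bw, ∃ w' ∈ Bw, ∀ x, act g (act g x w) w' = x) →
        ∀ x, ∀ w ∈ Bw, col Bw (act g x w) = col Bw x → act g x w = x))
    (ht : ∀ (Bw Uw : List (List ℕ)) (R : ℕ) (Y : Set B) (t : B → List ℕ),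
      (∀ x ∈ Y, ∀ y ∈ Y, (∀ u ∈ Uw, col Bw (act g x u) = col Bw (act g y u)) → t x = t y) →
      ∃ p : ℕ, p.unpair.1 = R ∧ ∀ x ∈ Y, lam p x = t x)
    (j C : ℕ) (Δ : Subgroup Γ) (hΔ : Subgroup.closure (s '' Set.Iio j) = Δ) (N : Subgroup Δ)
    (hN : ∀ (d : Δ) (x : X), (d : Γ) • x = x → d ∈ N) (hL : LocZ Δ N C) (L : ℕ) :
    ∃ p, ∀ x ∈ X, Good g lam j C L p x := by
  classical
  have hw : ∀ d : Δ, ∃ l : List ℕ, lev j l ∧ val s l = d := fun d => by
    obtain ⟨l, h1, h2⟩ := exists_word s (Set.Iio j) (γ := d) (hΔ ▸ d.2)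
    exact ⟨l, (lev_iff j l).2 h1, h2⟩
  choose wd hwl hwv using hw
  have hv : ∀ l, lev j l → val s l ∈ Δ := fun l hl =>
    hΔ ▸ val_mem s (Set.Iio j) l ((lev_iff j l).1 hl)
  have hact : ∀ (d : Δ) (z : X), act g z (wd d) = ((d • z : X) : B) := fun d z => by
    rw [hg, hwv, rho_mem]
    rfl
  have hWf : {d : Δ | ∃ l, lev j l ∧ l.length ≤ L ∧ val s l = d}.Finite := by
    refine Set.Finite.of_finite_image (f := fun d : Δ => (d : Γ)) ?_
      Subtype.val_injective.injOn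
    refine ((words_finite j L).image (val s)).subset ?_
    rintro _ ⟨d, ⟨l, h1, h2, h3⟩, rfl⟩
    exact ⟨l, ⟨h1, h2⟩, h3⟩
  obtain ⟨Bs, D, hB⟩ := hL hWf.toFinset
  obtain ⟨B0, hB0⟩ : ∃ B0 : Finset Δ, B0 = Bs ∪ D * hWf.toFinset * (D * hWf.toFinset)⁻¹ :=
    ⟨_, rfl⟩
  obtain ⟨Bw, hBw⟩ : ∃ Bw : List (List ℕ), Bw = (B0 ∪ B0⁻¹).toList.map wd := ⟨_, rfl⟩
  have hmem : ∀ b ∈ B0 ∪ B0⁻¹, wd b ∈ Bw := fun b hb =>
    hBw ▸ List.mem_map.2 ⟨b, Finset.mem_toList.2 hb, rfl⟩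
  have hsym : ∀ w ∈ Bw, ∃ w' ∈ Bw, ∀ x, act g (act g x w) w' = x := by
    intro w hw
    rw [hBw] at hw
    obtain ⟨b, hb, rfl⟩ := List.mem_map.1 hw
    have hb := Finset.mem_toList.1 hb
    refine ⟨wd b⁻¹, hmem _ ?_, fun x => ?_⟩
    · rcases Finset.mem_union.1 hb with hb | hb
      · exact Finset.mem_union_right _ (Finset.inv_mem_inv hb)
      · exact Finset.mem_union_left _ (Finset.mem_inv'.1 hb)
    · rw [hg, hg, hwv, hwv, ← Equiv.Perm.mul_apply, ← map_mul]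
      simp
  have hprop : ∀ (z : X), ∀ b ∈ B0, col Bw ((b • z : X) : B) = col Bw z → b • z = z := by
    intro z b hb h
    have := (hc Bw).2 hsym z (wd b) (hmem b (Finset.mem_union_left _ hb)) (by rw [hact, h])
    rw [hact] at this
    exact Subtype.ext this
  obtain ⟨τ, hτD, ⟨U, hU⟩, hτC⟩ := hB (Bw.length + 1) X (fun z => col Bw z)
    (fun z => Nat.lt_succ_of_le ((hc Bw).1 z))
    (fun z b hb h => hN b z (hprop z b (hB0 ▸ Finset.mem_union_left _ hb) h))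
  obtain ⟨p, hp1, hp2⟩ := ht Bw (U.toList.map wd) (D.sup fun d => (wd d).length) X
    (fun y => if hy : y ∈ X then wd (τ ⟨y, hy⟩) else []) (by
      intro x hx y hy h
      rw [dif_pos hx, dif_pos hy, hU ⟨x, hx⟩ ⟨y, hy⟩ fun u hu => ?_]
      have := h (wd u) (List.mem_map.2 ⟨u, Finset.mem_toList.2 hu, rfl⟩)
      rwa [hact u ⟨x, hx⟩, hact u ⟨y, hy⟩] at this)
  have hlam : ∀ z : X, lam p z = wd (τ z) := fun z => by
    rw [hp2 z z.2, dif_pos z.2]
  refine ⟨p, fun x hx u => ?_⟩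
  obtain ⟨z, hz⟩ : ∃ z : X, act g x u = z := ⟨val s u • (⟨x, hx⟩ : X), by
    rw [hg]
    exact rho_mem _ (⟨x, hx⟩ : X)⟩
  rw [hz, hlam]
  refine ⟨⟨hwl _, hp1 ▸ Finset.le_sup (f := fun d => (wd d).length) (hτD z)⟩, ?_⟩
  have hlev : ∀ y ∈ Lev (nrr g j) (lab g lam p) L (z : B),
      ∃ w ∈ hWf.toFinset, y = ((τ (w • z) • w • z : X) : B) := by
    rintro _ ⟨y, ⟨l, h1, h2, rfl⟩, rfl⟩
    refine ⟨⟨val s l, hv l h1⟩, hWf.mem_toFinset.2 ⟨l, h1, h2, rfl⟩, ?_⟩
    have e : act g z l = (((⟨val s l, hv l h1⟩ : Δ) • z : X) : B) := by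
      rw [hg, rho_mem]
      rfl
    rw [e, lab, hlam, hact]
  refine le_trans ?_ (hτC z)
  rw [← Set.ncard_coe_finset]
  refine Set.ncard_le_ncard_of_injOn (col Bw) (fun y hy => ?_) (fun y hy y' hy' h => ?_)
    (Finset.finite_toSet _)
  · obtain ⟨w, hw, rfl⟩ := hlev y hy
    exact Finset.mem_coe.2 (Finset.mem_image.2 ⟨w, hw, rfl⟩)
  · obtain ⟨w, hw, rfl⟩ := hlev y hy
    obtain ⟨w', hw', rfl⟩ := hlev y' hy'
    have e : (τ (w • z) * w * (τ (w' • z) * w')⁻¹) • (τ (w' • z) • w' • z)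
        = τ (w • z) • w • z := by
      simp only [smul_smul, mul_assoc, inv_mul_cancel, mul_one]
    have := hprop (τ (w' • z) • w' • z) (τ (w • z) * w * (τ (w' • z) * w')⁻¹)
      (hB0 ▸ Finset.mem_union_right _ (Finset.mul_mem_mul (Finset.mul_mem_mul (hτD _) hw)
        (Finset.inv_mem_inv (Finset.mul_mem_mul (hτD _) hw')))) (by rw [e, h])
    rw [← e, this]

end MainAux

open MainAux in
theorem pfMain (h1 : stCol) (h2 : stTable) (h3 : stEff) (h4 : stTame) : stMain := by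
  intro o Γ _ s hs X _ hX hgr hT
  obtain ⟨g, hg⟩ : ∃ g : ℕ → Equiv.Perm B, g = fun a => rho Γ X (ltr s a) := ⟨_, rfl⟩
  have hact : ∀ (l : List ℕ) (x : B), act g x l = rho Γ X (val s l) x := fun l x => by
    rw [hg, act_val]
  have hsym : Sym g := fun i => by
    rw [hg]
    simp only [ltr_even, ltr_odd, map_inv]
  have hpf : PF o (fun i x => g i x) := hg ▸ pf_rho s hX hgr
  have hsurj : Function.Surjective (val s) := fun γ => by
    obtain ⟨l, -, h⟩ := exists_word s Set.univ (γ := γ) (by rw [Set.image_univ, hs]; trivial)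
    exact ⟨l, h⟩
  have hcount : Countable Γ := hsurj.countable
  obtain ⟨col, hcol, hc⟩ := h1 o g hpf
  obtain ⟨lam, hlam, ht⟩ := h2 o g hpf col hcol fun Bw => (hc Bw).1
  obtain ⟨F, hF, hFe, hFm, hFu⟩ := h3 o g hsym hpf lam hlam (by
    intro x j
    by_cases hx : x ∈ X
    · obtain ⟨N, hN1, hN2⟩ := hT (Subgroup.closure (s '' Set.Iio j))
        ((Subgroup.fg_iff _).2 ⟨_, rfl, (Set.finite_Iio j).image s⟩)
      obtain ⟨C, hC⟩ := h4 _ N hN1 inferInstance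
      refine ⟨C, fun L => ?_⟩
      obtain ⟨p, hp⟩ := good_on s g hact hc ht j C _ rfl N hN2 hC L
      exact ⟨p, hp x hx⟩
    · obtain ⟨p, -, hp⟩ := ht [] [] 0 {x} (fun _ => []) fun _ _ _ _ _ => rfl
      exact ⟨1, fun L => ⟨p, good_off g (fun l => by rw [hact, rho_not _ hx]) (hp x rfl) j L⟩⟩)
  have hin : ∀ n x y, x ∈ X → F n x y → y ∈ X := by
    intro n x y hx h
    obtain ⟨l, rfl⟩ := (hFu x y).2 ⟨n, h⟩
    rw [hact, rho_mem _ (⟨x, hx⟩ : X)]
    exact Subtype.property _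
  refine ⟨fun n x y => x ∈ X ∧ F n x y, ?_, fun n => ?_, fun n x y h => ⟨h.1, hFm n x y h.2⟩,
    fun x y => ?_⟩
  · have a : Del o (fun (_ : Unit) w => ev w ∈ X) := ⟨hX.1.sig, hX.2.sig⟩
    have b : Del o (fun (n : ℕ) w => F n (ev w) (od w)) := ⟨hF.1.sig, hF.2.sig⟩
    exact Del.delta11 ((a.par (Computable.const ())).and b)
  · exact ⟨fun x y h => ⟨h.1, hin n x y h.1 h.2⟩, fun x hx => ⟨hx, (hFe n).refl x trivial⟩,
      fun x y h => ⟨hin n x y h.1 h.2, (hFe n).symm x y h.2⟩,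
      fun x y z h h' => ⟨h.1, (hFe n).trans x y z h.2 h'.2⟩,
      fun x => ((hFe n).finite x).subset fun y hy => hy.2⟩
  · constructor
    · rintro ⟨hx, γ, rfl⟩
      obtain ⟨l, rfl⟩ := hsurj γ
      obtain ⟨n, hn⟩ := (hFu x _).1 ⟨l, rfl⟩
      rw [hact, rho_mem _ (⟨x, hx⟩ : X)] at hn
      exact ⟨n, hx, hn⟩
    · rintro ⟨n, hx, h⟩
      obtain ⟨l, rfl⟩ := (hFu x y).2 ⟨n, h⟩
      exact ⟨hx, val s l, by rw [hact, rho_mem _ (⟨x, hx⟩ : X)]⟩

end Pool.Agent.Lib.MP_5ddd96_lc.W5
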