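import Pool.Agent.Lib.MP_5ddd96_lc.W5.Defs
import Pool.Agent.Lib.MP_5ddd96_lc.H74Main

/-!
Auxiliary definitions and the statements of the steps of the proof.
-/

set_option autoImplicit false

namespace Pool.Agent.Lib.MP_5ddd96_lc.W5

open Pointwise Pool.Agent.Lib.MP_5ddd96_lc.H74

section comb

/-- `f` depends only on finitely many colours `c (u • x)`. -/
def IsLoc (G : Type) [Group G] {Z : Type} [MulAction G Z] (c : Z → ℕ) {α : Type} (f : Z → α) :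
    Prop :=
  ∃ U : Finset G, ∀ x y, (∀ u ∈ U, c (u • x) = c (u • y)) → f x = f y

/-- Equal colours along `b ∈ Bs` force `b ∈ N`. -/
def Adm {G : Type} [Group G] {Z : Type} [MulAction G Z] (c : Z → ℕ) (Bs : Finset G)
    (N : Subgroup G) : Prop :=
  ∀ x, ∀ b ∈ Bs, c (b • x) = c x → b ∈ N

/-- Local labellings with at most `C` colours of labels on `W`-balls, on all `G`-sets. -/
def LocZ (G : Type) [Group G] (N : Subgroup G) (C : ℕ) : Prop :=
  ∀ W : Finset G, ∃ Bs D : Finset G, ∀ (M : ℕ) (Z : Type) [MulAction G Z] (c : Z → ℕ),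
    (∀ x, c x < M) → Adm c Bs N →
    ∃ τ : Z → G, (∀ x, τ x ∈ D) ∧ IsLoc G c τ ∧
      ∀ x, (W.image (fun w => c (τ (w • x) • w • x))).card ≤ C

/-- The window form: a rule on colourings of the group itself. -/
def LocW (Q : Type) [Group Q] (N : Subgroup Q) (C : ℕ) : Prop :=
  ∀ W : Finset Q, ∃ Bs D : Finset Q, ∀ M : ℕ, ∃ (U : Finset Q) (τ : (Q → ℕ) → Q),
    D ⊆ U ∧ (∀ ω, τ ω ∈ D) ∧ (∀ ω ω', (∀ u ∈ U, ω u = ω' u) → τ ω = τ ω') ∧
    ∀ ω : Q → ℕ, (∀ u ∈ U, ∀ w ∈ W, ω (u * w) < M) →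
      (∀ u ∈ U, ∀ w ∈ W, ∀ u' ∈ U, ∀ w' ∈ W, u' * w' * (u * w)⁻¹ ∈ Bs →
        ω (u' * w') = ω (u * w) → u' * w' * (u * w)⁻¹ ∈ N) →
      (W.image (fun w => ω (τ (fun q => ω (q * w)) * w))).card ≤ C

/-- `V` is a finite symmetric subset of `A` containing `1`. -/
def SymIn {Q : Type} [Group Q] (A : Subgroup Q) (V : Finset Q) : Prop :=
  (1 : Q) ∈ V ∧ (∀ v ∈ V, v⁻¹ ∈ V) ∧ ∀ v ∈ V, v ∈ A

/-- Property (D) with the bound `m`. -/
def PropD {Q : Type} [Group Q] (A : Subgroup Q) (m : Q → ℕ) : Prop :=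
  ∀ Θ E : Finset Q, (∀ e ∈ E, e ∈ A) → ∃ V : Finset Q, SymIn A V ∧ E ⊆ V ∧
    ∀ g ∈ Θ, ((V : Set Q) ^ 5 * {g} * (V : Set Q) ^ 5).ncard ≤ m g * V.card

/-- Greedy nets. -/
def stNet : Prop :=
  ∀ (G : Type) [Group G] (Z : Type) [MulAction G Z] (F : Finset G), (1 : G) ∈ F →
    (∀ f ∈ F, f⁻¹ ∈ F) → ∀ (M : ℕ) (c : Z → ℕ), (∀ x, c x < M) →
    ∃ (Y : Z → Prop) (v : Z → G), IsLoc G c Y ∧ IsLoc G c v ∧ (∀ x, v x ∈ F ∧ Y (v x • x)) ∧
      ∀ y, ∀ f ∈ F, Y y → Y (f • y) → c (f • y) = c y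

/-- Greedy colouring of a local set. -/
def stColour : Prop :=
  ∀ (G : Type) [Group G] (Z : Type) [MulAction G Z] (F : Finset G), (∀ f ∈ F, f⁻¹ ∈ F) →
    ∀ (M : ℕ) (c : Z → ℕ), (∀ x, c x < M) → (∀ x, ∀ f ∈ F, c (f • x) = c x → f • x = x) →
    ∀ Y : Z → Prop, IsLoc G c Y → ∀ m : ℕ,
    (∀ y, Y y → {z | Y z ∧ ∃ f ∈ F, z = f • y}.ncard ≤ m) →
    ∃ χ : Z → ℕ, IsLoc G c χ ∧ (∀ x, χ x ≤ m) ∧
      ∀ y, ∀ f ∈ F, Y y → Y (f • y) → χ (f • y) = χ y → f • y = y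

/-- One colour reduction step. -/
def stLinial : Prop :=
  ∀ L d : ℕ, ∃ φ : ℕ → Finset ℕ → ℕ, (∀ a A, φ a A < (2 * L + 1) ^ d) ∧
    ∀ (a b : ℕ) (A A' : Finset ℕ), a < 2 ^ L → b < 2 ^ L → A.card ≤ d → A'.card ≤ d →
      φ a A = φ b A' → b ∈ A → a = b

/-- Iterated colour reduction, keeping a family of invariants `P`. -/
def stSteps : Prop :=
  ∀ (G : Type) [Group G] (Z : Type) [MulAction G Z] (R : Finset G) (d n : ℕ)
    (P : ℕ → (Z → ℕ) → Prop),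
    (∀ i, i < n → ∀ (f : Z → ℕ) (φ : ℕ → Finset ℕ → ℕ), P i f →
      P (i + 1) (fun x => φ (f x) (R.image (fun r => f (r • x))))) →
    (∀ i, i < n → ∀ f : Z → ℕ, P i f → ∀ x, (R.image (fun r => f (r • x))).card ≤ d) →
    ∀ c : Z → ℕ, P 0 c → (∀ x, c x < 2 ^ (d * (tow n + (2 * d + 3)))) →
    ∃ c' : Z → ℕ, P n c' ∧ (∀ x, c' x < 2 ^ (d * (2 * d + 4))) ∧
      ∀ x, ∀ r ∈ R, c' (r • x) = c' x → c (r • x) = c x

def stPoly : Prop := ∀ (G : Type) [Group G], PolyGrowth G → ∃ C, LocZ G ⊤ C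

def stWin : Prop :=
  ∀ (Q : Type) [Group Q] [Countable Q] (N : Subgroup Q) (C : ℕ), LocZ Q N C → LocW Q N C

def stTorsion : Prop :=
  ∀ (G : Type) [Group G] (T : Subgroup G) [T.Normal] (N : Subgroup (G ⧸ T)) (C : ℕ),
    SubTower T → LocW (G ⧸ T) N C → LocZ G (N.comap (QuotientGroup.mk' T)) C

def stPropD : Prop :=
  ∀ (Q : Type) [Group Q] (A : Subgroup Q) [A.Normal], FinRank A → ∃ m, PropD A m

/-- Packing bound for separated sets. -/
def stPack : Prop :=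
  ∀ (G : Type) [Group G] (Z : Type) [MulAction G Z] (V : Finset G), (∀ v ∈ V, v⁻¹ ∈ V) →
    (∀ (x : Z), ∀ v ∈ V, ∀ v' ∈ V, v • x = v' • x → v = v') →
    ∀ Y : Z → Prop, (∀ y, ∀ v ∈ V, ∀ v' ∈ V, Y y → Y ((v * v') • y) → (v * v') • y = y) →
    ∀ (F : Set G), F.Finite → ∀ x : Z,
      {z | Y z ∧ ∃ f ∈ F, z = f • x}.ncard * V.card ≤ ((V : Set G) * F).ncard

/-- One fine level: `H` local maps along `A` in general position at scale `V`. -/
def stFine : Prop :=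
  ∀ (Q : Type) [Group Q] (A : Subgroup Q) (m : Q → ℕ), PropD A m →
    ∀ (H : ℕ) (V : Finset Q), SymIn A V →
    ∃ Bs D : Finset Q, (∀ d ∈ D, d ∈ A) ∧
      ∀ (M : ℕ) (Z : Type) [MulAction Q Z] (c : Z → ℕ), (∀ x, c x < M) → Adm c Bs ⊥ →
      ∃ μ : ℕ → Z → Q, (∀ i, IsLoc Q c (μ i)) ∧ (∀ i x, μ i x ∈ D) ∧
        (∀ i, i < H → ∀ x, {z | ∃ v ∈ V, z = μ i (v • x) • v • x}.ncard ≤ m 1) ∧
        ∀ x, {i | i < H ∧ ∃ v ∈ V, μ i (v • x) • v • x ≠ μ i x • x}.ncard ≤ m 1 ^ 2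

/-- General position: one local map along `A` whose transports by the elements of `P` are constant
on `E`-balls for all but `m 1 ^ 2` elements. -/
def stGen : Prop :=
  ∀ (Q : Type) [Group Q] (A : Subgroup Q) [A.Normal] (m : Q → ℕ), PropD A m →
    ∀ P E : Finset Q, (∀ p ∈ P, ∀ p' ∈ P, p⁻¹ * p' ∈ A → p = p') → (1 : Q) ∈ E →
    (∀ e ∈ E, e ∈ A) →
    ∃ Bs D : Finset Q, (∀ d ∈ D, d ∈ A) ∧
      ∀ (M : ℕ) (Z : Type) [MulAction Q Z] (c : Z → ℕ), (∀ x, c x < M) → Adm c Bs ⊥ →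
      ∃ ψ : Z → Q, IsLoc Q c ψ ∧ (∀ x, ψ x ∈ D) ∧
        (∀ x, ∀ p ∈ P, {z | ∃ e ∈ E, z = ψ (p • e • x) • p • e • x}.ncard ≤ m 1) ∧
        ∀ x, {p | p ∈ P ∧ ∃ e ∈ E, ψ (p • e • x) • p • e • x ≠ ψ (p • x) • p • x}.ncard ≤ m 1 ^ 2

def stRank : Prop :=
  ∀ (Q : Type) [Group Q] (A : Subgroup Q) [A.Normal] (N : Subgroup (Q ⧸ A)) (C : ℕ) (m : Q → ℕ),
    PropD A m → LocW (Q ⧸ A) N C → ∃ C', LocZ Q ⊥ C'

end comb

section level

/-- `nr r x y`: the distance from `x` to `y` is at most `r`; balls are finite. -/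
structure IsNear {Z : Type} (nr : ℕ → Z → Z → Prop) : Prop where
  refl : ∀ r x, nr r x x
  mono : ∀ {r s x y}, r ≤ s → nr r x y → nr s x y
  symm : ∀ {r x y}, nr r x y → nr r y x
  trans : ∀ {r s x y z}, nr r x y → nr s y z → nr (r + s) x z
  fin : ∀ r x, {y | nr r x y}.Finite

variable {Z : Type}

/-- The labels on the ball of radius `t`. -/
def Lev (nr : ℕ → Z → Z → Prop) (lab : Z → Z) (t : ℕ) (x : Z) : Set Z := lab '' {y | nr t x y}

/-- The first radius with `e` labels, cut at `L`. -/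
noncomputable def tau (nr : ℕ → Z → Z → Prop) (lab : Z → Z) (L e : ℕ) (x : Z) : ℕ :=
  sInf {t | L ≤ t ∨ e ≤ (Lev nr lab t x).ncard}

/-- The score of the colour `e`. -/
noncomputable def sc (nr : ℕ → Z → Z → Prop) (lab : Z → Z) (L e : ℕ) (x : Z) : ℕ :=
  tau nr lab L (e + 1) x - tau nr lab L e x

def stLevel : Prop :=
  ∀ (Z : Type) (nr : ℕ → Z → Z → Prop), IsNear nr → ∀ (lab : Z → Z) (L : ℕ),
    (∀ e x, tau nr lab L e x ≤ L) ∧
    (∀ e r x y, nr r x y → sc nr lab L e x ≤ sc nr lab L e y + 2 * r) ∧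
    (∀ N k x, (Lev nr lab L x).ncard ≤ N → N * k ≤ L →
      ∃ e, 1 ≤ e ∧ e ≤ N ∧ k ≤ sc nr lab L e x) ∧
    ∀ e r x y, nr r x y → 2 * r < sc nr lab L e x →
      Lev nr lab (tau nr lab L e y) y = Lev nr lab (tau nr lab L e x) x

/-- `k` steps `μ n j, μ n (j + 1), ...`. -/
def it (μ : ℕ → ℕ → Z → Z) (n j : ℕ) : ℕ → Z → Z
  | 0, y => y
  | k + 1, y => μ n (j + k) (it μ n j k y)

/-- `μ n (n - 1) ∘ ... ∘ μ n j`. -/
def ff (μ : ℕ → ℕ → Z → Z) (n j : ℕ) (y : Z) : Z := it μ n j (n - j) y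

open Classical in
/-- The number of earlier stages that are active at `z`. -/
noncomputable def io (nr : ℕ → Z → Z → Prop) (D : ℕ) (μ : ℕ → ℕ → Z → Z) (n j : ℕ) (z : Z) : ℕ :=
  ((Finset.range n).filter
    (fun n' => ∃ y, nr (2 * D) z y ∧ ff μ n' (j + 1) y ≠ ff μ n' (j + 1) z)).card

/-- The required depth. -/
def kk (N N' a j : ℕ) : ℕ := (4 * a + 1) * (N' ^ 2 + j + 3) ^ (N + 1) + 4 * a + 1

/-- The tie breaking weight. -/
def wt (N' a j i e : ℕ) : ℕ := (4 * a + 1) * i * (N' ^ 2 + j + 3) ^ e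

def stUnion : Prop :=
  ∀ (Z : Type) (nr : ℕ → ℕ → Z → Z → Prop), (∀ j, IsNear (nr j)) →
    (∀ j r x y, nr j r x y → nr (j + 1) r x y) →
    ∀ O : Set Z, (∀ j r x y, x ∈ O → nr j r x y → y ∈ O) →
    ∀ (N a D : ℕ → ℕ) (s : ℕ → ℕ → Z → ℕ) (rep μ : ℕ → ℕ → Z → Z),
    (∀ j, a (j + 1) = a j + 2 * D j + 1) →
    (∀ j e r x y, x ∈ O → nr j r x y → s j e x ≤ s j e y + 2 * r) →
    (∀ j x, x ∈ O → ∃ e, 1 ≤ e ∧ e ≤ N j ∧ kk (N j) (N (j + 1)) (a j) j ≤ s j e x) →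
    (∀ j e x, x ∈ O → nr j (D j) x (rep j e x)) →
    (∀ j e r x y, x ∈ O → nr j r x y → 2 * r < s j e x → rep j e y = rep j e x) →
    (∀ n j x, x ∈ O → ∃ e, 1 ≤ e ∧ e ≤ N j ∧ μ n j x = rep j e x ∧ ∀ e', 1 ≤ e' → e' ≤ N j →
      s j e' x + wt (N (j + 1)) (a j) j (io (nr j) (D j) μ n j (rep j e' x)) e' ≤
        s j e x + wt (N (j + 1)) (a j) j (io (nr j) (D j) μ n j (rep j e x)) e) →
    (∀ n x, x ∈ O → nr n (a n) x (ff μ n 0 x)) ∧
      ∀ j r x y, x ∈ O → nr j r x y → ∃ n₀, ∀ n, n₀ ≤ n → ff μ n 0 x = ff μ n 0 y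

end level

section eff

/-- Words in the first `2 * j` letters. -/
def lev (j : ℕ) (l : List ℕ) : Prop := ∀ a ∈ l, a < 2 * j

/-- The word with code `k`. -/
def wrd (k : ℕ) : List ℕ := (Encodable.decode (α := List ℕ) k).getD []

/-- Lexicographic order. -/
def lexle (y z : B) : Prop := y = z ∨ ∃ n, (∀ m, m < n → y m = z m) ∧ y n < z n

variable (g : ℕ → Equiv.Perm B) (lam : ℕ → B → List ℕ)

/-- Distance at most `r` in the graph of the first `2 * j` letters. -/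
def nrr (j r : ℕ) (x y : B) : Prop := ∃ l, lev j l ∧ l.length ≤ r ∧ act g x l = y

/-- The label given by the code `p`. -/
def lab (p : ℕ) (y : B) : B := act g y (lam p y)

/-- The code `p` is good on the orbit of `x`. -/
def Good (j C L p : ℕ) (x : B) : Prop :=
  ∀ u : List ℕ, (lev j (lam p (act g x u)) ∧ (lam p (act g x u)).length ≤ p.unpair.1) ∧
    (Lev (nrr g j) (lab g lam p) L (act g x u)).ncard ≤ C

noncomputable def NN (j : ℕ) (x : B) : ℕ := sInf {C | ∀ L, ∃ p, Good g lam j C L p x}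

noncomputable def best (j L : ℕ) (x : B) : ℕ := sInf {p | Good g lam j (NN g lam j x) L p x}

noncomputable def aa (x : B) : ℕ → ℕ
  | 0 => 0
  | j + 1 => aa x j + 2 * (NN g lam j x * kk (NN g lam j x) (NN g lam (j + 1) x) (aa x j) j +
      (best g lam j (NN g lam j x * kk (NN g lam j x) (NN g lam (j + 1) x) (aa x j) j) x).unpair.1)
      + 1

noncomputable def LL (j : ℕ) (x : B) : ℕ :=
  NN g lam j x * kk (NN g lam j x) (NN g lam (j + 1) x) (aa g lam x j) j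

noncomputable def pp (j : ℕ) (x : B) : ℕ := best g lam j (LL g lam j x) x

noncomputable def DD (j : ℕ) (x : B) : ℕ := LL g lam j x + (pp g lam j x).unpair.1

/-- The code of a word leading to a point with the least label on the ball of radius `t`. -/
noncomputable def repc (j p t : ℕ) (x : B) : ℕ :=
  sInf {k | (lev j (wrd k) ∧ (wrd k).length ≤ t) ∧ ∀ v : List ℕ, lev j v → v.length ≤ t →
    lexle (lab g lam p (act g x (wrd k))) (lab g lam p (act g x v))}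

/-- The word leading to the least label on the ball of radius `t`. -/
noncomputable def repw (j p t : ℕ) (x : B) : List ℕ :=
  wrd (repc g lam j p t x) ++ lam p (act g x (wrd (repc g lam j p t x)))

/-- The table of the values of `F` on the orbit of `x`. -/
def tab (F : ℕ × ℕ → B → ℕ) (x : B) : B := fun k => F k.unpair.1.unpair (act g x (wrd k.unpair.2))

/-- The position of the value at `(n, j)` and the word `l` in a table. -/
def pos (n j : ℕ) (l : List ℕ) : ℕ := Nat.pair (Nat.pair n j) (Encodable.encode l)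

end eff

/-- Odd letters are the inverses of even letters. -/
def Sym (g : ℕ → Equiv.Perm B) : Prop := ∀ i, g (2 * i + 1) = (g (2 * i))⁻¹

/-- Recursion on `n` over the orbit. -/
def stOrbRec : Prop :=
  ∀ (o : B) (g : ℕ → Equiv.Perm B), PF o (fun i x => g i x) →
    ∀ St : ℕ × ℕ → B → B → ℕ, SF o (fun q w => St q (ev w) (od w)) →
    (∀ n j x t t', (∀ m i l, m < n → t (pos m i l) = t' (pos m i l)) →
      St (n, j) x t = St (n, j) x t') →
    ∃ F : ℕ × ℕ → B → ℕ, SF o F ∧ ∀ n j x, F (n, j) x = St (n, j) x (tab g F x)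

/-- Greedy colourings, uniformly in the list of words. -/
def stCol : Prop :=
  ∀ (o : B) (g : ℕ → Equiv.Perm B), PF o (fun i x => g i x) →
    ∃ col : List (List ℕ) → B → ℕ, SF o col ∧ ∀ Bw : List (List ℕ),
      (∀ x, col Bw x ≤ Bw.length) ∧
      ((∀ w ∈ Bw, ∃ w' ∈ Bw, ∀ x, act g (act g x w) w' = x) →
        ∀ x, ∀ w ∈ Bw, col Bw (act g x w) = col Bw x → act g x w = x)

/-- Finite tables read on finitely many colours. -/
def stTable : Prop :=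
  ∀ (o : B) (g : ℕ → Equiv.Perm B), PF o (fun i x => g i x) →
    ∀ col : List (List ℕ) → B → ℕ, SF o col → (∀ Bw x, col Bw x ≤ Bw.length) →
    ∃ lam : ℕ → B → List ℕ, SF o lam ∧
      ∀ (Bw Uw : List (List ℕ)) (R : ℕ) (X : Set B) (t : B → List ℕ),
        (∀ x ∈ X, ∀ y ∈ X, (∀ u ∈ Uw, col Bw (act g x u) = col Bw (act g y u)) → t x = t y) →
        ∃ p : ℕ, p.unpair.1 = R ∧ ∀ x ∈ X, lam p x = t x

/-- Definability of the level functions, uniformly in `j, p, L, e` and in `j, p, t`. -/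
def stDefLevel : Prop :=
  ∀ (o : B) (g : ℕ → Equiv.Perm B), Sym g → PF o (fun i x => g i x) →
    ∀ lam : ℕ → B → List ℕ, SF o lam →
    Del o (fun (q : ℕ × ℕ × ℕ × ℕ) x =>
      q.2.2.2 ≤ (Lev (nrr g q.1) (lab g lam q.2.1) q.2.2.1 x).ncard) ∧
    SF o (fun (q : ℕ × ℕ × ℕ × ℕ) x => tau (nrr g q.1) (lab g lam q.2.1) q.2.2.1 q.2.2.2 x) ∧
    SF o (fun (q : ℕ × ℕ × ℕ × ℕ) x => sc (nrr g q.1) (lab g lam q.2.1) q.2.2.1 q.2.2.2 x) ∧
    SF o (fun (q : ℕ × ℕ × ℕ) x => repw g lam q.1 q.2.1 q.2.2 x)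

/-- Definability of the parameters. -/
def stDefPar : Prop :=
  ∀ (o : B) (g : ℕ → Equiv.Perm B), Sym g → PF o (fun i x => g i x) →
    ∀ lam : ℕ → B → List ℕ, SF o lam →
    SF o (NN g lam) ∧ SF o (fun j x => aa g lam x j) ∧ SF o (LL g lam) ∧ SF o (pp g lam) ∧
      SF o (DD g lam)

/-- The properties of the parameters and of the least label. -/
def stSpec : Prop :=
  ∀ (g : ℕ → Equiv.Perm B), Sym g → ∀ lam : ℕ → B → List ℕ,
    (∀ j, IsNear (nrr g j)) ∧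
    (∀ x u j, NN g lam j (act g x u) = NN g lam j x ∧ aa g lam (act g x u) j = aa g lam x j ∧
      LL g lam j (act g x u) = LL g lam j x ∧ pp g lam j (act g x u) = pp g lam j x ∧
      DD g lam j (act g x u) = DD g lam j x) ∧
    (∀ x j, (∃ C, ∀ L, ∃ p, Good g lam j C L p x) →
      Good g lam j (NN g lam j x) (LL g lam j x) (pp g lam j x) x) ∧
    (∀ j p t x, act g x (repw g lam j p t x) ∈ Lev (nrr g j) (lab g lam p) t x) ∧
    ∀ j p t t' x y, Lev (nrr g j) (lab g lam p) t' y = Lev (nrr g j) (lab g lam p) t x →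
      act g y (repw g lam j p t' y) = act g x (repw g lam j p t x)

/-- The family of maps of the union theorem exists and is definable. -/
def stMu : Prop :=
  ∀ (o : B) (g : ℕ → Equiv.Perm B), PF o (fun i x => g i x) →
    ∀ (N a D : ℕ → B → ℕ) (s : ℕ × ℕ → B → ℕ) (rw : ℕ × ℕ → B → List ℕ),
    SF o N → SF o a → SF o D → SF o s → SF o rw →
    ∃ μ : ℕ → ℕ → B → B, PF o (fun (n : ℕ) x => ff μ n 0 x) ∧
      ∀ n j x, 1 ≤ N j x → ∃ e, 1 ≤ e ∧ e ≤ N j x ∧ μ n j x = act g x (rw (j, e) x) ∧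
        ∀ e', 1 ≤ e' → e' ≤ N j x →
          s (j, e') x + wt (N (j + 1) x) (a j x) j
              (io (nrr g j) (D j x) μ n j (act g x (rw (j, e') x))) e' ≤
            s (j, e) x + wt (N (j + 1) x) (a j x) j
              (io (nrr g j) (D j x) μ n j (act g x (rw (j, e) x))) e

/-- The conclusion of the theorem for a relation `E` on a set `X`. -/
def Eff (o : B) (X : Set B) (E : B → B → Prop) : Prop :=
  ∃ F : ℕ → B → B → Prop, Delta11 o F ∧ (∀ n, FiniteEquivOn X (F n)) ∧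
    (∀ n x y, F n x y → F (n + 1) x y) ∧ ∀ x y, E x y ↔ ∃ n, F n x y

/-- The effective union theorem. -/
def stEff : Prop :=
  ∀ (o : B) (g : ℕ → Equiv.Perm B), Sym g → PF o (fun i x => g i x) →
    ∀ lam : ℕ → B → List ℕ, SF o lam → (∀ x j, ∃ C, ∀ L, ∃ p, Good g lam j C L p x) →
    Eff o Set.univ (fun x y => ∃ l, act g x l = y)

/-- All tame pairs have local labellings. -/
def stTame : Prop :=
  ∀ (G : Type) [Group G] (N : Subgroup G), Tame G N → Countable G → ∃ C, LocZ G N C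

/-- The theorem. -/
def stMain : Prop :=
  ∀ (o : B) (Γ : Type) [Group Γ] (s : ℕ → Γ), Subgroup.closure (Set.range s) = ⊤ →
    ∀ (X : Set B) [MulAction Γ X], Delta11 o (fun (_ : Unit) x _ => x ∈ X) →
    Sigma11 o (fun (i : ℕ) x y => ∃ hx : x ∈ X, ((s i • (⟨x, hx⟩ : X) : X) : B) = y) →
    (∀ Δ : Subgroup Γ, Δ.FG → ∃ N : Subgroup Δ, Tame Δ N ∧
      ∀ (d : Δ) (x : X), (d : Γ) • x = x → d ∈ N) →
    Eff o X (fun x y => ∃ (hx : x ∈ X) (γ : Γ), ((γ • (⟨x, hx⟩ : X) : X) : B) = y)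

end Pool.Agent.Lib.MP_5ddd96_lc.W5
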