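import Pool.Agent.Lib.MP_5ddd96_lc.W5.Basic

/-!
Induction over the class of groups.
-/

set_option autoImplicit false

namespace Pool.Agent.Lib.MP_5ddd96_lc.W5

theorem pfTame (h1 : stPoly) (h2 : stWin) (h3 : stTorsion) (h4 : stPropD) (h5 : stRank) :
    stTame := by
  intro G _ N h
  induction h with
  | poly G hG => exact fun _ => h1 G hG
  | torsion G T N hT _ ih =>
    intro hc
    have : Countable (G ⧸ T) := Quotient.countable
    obtain ⟨C, hC⟩ := ih this
    exact ⟨C, h3 G T N C hT (h2 _ N C hC)⟩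
  | rank G A N hA _ ih =>
    intro hc
    have : Countable (G ⧸ A) := Quotient.countable
    obtain ⟨C, hC⟩ := ih this
    obtain ⟨m, hm⟩ := h4 G A hA
    exact h5 G A N C m hm (h2 _ N C hC)

end Pool.Agent.Lib.MP_5ddd96_lc.W5
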